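import Pool.Agent.Lib.MP_e9c0f3_ag.H57T.Cx1

open ExteriorAlgebra Finset Matrix
open scoped Pointwise

namespace H57T

variable {m g : ℕ}

variable {B : Mats m g} {lam : Fin (m + 1) → ℝ} {ρ σ : Finset (Ray m g)}

lemma geo1_zv_add (v w : Fin g → ℤ) : zv (v + w) = zv v + zv w := by ext; simp [zv]

lemma geo1_zv_sub (v w : Fin g → ℤ) : zv (v - w) = zv v - zv w := by ext; simp [zv]

lemma geo1_fib {N : Type*} [AddCommGroup N] [Module ℝ N] (ρ : Finset (Ray m g))
    (a : Ray m g → ℝ) (q : Fin (m + 1) → N) :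
    ∑ r ∈ ρ, a r • q r.lab = ∑ i, (∑ r ∈ ρ.filter (·.lab = i), a r) • q i := by
  rw [← Finset.sum_fiberwise ρ (fun r => r.lab)]
  refine sum_congr rfl fun i _ => ?_
  rw [Finset.sum_smul]
  exact sum_congr rfl fun r hr => by rw [(mem_filter.1 hr).2]

/-- Weights concentrated on one chosen ray of every label. -/
noncomputable def geo1D (c : Fin (m + 1) → Ray m g) (μ : Fin (m + 1) → ℝ) (r : Ray m g) : ℝ :=
  if r = c r.lab then μ r.lab else 0

lemma geo1_D_lab {c : Fin (m + 1) → Ray m g} (hc : ∀ i, c i ∈ ρ ∧ (c i).lab = i)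
    (μ : Fin (m + 1) → ℝ) (i : Fin (m + 1)) :
    ∑ r ∈ ρ.filter (·.lab = i), geo1D c μ r = μ i := by
  rw [sum_eq_single_of_mem (c i) (mem_filter.2 (hc i))]
  · simp [geo1D, (hc i).2]
  · intro r hr hne
    rw [geo1D, (mem_filter.1 hr).2, if_neg hne]

lemma geo1_D_sum {N : Type*} [AddCommGroup N] [Module ℝ N] {c : Fin (m + 1) → Ray m g}
    (hc : ∀ i, c i ∈ ρ ∧ (c i).lab = i) (μ : Fin (m + 1) → ℝ) (p : Ray m g → N) :
    ∑ r ∈ ρ, geo1D c μ r • p r = ∑ i, μ i • p (c i) := by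
  have : ∑ r ∈ ρ, geo1D c μ r • p r = ∑ r ∈ ρ, geo1D c μ r • p (c r.lab) := by
    refine sum_congr rfl fun r _ => ?_
    unfold geo1D
    split_ifs with h
    · rw [← h]
    · simp
  rw [this, geo1_fib ρ _ fun i => p (c i)]
  exact sum_congr rfl fun i _ => by rw [geo1_D_lab hc]

lemma geo1_vertex {c : Fin (m + 1) → Ray m g} (hc : ∀ i, c i ∈ ρ ∧ (c i).lab = i)
    (hl : ∀ i, 0 < lam i) :
    ∑ i, lam i • zv (B (c i).lab *ᵥ (c i).pos) ∈ cell B lam ρ := by
  refine ⟨geo1D c lam, fun r _ => ?_, geo1_D_lab hc lam,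
    (geo1_D_sum hc lam fun r => zv (B r.lab *ᵥ r.pos)).symm⟩
  unfold geo1D
  split_ifs
  · exact (hl _).le
  · exact le_rfl

lemma geo1_convex (B : Mats m g) (lam : Fin (m + 1) → ℝ) (ρ : Finset (Ray m g)) :
    Convex ℝ (cell B lam ρ) := by
  rintro _ ⟨t, t0, t1, rfl⟩ _ ⟨s, s0, s1, rfl⟩ a b ha hb hab
  refine ⟨fun r => a * t r + b * s r, fun r hr => ?_, fun i => ?_, ?_⟩
  · exact add_nonneg (mul_nonneg ha (t0 r hr)) (mul_nonneg hb (s0 r hr))
  · rw [sum_add_distrib, ← mul_sum, ← mul_sum, t1, s1, ← add_mul, hab, one_mul]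
  · simp only [add_smul, mul_smul, sum_add_distrib, Finset.smul_sum]

theorem cell_polytope (hρ : Good ρ) (hl : ∀ i, 0 < lam i) :
    ∃ V : Finset (Fin g → ℝ), V.Nonempty ∧ cell B lam ρ = convexHull ℝ (V : Set _) := by
  classical
  refine ⟨(Fintype.piFinset fun i => ρ.filter (·.lab = i)).image
    fun c => ∑ i, lam i • zv (B (c i).lab *ᵥ (c i).pos), ?_, ?_⟩
  · choose c hc using hρ.2
    exact Finset.Nonempty.image ⟨c, Fintype.mem_piFinset.2 fun i => mem_filter.2 (hc i)⟩ _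
  apply Set.Subset.antisymm
  · rintro _ ⟨t, t0, t1, rfl⟩
    let s : Fin (m + 1) → Set (Fin g → ℝ) := fun i =>
      (fun r : Ray m g => lam i • zv (B r.lab *ᵥ r.pos)) '' (ρ.filter (·.lab = i) : Finset _)
    have h1 : ∑ r ∈ ρ, t r • zv (B r.lab *ᵥ r.pos) ∈ ∑ i, convexHull ℝ (s i) := by
      rw [← Finset.sum_fiberwise ρ (fun r => r.lab)]
      refine Set.finsetSum_mem_finsetSum _ _ _ fun i _ => ?_
      have e : ∑ r ∈ ρ.filter (·.lab = i), t r • zv (B r.lab *ᵥ r.pos) =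
          ∑ r ∈ ρ.filter (·.lab = i), (t r / lam i) • (lam i • zv (B r.lab *ᵥ r.pos)) :=
        sum_congr rfl fun r _ => by rw [smul_smul, div_mul_cancel₀ _ (hl i).ne']
      rw [e]
      refine (convex_convexHull ℝ _).sum_mem
        (fun r hr => div_nonneg (t0 r (mem_filter.1 hr).1) (hl i).le) ?_
        fun r hr => subset_convexHull ℝ _ ⟨r, hr, rfl⟩
      rw [← sum_div, t1, div_self (hl i).ne']
    rw [← convexHull_sum] at h1
    refine convexHull_mono ?_ h1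
    intro x hx
    obtain ⟨y, hy, rfl⟩ := (Set.mem_fintype_sum _ _).1 hx
    choose c hc hy using hy
    refine mem_coe.2 (mem_image.2 ⟨c, Fintype.mem_piFinset.2 fun i => mem_coe.1 (hc i), ?_⟩)
    exact sum_congr rfl fun i _ => hy i
  · refine convexHull_min ?_ (geo1_convex B lam ρ)
    intro x hx
    obtain ⟨c, hc, rfl⟩ := mem_image.1 (mem_coe.1 hx)
    exact geo1_vertex (fun i => mem_filter.1 (Fintype.mem_piFinset.1 hc i)) hl

lemma geo1_diff {c : Fin (m + 1) → Ray m g} (hc : ∀ i, c i ∈ ρ ∧ (c i).lab = i) (r : Ray m g) :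
    zv (B r.lab *ᵥ (r.pos - (c r.lab).pos)) =
      zv (B r.lab *ᵥ r.pos) - zv (B (c r.lab).lab *ᵥ (c r.lab).pos) := by
  rw [mulVec_sub, geo1_zv_sub, (hc r.lab).2]

theorem vectorSpan_cell (hρ : Good ρ) (hl : ∀ i, 0 < lam i) :
    vectorSpan ℝ (cell B lam ρ) = Submodule.span ℝ (zv ''
      {v | ∃ r ∈ ρ, ∃ s ∈ ρ, r.lab = s.lab ∧ v = B r.lab *ᵥ (r.pos - s.pos)}) := by
  classical
  choose c hc using hρ.2
  apply le_antisymm
  · rw [vectorSpan_def, Submodule.span_le]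
    rintro _ ⟨_, ⟨t, -, t1, rfl⟩, _, ⟨s, -, s1, rfl⟩, rfl⟩
    have e : (∑ r ∈ ρ, t r • zv (B r.lab *ᵥ r.pos)) -ᵥ ∑ r ∈ ρ, s r • zv (B r.lab *ᵥ r.pos) =
        ∑ r ∈ ρ, (t r - s r) • zv (B r.lab *ᵥ (r.pos - (c r.lab).pos)) := by
      simp only [geo1_diff hc, smul_sub, sum_sub_distrib]
      rw [geo1_fib ρ (fun r => t r - s r) fun i => zv (B (c i).lab *ᵥ (c i).pos)]
      simp only [sum_sub_distrib, t1, s1, sub_self, zero_smul, sum_const_zero, sub_zero, sub_smul,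
        vsub_eq_sub]
    refine SetLike.mem_coe.2 ?_
    beta_reduce
    rw [e]
    exact Submodule.sum_mem _ fun r hr => Submodule.smul_mem _ _ (Submodule.subset_span
      ⟨_, ⟨r, hr, c r.lab, (hc _).1, (hc _).2.symm, rfl⟩, rfl⟩)
  · rw [Submodule.span_le]
    rintro _ ⟨_, ⟨r, hr, s, hs, hrs, rfl⟩, rfl⟩
    have hu : ∀ a ∈ ρ, a.lab = r.lab → ∀ i, Function.update c r.lab a i ∈ ρ ∧
        (Function.update c r.lab a i).lab = i := by
      intro a ha hal i
      by_cases h : i = r.lab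
      · rw [h, Function.update_self]; exact ⟨ha, hal⟩
      · rw [Function.update_of_ne h]; exact hc i
    have h1 := vsub_mem_vectorSpan ℝ (geo1_vertex (B := B) (hu r hr rfl) hl)
      (geo1_vertex (B := B) (hu s hs hrs.symm) hl)
    rw [vsub_eq_sub, ← sum_sub_distrib, sum_eq_single r.lab] at h1
    · rw [Function.update_self, Function.update_self, ← smul_sub, ← hrs, ← geo1_zv_sub,
        ← mulVec_sub] at h1
      exact (Submodule.smul_mem_iff _ (hl _).ne').1 h1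
    · intro i _ hi
      rw [Function.update_of_ne hi, Function.update_of_ne hi, sub_self]
    · simp

theorem dim_cell (hB : Hyp B) (hρ : Good ρ) (hl : ∀ i, 0 < lam i) :
    dim (cell B lam ρ) + (m + 1) = ρ.card := by
  classical
  have hv := vectorSpan_cell (B := B) hρ hl
  choose c hc using hρ.2
  set w : Ray m g → Fin g → ℝ := fun r => zv (B r.lab *ᵥ (r.pos - (c r.lab).pos)) with hw
  set τ : Finset (Ray m g) := ρ.filter fun r => r ≠ c r.lab with hτ
  have hind : LinearIndepOn ℝ w (τ : Set (Ray m g)) := by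
    rw [linearIndepOn_finset_iff]
    intro a ha r hr
    let a' : Ray m g → ℝ := fun r => if r ≠ c r.lab then a r else 0
    have h0 : ∑ r ∈ ρ, a' r • w r = 0 := by
      rw [← ha, hτ, sum_filter]
      refine sum_congr rfl fun r _ => ?_
      simp only [a']
      split_ifs <;> simp
    have := indepR hB hρ.1
      (fun r => a' r - geo1D c (fun i => ∑ r ∈ ρ.filter (·.lab = i), a' r) r) (fun i => by
        rw [sum_sub_distrib, geo1_D_lab hc, sub_self]) (by
        simp only [sub_smul, sum_sub_distrib]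
        rw [geo1_D_sum hc, ← geo1_fib ρ a' fun i => zv (B (c i).lab *ᵥ (c i).pos), ← h0]
        simp only [hw, geo1_diff hc, smul_sub, sum_sub_distrib]) r (mem_filter.1 hr).1
    have hne := (mem_filter.1 hr).2
    simpa [a', geo1D, hne] using this
  have hsp : vectorSpan ℝ (cell B lam ρ) =
      Submodule.span ℝ (Set.range fun r : (τ : Set (Ray m g)) => w r) := by
    have hm : ∀ r ∈ ρ, w r ∈ Submodule.span ℝ (Set.range fun r : (τ : Set (Ray m g)) => w r) := by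
      intro r hr
      by_cases h : r = c r.lab
      · have : w r = 0 := by
          rw [hw]
          beta_reduce
          rw [← h, sub_self, mulVec_zero]
          ext; simp [zv]
        rw [this]; exact Submodule.zero_mem _
      · exact Submodule.subset_span ⟨⟨r, mem_filter.2 ⟨hr, h⟩⟩, rfl⟩
    rw [hv]
    apply le_antisymm
    · rw [Submodule.span_le]
      rintro _ ⟨_, ⟨r, hr, s, hs, hrs, rfl⟩, rfl⟩
      have : zv (B r.lab *ᵥ (r.pos - s.pos)) = w r - w s := by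
        simp only [hw]
        rw [← hrs, ← geo1_zv_sub, ← mulVec_sub, sub_sub_sub_cancel_right]
      rw [this]
      exact Submodule.sub_mem _ (hm r hr) (hm s hs)
    · rw [Submodule.span_le]
      rintro _ ⟨⟨r, hr⟩, rfl⟩
      exact Submodule.subset_span
        ⟨_, ⟨r, (mem_filter.1 hr).1, c r.lab, (hc _).1, (hc _).2.symm, rfl⟩, rfl⟩
  have hd : dim (cell B lam ρ) = τ.card := by
    rw [dim, hsp, finrank_span_eq_card hind]
    simp
  have hinj : Function.Injective c := fun i j h => by rw [← (hc i).2, h, (hc j).2]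
  have him : ρ.filter (fun r => ¬ r ≠ c r.lab) = univ.image c := by
    ext r
    simp only [mem_filter, not_not, mem_image, mem_univ, true_and]
    constructor
    · rintro ⟨_, h⟩; exact ⟨_, h.symm⟩
    · rintro ⟨i, rfl⟩; exact ⟨(hc i).1, by rw [(hc i).2]⟩
  rw [hd, ← card_filter_add_card_filter_not (s := ρ) (fun r => r ≠ c r.lab), him,
    card_image_of_injective _ hinj, card_univ, Fintype.card_fin]

lemma geo1_restrict (h : σ ⊆ ρ) {t : Ray m g → ℝ} (ht : ∀ r ∈ ρ, r ∉ σ → t r = 0) :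
    (∀ i, ∑ r ∈ σ.filter (·.lab = i), t r = ∑ r ∈ ρ.filter (·.lab = i), t r) ∧
      ∑ r ∈ σ, t r • zv (B r.lab *ᵥ r.pos) = ∑ r ∈ ρ, t r • zv (B r.lab *ᵥ r.pos) := by
  refine ⟨fun i => sum_subset (filter_subset_filter _ h) fun r hr hn => ?_,
    sum_subset h fun r hr hn => by rw [ht r hr hn, zero_smul]⟩
  exact ht r (mem_filter.1 hr).1 fun hs => hn (mem_filter.2 ⟨hs, (mem_filter.1 hr).2⟩)

lemma geo1_mono (h : σ ⊆ ρ) : cell B lam σ ⊆ cell B lam ρ := by
  classical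
  rintro _ ⟨t, t0, t1, rfl⟩
  obtain ⟨e1, e2⟩ := geo1_restrict (B := B) h (t := fun r => if r ∈ σ then t r else 0)
    fun r _ hn => if_neg hn
  refine ⟨fun r => if r ∈ σ then t r else 0, fun r _ => ?_, fun i => ?_, ?_⟩
  · beta_reduce
    split_ifs with hr
    · exact t0 r hr
    · exact le_rfl
  · rw [← e1, ← t1]
    exact sum_congr rfl fun r hr => if_pos (mem_filter.1 hr).1
  · rw [← e2]
    exact sum_congr rfl fun r hr => by rw [if_pos hr]

theorem cell_face (hρ : Good ρ) (hl : ∀ i, 0 < lam i) {F : Set (Fin g → ℝ)}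
    (hF : IsExposed ℝ (cell B lam ρ) F) (hne : F.Nonempty) :
    ∃ σ ⊆ ρ, Good σ ∧ F = cell B lam σ := by
  classical
  obtain ⟨ℓ, rfl⟩ := hF hne
  set f : Ray m g → ℝ := fun r => ℓ (zv (B r.lab *ᵥ r.pos)) with hf
  have hmax : ∀ i, ∃ a, (a ∈ ρ ∧ a.lab = i) ∧ ∀ r ∈ ρ, r.lab = i → f r ≤ f a := by
    intro i
    obtain ⟨r, hr⟩ := hρ.2 i
    obtain ⟨a, ha, h⟩ := exists_max_image (ρ.filter (·.lab = i)) f ⟨r, mem_filter.2 hr⟩
    exact ⟨a, mem_filter.1 ha, fun s hs hi => h s (mem_filter.2 ⟨hs, hi⟩)⟩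
  choose c hc hm using hmax
  have hval : ∀ (τ : Finset (Ray m g)) (t : Ray m g → ℝ),
      (∀ i, ∑ r ∈ τ.filter (·.lab = i), t r = lam i) →
      ∑ i, lam i * f (c i) - ℓ (∑ r ∈ τ, t r • zv (B r.lab *ᵥ r.pos)) =
        ∑ r ∈ τ, t r * (f (c r.lab) - f r) := by
    intro τ t t1
    have := geo1_fib τ t fun i => f (c i)
    simp only [smul_eq_mul, t1] at this
    rw [← this]
    simp only [map_sum, map_smul, smul_eq_mul, mul_sub, sum_sub_distrib, hf]
  have hsub : ρ.filter (fun r => f r = f (c r.lab)) ⊆ ρ := filter_subset _ _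
  refine ⟨ρ.filter fun r => f r = f (c r.lab), hsub, ⟨hρ.1.mono hsub, fun i =>
    ⟨c i, mem_filter.2 ⟨(hc i).1, by rw [(hc i).2]⟩, (hc i).2⟩⟩, ?_⟩
  apply Set.Subset.antisymm
  · rintro _ ⟨⟨t, t0, t1, rfl⟩, hx⟩
    have h1 := hx _ (geo1_vertex hc hl)
    have h2 := hval ρ t t1
    have h3 : ∀ r ∈ ρ, 0 ≤ t r * (f (c r.lab) - f r) := fun r hr =>
      mul_nonneg (t0 r hr) (sub_nonneg.2 (hm _ r hr rfl))
    have h4 : ℓ (∑ i, lam i • zv (B (c i).lab *ᵥ (c i).pos)) = ∑ i, lam i * f (c i) := by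
      simp only [map_sum, map_smul, smul_eq_mul, hf]
    have h5 := (sum_eq_zero_iff_of_nonneg h3).1
      (le_antisymm (by linarith) (sum_nonneg h3))
    obtain ⟨e1, e2⟩ := geo1_restrict (B := B) hsub (t := t) fun r hr hn => by
      refine (mul_eq_zero.1 (h5 r hr)).resolve_right fun h => hn (mem_filter.2 ⟨hr, ?_⟩)
      linarith
    exact ⟨t, fun r hr => t0 r (hsub hr), fun i => (e1 i).trans (t1 i), e2.symm⟩
  · intro x hx
    refine ⟨geo1_mono hsub hx, ?_⟩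
    obtain ⟨t, -, t1, rfl⟩ := hx
    rintro _ ⟨s, s0, s1, rfl⟩
    have h1 := hval _ t t1
    have h2 := hval _ s s1
    have h0 : ∑ r ∈ ρ.filter (fun r => f r = f (c r.lab)), t r * (f (c r.lab) - f r) = 0 :=
      sum_eq_zero fun r hr => by rw [← (mem_filter.1 hr).2, sub_self, mul_zero]
    have h3 : 0 ≤ ∑ r ∈ ρ, s r * (f (c r.lab) - f r) := sum_nonneg fun r hr =>
      mul_nonneg (s0 r hr) (sub_nonneg.2 (hm _ r hr rfl))
    linarith

lemma geo1_zv_mulVec (A : Matrix (Fin g) (Fin g) ℤ) (γ : Fin g → ℤ) :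
    A.map (Int.cast : ℤ → ℝ) *ᵥ zv γ = zv (A *ᵥ γ) := by
  ext i
  simp [zv, mulVec, dotProduct]

theorem cell_shift (γ : Fin g → ℤ) (ρ : Finset (Ray m g)) :
    ((∑ i, lam i • (B i).map (Int.cast : ℤ → ℝ)) *ᵥ zv γ) +ᵥ cell B lam ρ =
      cell B lam (shift γ ρ) := by
  have e0 : (∑ i, lam i • (B i).map (Int.cast : ℤ → ℝ)) *ᵥ zv γ =
      ∑ i, lam i • zv (B i *ᵥ γ) := by
    rw [Matrix.sum_mulVec]
    exact sum_congr rfl fun i _ => by rw [smul_mulVec, geo1_zv_mulVec]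
  have e1 : ∀ (t : Ray m g → ℝ) (i : Fin (m + 1)), ∑ r ∈ (shift γ ρ).filter (·.lab = i), t r =
      ∑ r ∈ ρ.filter (·.lab = i), t (sh γ r) := by
    intro t i
    rw [sum_filter, sum_filter, sum_shift]
    rfl
  have e2 : ∀ t : Ray m g → ℝ, (∀ i, ∑ r ∈ ρ.filter (·.lab = i), t (sh γ r) = lam i) →
      ∑ r ∈ shift γ ρ, t r • zv (B r.lab *ᵥ r.pos) =
        ∑ i, lam i • zv (B i *ᵥ γ) + ∑ r ∈ ρ, t (sh γ r) • zv (B r.lab *ᵥ r.pos) := by
    intro t t1
    have := geo1_fib ρ (fun r => t (sh γ r)) fun i => zv (B i *ᵥ γ)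
    simp only [t1] at this
    rw [sum_shift, ← this, ← sum_add_distrib]
    refine sum_congr rfl fun r _ => ?_
    rw [lab_sh, pos_sh, mulVec_add, geo1_zv_add, smul_add, add_comm]
  rw [e0]
  apply Set.Subset.antisymm
  · rintro _ ⟨_, ⟨t, t0, t1, rfl⟩, rfl⟩
    have hs : ∀ r, t (sh (-γ) (sh γ r)) = t r := fun r => by rw [sh_sh, add_neg_cancel, sh_zero]
    refine ⟨fun r => t (sh (-γ) r), fun r hr => t0 _ (mem_shift.1 hr), fun i => ?_, ?_⟩
    · rw [e1]; simp only [hs, t1]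
    · rw [e2 _ fun i => by simp only [hs, t1]]
      simp only [hs, vadd_eq_add]
  · rintro _ ⟨t, t0, t1, rfl⟩
    have t2 : ∀ i, ∑ r ∈ ρ.filter (·.lab = i), t (sh γ r) = lam i := fun i => by rw [← e1, t1]
    exact ⟨_, ⟨fun r => t (sh γ r), fun r hr => t0 _ (sh_mem_shift.2 hr), t2, rfl⟩,
      (e2 t t2).symm⟩

end H57T
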