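import Pool.Agent.Lib.MP_e9c0f3_ag.H57T.Cx1

open ExteriorAlgebra Finset Matrix
open scoped Pointwise

namespace H57T

variable {m g : ℕ}

variable {B : Mats m g} {lam : Fin (m + 1) → ℝ} {ρ σ : Finset (Ray m g)}

lemma geo2_lt {α : Type*} {A C : Finset α} {t t' x y : α → ℝ} {l : ℝ} (hl : 0 < l)
    (h0 : ∀ r ∈ A, 0 ≤ t r) (h0' : ∀ r ∈ C, 0 ≤ t' r) (h1 : ∑ r ∈ A, t r = l)
    (h1' : ∑ r ∈ C, t' r = l) (h : ∑ s ∈ C, t' s * y s < ∑ r ∈ A, t r * x r) :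
    ∃ r ∈ A, ∃ s ∈ C, y s < x r := by
  by_contra hc
  push Not at hc
  have e1 : (∑ r ∈ A, t r * x r) * l = ∑ r ∈ A, ∑ s ∈ C, t r * x r * t' s := by
    rw [← h1', sum_mul_sum]
  have e2 : l * ∑ s ∈ C, t' s * y s = ∑ r ∈ A, ∑ s ∈ C, t r * (t' s * y s) := by
    rw [← h1, sum_mul_sum]
  have e3 : ∑ r ∈ A, ∑ s ∈ C, t r * x r * t' s ≤ ∑ r ∈ A, ∑ s ∈ C, t r * (t' s * y s) := by
    refine sum_le_sum fun r hr => sum_le_sum fun s hs => ?_
    have := mul_le_mul_of_nonneg_left (hc r hr s hs) (mul_nonneg (h0 r hr) (h0' s hs))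
    linarith
  have := mul_lt_mul_of_pos_left h hl
  linarith

lemma geo2_clamp {α : Type*} {A : Finset α} {t : α → ℝ} {x : α → ℤ} {l : ℝ}
    (h0 : ∀ r ∈ A, 0 ≤ t r) (h1 : ∑ r ∈ A, t r = l) (hx : ∀ r ∈ A, ∀ s ∈ A, x r ≤ x s + 1)
    (n : ℤ) : ∑ r ∈ A.filter (fun r => n ≤ x r), t r =
      max 0 (min l (∑ r ∈ A, t r * x r - (n - 1) * l)) := by
  have e : ∑ r ∈ A, t r * x r - (n - 1) * l = ∑ r ∈ A, t r * ((x r - n + 1 : ℤ) : ℝ) := by
    rw [← h1, mul_sum, ← sum_sub_distrib]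
    refine sum_congr rfl fun r _ => ?_
    push_cast; ring
  have l0 : 0 ≤ l := h1 ▸ sum_nonneg h0
  rw [e]
  by_cases c1 : ∀ r ∈ A, n ≤ x r
  · have a : l ≤ ∑ r ∈ A, t r * ((x r - n + 1 : ℤ) : ℝ) := by
      rw [← h1]
      refine sum_le_sum fun r hr => le_mul_of_one_le_right (h0 r hr) ?_
      have := c1 r hr
      exact_mod_cast (show 1 ≤ x r - n + 1 by omega)
    rw [filter_true_of_mem c1, h1, min_eq_left a, max_eq_right l0]
  by_cases c2 : ∀ r ∈ A, ¬ n ≤ x r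
  · have a : ∑ r ∈ A, t r * ((x r - n + 1 : ℤ) : ℝ) ≤ 0 := by
      refine sum_nonpos fun r hr => mul_nonpos_of_nonneg_of_nonpos (h0 r hr) ?_
      have := c2 r hr
      exact_mod_cast (show x r - n + 1 ≤ 0 by omega)
    rw [filter_false_of_mem c2, sum_empty, max_eq_left ((min_le_right _ _).trans a)]
  push Not at c1 c2
  obtain ⟨a, ha, a1⟩ := c1
  obtain ⟨b, hb, b1⟩ := c2
  have e2 : ∑ r ∈ A, t r * ((x r - n + 1 : ℤ) : ℝ) = ∑ r ∈ A.filter (fun r => n ≤ x r), t r := by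
    rw [sum_filter]
    refine sum_congr rfl fun r hr => ?_
    have := hx r hr a ha
    have := hx b hb r hr
    split_ifs with c
    · rw [show x r - n + 1 = 1 by omega]; simp
    · rw [show x r - n + 1 = 0 by omega]; simp
  have f0 : 0 ≤ ∑ r ∈ A.filter (fun r => n ≤ x r), t r :=
    sum_nonneg fun r hr => h0 r (mem_filter.1 hr).1
  have f1 : ∑ r ∈ A.filter (fun r => n ≤ x r), t r ≤ l :=
    h1 ▸ sum_le_sum_of_subset_of_nonneg (filter_subset _ _) fun r hr _ => h0 r hr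
  rw [e2, min_eq_right f1, max_eq_right f0]

lemma geo2_zv (M : Matrix (Fin g) (Fin g) ℤ) (v : Fin g → ℤ) :
    zv (M *ᵥ v) = M.map (Int.cast : ℤ → ℝ) *ᵥ zv v := by
  ext i; simp [zv, mulVec, dotProduct]

lemma geo2_fib (B : Mats m g) (ρ : Finset (Ray m g)) (t : Ray m g → ℝ) :
    ∑ r ∈ ρ, t r • zv (B r.lab *ᵥ r.pos) = ∑ i, (B i).map (Int.cast : ℤ → ℝ) *ᵥ
      fun j => ∑ r ∈ ρ.filter (·.lab = i), t r * (r.pos j : ℝ) := by
  rw [← sum_fiberwise ρ fun r => r.lab]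
  refine sum_congr rfl fun i _ => ?_
  have e : (fun j => ∑ r ∈ ρ.filter (·.lab = i), t r * (r.pos j : ℝ)) =
      ∑ r ∈ ρ.filter (·.lab = i), t r • zv r.pos := by
    ext j; simp [zv, Finset.sum_apply]
  rw [e, mulVec_sum]
  refine sum_congr rfl fun r hr => ?_
  rw [mulVec_smul, geo2_zv, (mem_filter.1 hr).2]

lemma geo2_cross (hl : ∀ i, 0 < lam i) (hρ : Simp ρ) (hσ : Simp σ)
    {t t' : Ray m g → ℝ} (h0 : ∀ r ∈ ρ, 0 ≤ t r) (h0' : ∀ r ∈ σ, 0 ≤ t' r)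
    (h1 : ∀ i, ∑ r ∈ ρ.filter (·.lab = i), t r = lam i)
    (h1' : ∀ i, ∑ r ∈ σ.filter (·.lab = i), t' r = lam i) (j : Fin g) {i k : Fin (m + 1)}
    (a : ∑ r ∈ σ.filter (·.lab = i), t' r * (r.pos j : ℝ) <
      ∑ r ∈ ρ.filter (·.lab = i), t r * (r.pos j : ℝ))
    (b : ∑ r ∈ ρ.filter (·.lab = k), t r * (r.pos j : ℝ) <
      ∑ r ∈ σ.filter (·.lab = k), t' r * (r.pos j : ℝ)) : False := by
  obtain ⟨r, hr, s, hs, c1⟩ := geo2_lt (hl i) (fun r hr => h0 r (mem_filter.1 hr).1)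
    (fun r hr => h0' r (mem_filter.1 hr).1) (h1 i) (h1' i) a
  obtain ⟨s', hs', r', hr', c2⟩ := geo2_lt (hl k) (fun r hr => h0' r (mem_filter.1 hr).1)
    (fun r hr => h0 r (mem_filter.1 hr).1) (h1' k) (h1 k) b
  obtain ⟨r1, r2⟩ := mem_filter.1 hr
  obtain ⟨s1, s2⟩ := mem_filter.1 hs
  obtain ⟨r3, r4⟩ := mem_filter.1 hr'
  obtain ⟨s3, s4⟩ := mem_filter.1 hs'
  have d1 : s.pos j < r.pos j := by exact_mod_cast c1
  have d2 : r'.pos j < s'.pos j := by exact_mod_cast c2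
  rcases lt_trichotomy i k with h | h | h
  · have e1 : r.pos j ≤ r'.pos j := ((hρ r r1 r' r3).ple_of_lab_lt (by rw [r2, r4]; exact h)).2 j
    have e2 := ((hσ s s1 s' s3).2 j).2
    omega
  · subst h; linarith
  · have e1 : s'.pos j ≤ s.pos j := ((hσ s' s3 s s1).ple_of_lab_lt (by rw [s2, s4]; exact h)).2 j
    have e2 := ((hρ r r1 r' r3).2 j).1
    omega

lemma geo2_up (hρ : Simp ρ) (hσ : Simp σ)
    {t t' : Ray m g → ℝ} (h0 : ∀ r ∈ ρ, 0 ≤ t r) (h0' : ∀ r ∈ σ, 0 ≤ t' r) {i : Fin (m + 1)}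
    (h1 : ∑ r ∈ ρ.filter (·.lab = i), t r = lam i) (h1' : ∑ r ∈ σ.filter (·.lab = i), t' r = lam i)
    (h2 : ∀ j, ∑ r ∈ ρ.filter (·.lab = i), t r * (r.pos j : ℝ) =
      ∑ r ∈ σ.filter (·.lab = i), t' r * (r.pos j : ℝ)) (v : Fin g → ℤ) :
    ∑ r ∈ (ρ.filter (·.lab = i)).filter (fun r => ∀ j, v j ≤ r.pos j), t r ≤
      ∑ r ∈ (σ.filter (·.lab = i)).filter (fun r => ∀ j, v j ≤ r.pos j), t' r := by
  have k0 : ∀ r ∈ ρ.filter (·.lab = i), 0 ≤ t r := fun r hr => h0 r (mem_filter.1 hr).1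
  have k0' : ∀ r ∈ σ.filter (·.lab = i), 0 ≤ t' r := fun r hr => h0' r (mem_filter.1 hr).1
  by_cases c : ((σ.filter (·.lab = i)).filter fun r => ¬ ∀ j, v j ≤ r.pos j).Nonempty
  · obtain ⟨a1, a2⟩ := mem_filter.1 (max'_mem _ c)
    obtain ⟨j, hj⟩ : ∃ j, (max' _ c).pos j < v j := by
      by_contra hc
      exact a2 fun j => not_lt.1 fun h => hc ⟨j, h⟩
    have e : (σ.filter (·.lab = i)).filter (fun r => ∀ j, v j ≤ r.pos j) =
        (σ.filter (·.lab = i)).filter (fun r => v j ≤ r.pos j) := by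
      refine filter_congr fun s hs => ⟨fun h => h j, fun h => ?_⟩
      by_contra hc
      have l1 := le_max' _ s (mem_filter.2 ⟨hs, hc⟩ :
        s ∈ (σ.filter (·.lab = i)).filter fun r => ¬ ∀ j, v j ≤ r.pos j)
      have l2 : s.pos j ≤ (max' _ c).pos j :=
        ((hσ s (mem_filter.1 hs).1 _ (mem_filter.1 a1).1).ple_of_le l1).2 j
      omega
    rw [e, geo2_clamp k0' h1' (fun r hr s hs =>
        ((hσ r (mem_filter.1 hr).1 s (mem_filter.1 hs).1).2 j).1), ← h2 j,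
      ← geo2_clamp k0 h1 (fun r hr s hs =>
        ((hρ r (mem_filter.1 hr).1 s (mem_filter.1 hs).1).2 j).1)]
    exact sum_le_sum_of_subset_of_nonneg (monotone_filter_right _ fun r _ h => h j)
      fun r hr _ => k0 r (mem_filter.1 hr).1
  · rw [not_nonempty_iff_eq_empty, filter_eq_empty_iff] at c
    rw [filter_true_of_mem fun r hr => not_not.1 (c hr), h1', ← h1]
    exact sum_le_sum_of_subset_of_nonneg (filter_subset _ _) fun r hr _ => k0 r hr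

theorem bary_unique (hB : Hyp B) (hl : ∀ i, 0 < lam i) (hρ : Simp ρ) (hσ : Simp σ)
    {t t' : Ray m g → ℝ} (h0 : ∀ r ∈ ρ, 0 ≤ t r) (h0' : ∀ r ∈ σ, 0 ≤ t' r)
    (h1 : ∀ i, ∑ r ∈ ρ.filter (·.lab = i), t r = lam i)
    (h1' : ∀ i, ∑ r ∈ σ.filter (·.lab = i), t' r = lam i)
    (h2 : ∑ r ∈ ρ, t r • zv (B r.lab *ᵥ r.pos) = ∑ r ∈ σ, t' r • zv (B r.lab *ᵥ r.pos))
    (r : Ray m g) : (if r ∈ ρ then t r else 0) = if r ∈ σ then t' r else 0 := by
  rw [geo2_fib, geo2_fib] at h2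
  have hD := hB (fun i => (fun j => ∑ r ∈ ρ.filter (·.lab = i), t r * (r.pos j : ℝ)) -
      fun j => ∑ r ∈ σ.filter (·.lab = i), t' r * (r.pos j : ℝ)) (fun j => by
    by_contra hc
    push Not at hc
    obtain ⟨⟨k, hk⟩, i, hi⟩ := hc
    exact geo2_cross hl hρ hσ h0 h0' h1 h1' j (sub_pos.1 hi) (sub_neg.1 hk)) (by
    simp only [mulVec_sub, sum_sub_distrib, h2, sub_self])
  have hY : ∀ i j, ∑ r ∈ ρ.filter (·.lab = i), t r * (r.pos j : ℝ) =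
      ∑ r ∈ σ.filter (·.lab = i), t' r * (r.pos j : ℝ) := fun i j =>
    sub_eq_zero.1 (congrFun (congrFun hD i) j)
  by_contra hne
  have c : ((ρ ∪ σ).filter fun s =>
      (if s ∈ ρ then t s else 0) ≠ if s ∈ σ then t' s else 0).Nonempty := by
    refine ⟨r, mem_filter.2 ⟨?_, hne⟩⟩
    by_contra hc
    rw [mem_union, not_or] at hc
    exact hne (by rw [if_neg hc.1, if_neg hc.2])
  obtain ⟨a1, a2⟩ := mem_filter.1 (max'_mem _ c)
  have a3 : ∀ s ∈ (ρ ∪ σ).filter fun s =>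
      (if s ∈ ρ then t s else 0) ≠ if s ∈ σ then t' s else 0, s ≤ max' _ c :=
    fun s hs => le_max' _ s hs
  generalize max' _ c = a at a1 a2 a3
  have e1 := le_antisymm (geo2_up hρ hσ h0 h0' (h1 a.lab) (h1' a.lab) (hY a.lab) a.pos)
    (geo2_up hσ hρ h0' h0 (h1' a.lab) (h1 a.lab) (fun j => (hY a.lab j).symm) a.pos)
  have e2 : ∀ (τ : Finset (Ray m g)) (u : Ray m g → ℝ), τ ⊆ ρ ∪ σ →
      ∑ r ∈ (τ.filter (·.lab = a.lab)).filter (fun r => ∀ j, a.pos j ≤ r.pos j), u r =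
      ∑ r ∈ (ρ ∪ σ).filter (fun r => r.lab = a.lab ∧ ∀ j, a.pos j ≤ r.pos j), if r ∈ τ then u r else 0 := by
    intro τ u hτ
    rw [← sum_filter]
    refine sum_congr ?_ fun _ _ => rfl
    ext s
    simp only [mem_filter]
    exact ⟨fun h => ⟨⟨hτ h.1.1, h.1.2, h.2⟩, h.1.1⟩, fun h => ⟨⟨h.2, h.1.2.1⟩, h.1.2.2⟩⟩
  rw [e2 ρ t subset_union_left, e2 σ t' subset_union_right, ← sub_eq_zero, ← sum_sub_distrib,
    sum_eq_single_of_mem a (mem_filter.2 ⟨a1, rfl, fun _ => le_rfl⟩)] at e1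
  · exact a2 (sub_eq_zero.1 e1)
  · intro s hs hsa
    obtain ⟨s1, s2, s3⟩ := mem_filter.1 hs
    by_contra hc
    exact hsa (le_antisymm (a3 s (mem_filter.2 ⟨s1, sub_ne_zero.1 hc⟩))
      (ple.le ⟨s2.ge, s3⟩))

lemma geo2_mono (h : σ ⊆ ρ) : cell B lam σ ⊆ cell B lam ρ := by
  rintro x ⟨t, h0, h1, rfl⟩
  refine ⟨fun r => if r ∈ σ then t r else 0, fun r _ => ?_, fun i => ?_, ?_⟩
  · dsimp only
    split_ifs with c
    exacts [h0 r c, le_rfl]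
  · rw [← h1 i, ← sum_filter]
    refine sum_congr ?_ fun _ _ => rfl
    ext s
    simp only [mem_filter]
    exact ⟨fun c => ⟨c.2, c.1.2⟩, fun c => ⟨⟨h c.1, c.2⟩, c.1⟩⟩
  · rw [← sum_subset h fun r _ c => by simp only [if_neg c, zero_smul]]
    exact sum_congr rfl fun r c => by simp only [if_pos c]

lemma geo2_zero (h : σ ⊆ ρ) {t : Ray m g → ℝ} (h0 : ∀ r ∈ ρ, 0 ≤ t r)
    (h1 : ∀ i, ∑ r ∈ ρ.filter (·.lab = i), t r = lam i) (hz : ∀ r ∈ ρ, r ∉ σ → t r = 0) :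
    ∑ r ∈ ρ, t r • zv (B r.lab *ᵥ r.pos) ∈ cell B lam σ := by
  refine ⟨t, fun r hr => h0 r (h hr), fun i => ?_, ?_⟩
  · rw [← h1 i]
    refine sum_subset (filter_subset_filter _ h) fun r hr c => ?_
    exact hz r (mem_filter.1 hr).1 fun d => c (mem_filter.2 ⟨d, (mem_filter.1 hr).2⟩)
  · exact (sum_subset h fun r hr c => by rw [hz r hr c, zero_smul]).symm

theorem cell_inter (hB : Hyp B) (hl : ∀ i, 0 < lam i) (hρ : Simp ρ) (hσ : Simp σ) :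
    cell B lam ρ ∩ cell B lam σ = cell B lam (ρ ∩ σ) := by
  refine Set.Subset.antisymm ?_
    (Set.subset_inter (geo2_mono inter_subset_left) (geo2_mono inter_subset_right))
  rintro x ⟨⟨t, h0, h1, rfl⟩, t', h0', h1', h2⟩
  refine geo2_zero inter_subset_left h0 h1 fun r hr c => ?_
  have := bary_unique hB hl hρ hσ h0 h0' h1 h1' h2 r
  rwa [if_pos hr, if_neg fun d => c (mem_inter.2 ⟨hr, d⟩)] at this

/-- The real vector of a ray. -/
def geo2_V (B : Mats m g) (r : Ray m g) : (Fin (m + 1) → ℝ) × (Fin g → ℝ) :=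
  (Pi.single r.lab 1, zv (B r.lab *ᵥ r.pos))

lemma geo2_sumV (B : Mats m g) (ρ : Finset (Ray m g)) (t : Ray m g → ℝ) :
    ∑ r ∈ ρ, t r • geo2_V B r = (fun i => ∑ r ∈ ρ.filter (·.lab = i), t r,
      ∑ r ∈ ρ, t r • zv (B r.lab *ᵥ r.pos)) := by
  refine Prod.ext ?_ ?_
  · ext i
    simp [Prod.fst_sum, Finset.sum_apply, geo2_V, Pi.single_apply, sum_filter, eq_comm]
  · simp [Prod.snd_sum, geo2_V]

lemma geo2_form (hB : Hyp B) (hρ : Simp ρ) (w : Ray m g → ℝ) :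
    ∃ φ : ((Fin (m + 1) → ℝ) × (Fin g → ℝ)) →ₗ[ℝ] ℝ, ∀ r ∈ ρ, φ (geo2_V B r) = w r := by
  have hi : LinearIndepOn ℝ (geo2_V B) (ρ : Set (Ray m g)) := by
    rw [linearIndepOn_finset_iff]
    intro c hc
    rw [geo2_sumV] at hc
    exact indepR hB hρ c (fun i => congrFun (congrArg Prod.fst hc) i) (congrArg Prod.snd hc)
  obtain ⟨G, hG⟩ := (Finsupp.linearCombination ℝ fun r : (ρ : Set (Ray m g)) =>
    geo2_V B r).exists_leftInverse_of_injective (LinearMap.ker_eq_bot.2 hi)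
  refine ⟨Finsupp.linearCombination ℝ (fun r : (ρ : Set (Ray m g)) => w r) ∘ₗ G, fun r hr => ?_⟩
  have := LinearMap.congr_fun hG (Finsupp.single ⟨r, hr⟩ 1)
  simp only [LinearMap.comp_apply, Finsupp.linearCombination_single, one_smul,
    LinearMap.id_apply] at this
  rw [LinearMap.comp_apply, this, Finsupp.linearCombination_single, one_smul]

theorem cell_exposed (hB : Hyp B) (hρ : Simp ρ) (h : σ ⊆ ρ) :
    IsExposed ℝ (cell B lam ρ) (cell B lam σ) := by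
  rintro ⟨x0, hx0⟩
  obtain ⟨φ, hφ⟩ := geo2_form hB hρ fun r => if r ∈ σ then 0 else -1
  have key : ∀ (τ : Finset (Ray m g)) (t : Ray m g → ℝ), τ ⊆ ρ →
      (∀ i, ∑ r ∈ τ.filter (·.lab = i), t r = lam i) →
      φ (0, ∑ r ∈ τ, t r • zv (B r.lab *ᵥ r.pos)) =
        -(∑ r ∈ τ, if r ∈ σ then 0 else t r) - φ (lam, 0) := by
    intro τ t hτ h1
    have e := congrArg φ (geo2_sumV B τ t)
    rw [map_sum, funext h1, sum_congr rfl fun r hr => by rw [map_smul, hφ r (hτ hr)]] at e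
    rw [eq_sub_iff_add_eq, ← map_add, Prod.mk_add_mk, zero_add, add_zero, ← e, ← sum_neg_distrib]
    refine sum_congr rfl fun r _ => ?_
    split_ifs <;> simp
  have k1 : ∀ x ∈ cell B lam σ, φ (0, x) = -φ (lam, 0) := by
    rintro x ⟨t, -, h1, rfl⟩
    rw [key σ t h h1, sum_eq_zero fun r hr => if_pos hr]
    ring
  have nn : ∀ t : Ray m g → ℝ, (∀ r ∈ ρ, 0 ≤ t r) → ∀ r ∈ ρ, 0 ≤ if r ∈ σ then 0 else t r := by
    intro t h0 r hr
    split_ifs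
    exacts [le_rfl, h0 r hr]
  refine ⟨LinearMap.toContinuousLinearMap (φ ∘ₗ LinearMap.inr ℝ _ _), ?_⟩
  ext x
  simp only [Set.mem_ofPred_eq, LinearMap.coe_toContinuousLinearMap', LinearMap.comp_apply,
    LinearMap.inr_apply]
  constructor
  · intro hx
    refine ⟨geo2_mono h hx, ?_⟩
    rintro y ⟨t, h0, h1, rfl⟩
    have := sum_nonneg (nn t h0)
    rw [k1 x hx, key ρ t Subset.rfl h1]
    linarith
  · rintro ⟨⟨t, h0, h1, rfl⟩, hx⟩
    have a := hx x0 (geo2_mono h hx0)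
    rw [k1 x0 hx0, key ρ t Subset.rfl h1] at a
    have b := (sum_eq_zero_iff_of_nonneg (nn t h0)).1
      (le_antisymm (by linarith) (sum_nonneg (nn t h0)))
    refine geo2_zero h h0 h1 fun r hr c => ?_
    have := b r hr
    rwa [if_neg c] at this

theorem cell_subset_iff (hB : Hyp B) (hl : ∀ i, 0 < lam i) (hσ : Good σ) (hρ : Simp ρ) :
    cell B lam σ ⊆ cell B lam ρ ↔ σ ⊆ ρ := by
  refine ⟨fun h r hr => ?_, geo2_mono⟩
  have hc : ∀ i, (0 : ℝ) < (σ.filter (·.lab = i)).card := fun i => by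
    obtain ⟨s, hs, e⟩ := hσ.2 i
    exact_mod_cast card_pos.2 ⟨s, mem_filter.2 ⟨hs, e⟩⟩
  have h0 : ∀ s : Ray m g, 0 < lam s.lab / (σ.filter (·.lab = s.lab)).card := fun s =>
    div_pos (hl _) (hc _)
  have h1 : ∀ i, ∑ s ∈ σ.filter (·.lab = i), lam s.lab / (σ.filter (·.lab = s.lab)).card =
      lam i := fun i => by
    rw [sum_congr rfl fun s hs => by rw [(mem_filter.1 hs).2], sum_const, nsmul_eq_mul,
      mul_div_cancel₀ _ (hc i).ne']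
  obtain ⟨t', h0', h1', h2⟩ := h ⟨_, fun s _ => (h0 s).le, h1, rfl⟩
  have := bary_unique hB hl hσ.1 hρ (fun s _ => (h0 s).le) h0' h1 h1' h2 r
  by_contra c
  rw [if_pos hr, if_neg c] at this
  exact (h0 r).ne' this

end H57T
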