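import Pool.Agent.Lib.MP_e9c0f3_ag.H57T.Base

open ExteriorAlgebra Finset Matrix
open scoped Pointwise

namespace H57T

variable {m g : ℕ}

variable {k : ℕ} {L : Submodule ℝ (Fin g → ℝ)}

/-- The inclusion of integer vectors as a linear map. -/
def latZ (g : ℕ) : (Fin g → ℤ) →ₗ[ℤ] (Fin g → ℝ) where
  toFun := zv
  map_add' v w := by ext; simp [zv]
  map_smul' a v := by ext; simp [zv]

theorem lat_zv_sub (v w : Fin g → ℤ) : zv (v - w) = zv v - zv w := by ext; simp [zv]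

theorem lat_zv_smul (a : ℤ) (v : Fin g → ℤ) : zv (a • v) = (a : ℝ) • zv v := by ext; simp [zv]

theorem lat_zv_sum (c : Fin k → ℤ) (b : Fin k → Fin g → ℤ) :
    zv (∑ l, c l • b l) = ∑ l, (c l : ℝ) • zv (b l) := by ext; simp [zv]

theorem lat_qv_sum (c : Fin k → ℤ) (b : Fin k → Fin g → ℤ) :
    qv (∑ l, c l • b l) = ∑ l, (c l : ℚ) • qv (b l) := by ext; simp [qv]

theorem lat_indep (b : Fin k → Fin g → ℤ) :
    LinearIndependent ℝ (fun l => zv (b l)) ↔ LinearIndependent ℤ b :=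
  linearIndependent_algebraMap_comp_iff (R := ℤ) (S := ℝ)

theorem lat_indepQ (b : Fin k → Fin g → ℤ) :
    LinearIndependent ℚ (fun l => qv (b l)) ↔ LinearIndependent ℤ b :=
  linearIndependent_algebraMap_comp_iff (R := ℤ) (S := ℚ)

theorem lat_mem_span {b : Fin k → Fin g → ℤ} {v : Fin g → ℤ}
    (h : v ∈ Submodule.span ℤ (Set.range b)) :
    zv v ∈ Submodule.span ℝ (Set.range fun l => zv (b l)) := by
  obtain ⟨c, rfl⟩ := (Submodule.mem_span_range_iff_exists_fun ℤ).1 h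
  rw [lat_zv_sum]
  exact Submodule.sum_mem _ fun l _ => Submodule.smul_mem _ _ (Submodule.subset_span ⟨l, rfl⟩)

theorem lat_mem {b : Fin k → Fin g → ℤ} (hb : IsLatBasis L b) (l : Fin k) : zv (b l) ∈ L :=
  hb.2.1 ▸ Submodule.subset_span ⟨l, rfl⟩

theorem exists_latBasis (S : Set (Fin g → ℤ)) (hL : L = Submodule.span ℝ (zv '' S))
    (hk : Module.finrank ℝ L = k) : ∃ b : Fin k → Fin g → ℤ, IsLatBasis L b := by
  obtain ⟨n, β⟩ := Submodule.basisOfPid (Pi.basisFun ℤ (Fin g))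
    ((L.restrictScalars ℤ).comap (latZ g))
  have h1 : LinearIndependent ℝ fun l => zv (β l : Fin g → ℤ) :=
    (lat_indep _).2 (β.linearIndependent.map' (Submodule.subtype _) (Submodule.ker_subtype _))
  have h3 : ∀ v : Fin g → ℤ, zv v ∈ L →
      v ∈ Submodule.span ℤ (Set.range fun l => (β l : Fin g → ℤ)) := by
    intro v hv
    refine (Submodule.mem_span_range_iff_exists_fun ℤ).2 ⟨β.repr ⟨v, hv⟩, ?_⟩
    have h := congrArg Subtype.val (β.sum_repr ⟨v, hv⟩)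
    rwa [Submodule.coe_sum] at h
  have h2 : Submodule.span ℝ (Set.range fun l => zv (β l : Fin g → ℤ)) = L := by
    refine le_antisymm (Submodule.span_le.2 ?_) ?_
    · rintro _ ⟨l, rfl⟩
      exact (β l).2
    · refine hL.le.trans (Submodule.span_le.2 ?_)
      rintro _ ⟨v, hv, rfl⟩
      exact lat_mem_span (h3 v (hL ▸ Submodule.subset_span ⟨v, hv, rfl⟩))
  have h4 : n = k := by
    rw [← hk, ← h2, finrank_span_eq_card h1, Fintype.card_fin]
  subst h4
  exact ⟨_, h1, h2, h3⟩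

theorem latBasis_unique {b b' : Fin k → Fin g → ℤ} (hb : IsLatBasis L b) (hb' : IsLatBasis L b') :
    ∃ ε : ℚ, (ε = 1 ∨ ε = -1) ∧
      ιMulti ℚ k (fun l => qv (b l)) = ε • ιMulti ℚ k fun l => qv (b' l) := by
  choose U hU using fun l =>
    (Submodule.mem_span_range_iff_exists_fun ℤ).1 (hb'.2.2 _ (lat_mem hb l))
  choose U' hU' using fun l =>
    (Submodule.mem_span_range_iff_exists_fun ℤ).1 (hb.2.2 _ (lat_mem hb' l))
  have h1 : Matrix.of U * Matrix.of U' = 1 := by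
    ext l j
    refine Fintype.linearIndependent_iffₛ.1 ((lat_indep b).1 hb.1)
      ((Matrix.of U * Matrix.of U') l) ((1 : Matrix (Fin k) (Fin k) ℤ) l) ?_ j
    have e1 : ∑ i, (1 : Matrix (Fin k) (Fin k) ℤ) l i • b i = b l := by
      simp [Matrix.one_apply]
    rw [e1, ← hU l]
    simp only [Matrix.mul_apply, Matrix.of_apply, ← hU', Finset.smul_sum, Finset.sum_smul,
      smul_smul]
    exact Finset.sum_comm
  have h2 := congrArg Matrix.det h1
  rw [Matrix.det_mul, Matrix.det_one] at h2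
  refine ⟨((Matrix.of U).det : ℤ), ?_, ?_⟩
  · rcases Int.eq_one_or_neg_one_of_mul_eq_one h2 with h | h <;> rw [h] <;> simp
  · rw [Int.cast_det, ← ιMulti_matrix]
    congr 1
    funext l
    rw [← hU l, lat_qv_sum]
    rfl

theorem latBasis_ι_mul {b : Fin k → Fin g → ℤ} (hb : IsLatBasis L b) {v : Fin g → ℤ}
    (hv : zv v ∈ L) : ι ℚ (qv v) * ιMulti ℚ k (fun l => qv (b l)) = 0 := by
  obtain ⟨c, rfl⟩ := (Submodule.mem_span_range_iff_exists_fun ℤ).1 (hb.2.2 v hv)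
  rw [lat_qv_sum, map_sum, Finset.sum_mul, ← wl_ofFn]
  refine Finset.sum_eq_zero fun l _ => ?_
  rw [map_smul, smul_mul_assoc,
    ι_mul_wl_of_mem ((List.mem_ofFn' (fun l => qv (b l)) (qv (b l))).2 ⟨l, rfl⟩), smul_zero]

theorem lat_ne_zero {M : Type} [AddCommGroup M] [Module ℚ M] {n : ℕ} {v : Fin n → M}
    (h : LinearIndependent ℚ v) : ιMulti ℚ n v ≠ 0 := by
  induction n with
  | zero => rw [ιMulti_zero_apply]; exact one_ne_zero
  | succ n ih =>
    rw [← Fin.cons_self_tail v, linearIndependent_finCons] at h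
    obtain ⟨φ, h1, h2⟩ := Submodule.exists_le_ker_of_notMem h.2
    intro h0
    have h3 := congrArg (ctr φ) h0
    rw [ιMulti_succ_apply, ctr_ι_mul, map_zero, ← wl_ofFn, ctr_wl_eq_zero, mul_zero, sub_zero,
      wl_ofFn] at h3
    · exact ih h.1 ((smul_eq_zero.1 h3).resolve_left h1)
    · intro a ha
      exact h2 (Submodule.subset_span ((List.mem_ofFn' _ _).1 ha))

theorem latBasis_ne_zero {b : Fin k → Fin g → ℤ} (hb : IsLatBasis L b) :
    ιMulti ℚ k (fun l => qv (b l)) ≠ 0 :=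
  lat_ne_zero ((lat_indepQ b).2 ((lat_indep b).1 hb.1))

theorem lat_cons (f : (Fin g → ℤ) → Fin g → ℝ) (e : Fin g → ℤ) (b : Fin k → Fin g → ℤ) :
    (fun l => f ((Fin.cons e b : Fin (k + 1) → Fin g → ℤ) l)) =
      (Fin.cons (f e) (fun l => f (b l)) : Fin (k + 1) → Fin g → ℝ) := by
  funext l
  refine Fin.cases rfl (fun _ => rfl) l

/-- An integral form vanishing on the lattice and not on `e`. -/
theorem lat_form {b : Fin k → Fin g → ℤ} (hb : IsLatBasis L b) {e : Fin g → ℤ} (he : zv e ∉ L) :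
    ∃ y : Fin g → ℤ, (∀ l, y ⬝ᵥ b l = 0) ∧ y ⬝ᵥ e ≠ 0 := by
  have h1 : LinearIndependent ℝ fun l => zv ((Fin.cons e b : Fin (k + 1) → Fin g → ℤ) l) := by
    rw [lat_cons, linearIndependent_finCons, hb.2.1]
    exact ⟨hb.1, he⟩
  have h2 := (lat_indepQ _).2 ((lat_indep _).1 h1)
  have e1 : (fun l => qv ((Fin.cons e b : Fin (k + 1) → Fin g → ℤ) l)) =
      (Fin.cons (qv e) (fun l => qv (b l)) : Fin (k + 1) → Fin g → ℚ) := by
    funext l
    refine Fin.cases rfl (fun _ => rfl) l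
  rw [e1, linearIndependent_finCons] at h2
  obtain ⟨φ, h3, h4⟩ := Submodule.exists_le_ker_of_notMem h2.2
  obtain ⟨N, hN⟩ := IsLocalization.exist_integer_multiples_of_finite (nonZeroDivisors ℤ)
    fun i : Fin g => φ fun j => if i = j then 1 else 0
  choose y hy using hN
  have h5 : ∀ v : Fin g → ℤ, ((y ⬝ᵥ v : ℤ) : ℚ) = ((N : ℤ) : ℚ) * φ (qv v) := by
    intro v
    rw [LinearMap.pi_apply_eq_sum_univ φ, Finset.mul_sum, dotProduct, Int.cast_sum]
    refine Finset.sum_congr rfl fun i _ => ?_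
    have h6 : (y i : ℚ) = _ := hy i
    rw [Int.cast_mul, h6, zsmul_eq_mul, smul_eq_mul, qv]
    ring
  refine ⟨y, fun l => ?_, fun h => ?_⟩
  · have h6 : φ (qv (b l)) = 0 := h4 (Submodule.subset_span ⟨l, rfl⟩)
    have h7 := h5 (b l)
    rw [h6, mul_zero] at h7
    exact_mod_cast h7
  · have h7 := h5 e
    rw [h, Int.cast_zero] at h7
    exact mul_ne_zero (Int.cast_ne_zero.2 (nonZeroDivisors.coe_ne_zero N)) h3 h7.symm

theorem lat_dot (y v : Fin g → ℤ) : zv y ⬝ᵥ zv v = ((y ⬝ᵥ v : ℤ) : ℝ) := by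
  simp [zv, dotProduct]

theorem lat_normal {b : Fin k → Fin g → ℤ} (hb : IsLatBasis L b) {e y n : Fin g → ℤ} {a : ℤ}
    (h0 : ∀ l, y ⬝ᵥ b l = 0) (he : y ⬝ᵥ e ≠ 0) (hn : zv n ∈ L ⊔ Submodule.span ℝ {zv e})
    (ha : y ⬝ᵥ e = a * (y ⬝ᵥ n))
    (hv : ∀ v, zv v ∈ L ⊔ Submodule.span ℝ {zv e} → ∃ c : ℤ, y ⬝ᵥ v = c * (y ⬝ᵥ n)) :
    zv (e - a • n) ∈ L ∧
      IsLatBasis (L ⊔ Submodule.span ℝ {zv e}) (Fin.cons n b : Fin (k + 1) → Fin g → ℤ) := by
  have h1 : ∀ w ∈ L, zv y ⬝ᵥ w = 0 := by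
    intro w hw
    rw [← hb.2.1] at hw
    obtain ⟨c, rfl⟩ := (Submodule.mem_span_range_iff_exists_fun ℝ).1 hw
    rw [dotProduct_sum]
    refine Finset.sum_eq_zero fun l _ => ?_
    rw [dotProduct_smul, lat_dot, h0, Int.cast_zero, smul_zero]
  have h2 : ∀ (v : Fin g → ℤ) (c : ℤ), zv v ∈ L ⊔ Submodule.span ℝ {zv e} →
      y ⬝ᵥ v = c * (y ⬝ᵥ n) → zv (v - c • n) ∈ L := by
    intro v c hv hc
    have h3 : zv (v - c • n) ∈ L ⊔ Submodule.span ℝ {zv e} := by
      rw [lat_zv_sub, lat_zv_smul]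
      exact Submodule.sub_mem _ hv (Submodule.smul_mem _ _ hn)
    have h4 : zv y ⬝ᵥ zv (v - c • n) = 0 := by
      rw [lat_dot, dotProduct_sub, dotProduct_smul, hc, smul_eq_mul, sub_self, Int.cast_zero]
    obtain ⟨w, hw, z, hz, e1⟩ := Submodule.mem_sup.1 h3
    obtain ⟨t, rfl⟩ := Submodule.mem_span_singleton.1 hz
    rw [← e1, dotProduct_add, h1 w hw, zero_add, dotProduct_smul, lat_dot, smul_eq_mul] at h4
    rw [← e1, (mul_eq_zero.1 h4).resolve_right (Int.cast_ne_zero.2 he), zero_smul, add_zero]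
    exact hw
  have h3 : zv e ∈ L ⊔ Submodule.span ℝ {zv e} :=
    Submodule.mem_sup_right (Submodule.mem_span_singleton_self _)
  have h4 := h2 e a h3 ha
  refine ⟨h4, ?_, ?_, fun v h5 => ?_⟩
  · rw [lat_cons, linearIndependent_finCons, hb.2.1]
    refine ⟨hb.1, fun h5 => he ?_⟩
    have h6 := h1 _ h5
    rw [lat_dot, Int.cast_eq_zero] at h6
    rw [ha, h6, mul_zero]
  · rw [lat_cons, Fin.range_cons, Submodule.span_insert, hb.2.1]
    refine le_antisymm (sup_le ((Submodule.span_singleton_le_iff_mem _ _).2 hn) le_sup_left)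
      (sup_le le_sup_right ((Submodule.span_singleton_le_iff_mem _ _).2 ?_))
    rw [show zv e = (a : ℝ) • zv n + zv (e - a • n) by
      rw [lat_zv_sub, lat_zv_smul, add_sub_cancel]]
    exact Submodule.add_mem_sup
      (Submodule.smul_mem _ _ (Submodule.mem_span_singleton_self _)) h4
  · obtain ⟨c, hc⟩ := hv v h5
    rw [Fin.range_cons, Submodule.span_insert, show v = c • n + (v - c • n) by abel]
    exact Submodule.add_mem_sup (Submodule.smul_mem _ _ (Submodule.mem_span_singleton_self _))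
      (hb.2.2 _ (h2 v c h5 hc))

theorem exists_normal {b : Fin k → Fin g → ℤ} (hb : IsLatBasis L b) {e : Fin g → ℤ}
    (he : zv e ∉ L) : ∃ (n : Fin g → ℤ) (a : ℤ), 0 < a ∧ zv (e - a • n) ∈ L ∧
      IsLatBasis (L ⊔ Submodule.span ℝ {zv e}) (Fin.cons n b : Fin (k + 1) → Fin g → ℤ) := by
  obtain ⟨y, h0, h1⟩ := lat_form hb he
  obtain ⟨d, hd⟩ := Submodule.IsPrincipal.principal
    ((((L ⊔ Submodule.span ℝ {zv e}).restrictScalars ℤ).comap (latZ g)).map
      (dotProductBilin ℤ ℤ y))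
  obtain ⟨n, hn, e1⟩ := hd.ge (Submodule.mem_span_singleton_self d)
  have hn' : zv n ∈ L ⊔ Submodule.span ℝ {zv e} := hn
  have e2 : y ⬝ᵥ n = d := e1
  have hv : ∀ v, zv v ∈ L ⊔ Submodule.span ℝ {zv e} → ∃ c : ℤ, y ⬝ᵥ v = c * (y ⬝ᵥ n) := by
    intro v hv
    obtain ⟨c, hc⟩ := Submodule.mem_span_singleton.1 (hd.le ⟨v, hv, rfl⟩)
    exact ⟨c, by rw [e2]; exact hc.symm⟩
  obtain ⟨a, ha⟩ := hv e (Submodule.mem_sup_right (Submodule.mem_span_singleton_self _))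
  have ha0 : a ≠ 0 := fun h => h1 (by rw [ha, h, zero_mul])
  rcases lt_or_gt_of_ne ha0 with h | h
  · refine ⟨-n, -a, neg_pos.2 h, lat_normal hb h0 h1 ?_ ?_ fun v h2 => ?_⟩
    · rw [← neg_one_smul ℤ n, lat_zv_smul]
      exact Submodule.smul_mem _ _ hn'
    · rw [dotProduct_neg, neg_mul_neg, ha]
    · obtain ⟨c, hc⟩ := hv v h2
      exact ⟨-c, by rw [dotProduct_neg, neg_mul_neg, hc]⟩
  · exact ⟨n, a, h, lat_normal hb h0 h1 hn' ha hv⟩

end H57T
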