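import Pool.Agent.Lib.MP_e9c0f3_ag.H57T.Base

open ExteriorAlgebra Finset Matrix
open scoped Pointwise

namespace H57T

variable {m g : ℕ}

open MeasureTheory in
theorem vol1_int {a R : ℝ} (ha : 0 ≤ a) (hR : 0 ≤ R) (n : ℕ) :
    ∫⁻ s in Set.Icc 0 a, ENNReal.ofReal ((a - s) ^ n / n.factorial * R) =
      ENNReal.ofReal (a ^ (n + 1) / (n + 1).factorial * R) := by
  rw [← ofReal_integral_eq_lintegral_ofReal (Continuous.integrableOn_Icc (by fun_prop))
    ((ae_restrict_mem measurableSet_Icc).mono fun s hs => by
      have := sub_nonneg.2 hs.2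
      positivity), integral_Icc_eq_integral_Ioc, ← intervalIntegral.integral_of_le ha,
    intervalIntegral.integral_mul_const, intervalIntegral.integral_div,
    intervalIntegral.integral_comp_sub_left (fun s => s ^ n), integral_pow, Nat.factorial_succ]
  congr 2
  push_cast
  rw [sub_self, sub_zero, zero_pow n.succ_ne_zero, sub_zero, div_div]

open MeasureTheory in
theorem vol1_aux {κ : Type*} [Fintype κ] [DecidableEq κ] {q : ℕ} (c : Fin q → κ)
    (lam : κ → ℝ) (h : ∀ i, 0 ≤ lam i) :
    volume {t : Fin q → ℝ | (∀ l, 0 ≤ t l) ∧ ∀ i, (∑ l, if c l = i then t l else 0) ≤ lam i} =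
      ENNReal.ofReal (∏ i, lam i ^ (∑ l, if c l = i then 1 else 0) /
        ((∑ l, if c l = i then 1 else 0).factorial : ℝ)) := by
  induction q generalizing lam with
  | zero => simp [h, volume_pi]
  | succ q ih =>
    set S := {t : Fin (q + 1) → ℝ | (∀ l, 0 ≤ t l) ∧
      ∀ i, (∑ l, if c l = i then t l else 0) ≤ lam i} with hS
    have hm : MeasurableSet S := by
      simp only [hS, Set.ofPred_and, Set.ofPred_forall]
      refine (MeasurableSet.iInter fun l => measurableSet_le measurable_const
        (measurable_pi_apply l)).inter (MeasurableSet.iInter fun i => measurableSet_le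
          (Finset.measurable_sum _ fun l _ => ?_) measurable_const)
      split_ifs
      · exact measurable_pi_apply l
      · exact measurable_const
    let e := MeasurableEquiv.piFinSuccAbove (fun _ : Fin (q + 1) => ℝ) 0
    let n : κ → ℕ := fun i => ∑ l : Fin q, if c l.succ = i then 1 else 0
    let R := ∏ i ∈ univ.erase (c 0), lam i ^ n i / ((n i).factorial : ℝ)
    have hR : 0 ≤ R := prod_nonneg fun i _ => by have := h i; positivity
    have key : ∀ s : ℝ, volume (Prod.mk s ⁻¹' (e.symm ⁻¹' S)) = (Set.Icc 0 (lam (c 0))).indicator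
        (fun s => ENNReal.ofReal ((lam (c 0) - s) ^ n (c 0) / (n (c 0)).factorial * R)) s := by
      intro s
      have h1 : ∀ t, t ∈ Prod.mk s ⁻¹' (e.symm ⁻¹' S) ↔ (0 ≤ s ∧ ∀ l, 0 ≤ t l) ∧
          ∀ i, (∑ l, if c l.succ = i then t l else 0) ≤ lam i - if c 0 = i then s else 0 := by
        intro t
        simp [e, hS, Fin.forall_fin_succ, Fin.sum_univ_succ, le_sub_iff_add_le', Fin.insertNthEquiv]
      by_cases hs : s ∈ Set.Icc 0 (lam (c 0))
      · have h2 := ih (fun l => c l.succ) (fun i => lam i - if c 0 = i then s else 0) fun i => by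
          split_ifs with e
          · exact e ▸ sub_nonneg.2 hs.2
          · simpa using h i
        rw [← mul_prod_erase _ _ (mem_univ (c 0)), if_pos rfl, prod_congr rfl fun i hi => by
          rw [if_neg (ne_of_mem_erase hi).symm, sub_zero]] at h2
        rw [Set.indicator_of_mem hs, ← h2]
        congr 1
        ext t
        simp only [h1, hs.1, true_and, Set.mem_ofPred_eq]
      · rw [Set.indicator_of_notMem hs, Set.eq_empty_of_forall_notMem (s := Prod.mk s ⁻¹' _),
          measure_empty]
        intro t ht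
        obtain ⟨⟨h2, h3⟩, h4⟩ := (h1 t).1 ht
        have h5 := h4 (c 0)
        rw [if_pos rfl] at h5
        refine hs ⟨h2, sub_nonneg.1 (le_trans (sum_nonneg fun l _ => ?_) h5)⟩
        split_ifs
        · exact h3 l
        · exact le_rfl
    rw [← ((volume_preserving_piFinSuccAbove (fun _ : Fin (q + 1) => ℝ) 0).symm _
      ).measure_preimage_equiv S, Measure.volume_eq_prod, Measure.prod_apply (e.symm.measurable hm),
      lintegral_congr key, lintegral_indicator measurableSet_Icc, vol1_int (h _) hR,
      ← mul_prod_erase _ _ (mem_univ (c 0)), Fin.sum_univ_succ, if_pos rfl, add_comm 1]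
    congr 2
    exact prod_congr rfl fun i hi => by
      rw [Fin.sum_univ_succ, if_neg (ne_of_mem_erase hi).symm, zero_add]

open MeasureTheory in
theorem vol_prod_simplex {κ : Type*} [Fintype κ] [DecidableEq κ] {q : ℕ} (c : Fin q → κ)
    (lam : κ → ℝ) (h : ∀ i, 0 ≤ lam i) :
    volume {t : Fin q → ℝ | (∀ l, 0 ≤ t l) ∧ ∀ i, ∑ l ∈ univ.filter (c · = i), t l ≤ lam i} =
      ENNReal.ofReal (∏ i, lam i ^ (univ.filter (c · = i)).card /
        ((univ.filter (c · = i)).card.factorial : ℝ)) := by
  simp only [sum_filter, card_filter]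
  exact vol1_aux c lam h

end H57T
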