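import Pool.Agent.Lib.MP_e9c0f3_ag.H57T.Cx2
import Pool.Agent.Lib.MP_e9c0f3_ag.H57T.Geo1
import Pool.Agent.Lib.MP_e9c0f3_ag.H57T.Lat
import Pool.Agent.Lib.MP_e9c0f3_ag.H57T.Vol1

open ExteriorAlgebra Finset Matrix
open scoped Pointwise

namespace H57T

variable {m g : ℕ}

section aux

variable {q : ℕ} {ρ : Finset (Ray m g)} {bs : Fin (m + 1) → Ray m g} {e : Fin q → Ray m g}

lemma vol2_sum {M : Type*} [AddCommMonoid M] (h1 : ∀ i, (bs i).lab = i)
    (h2 : Function.Injective e) (h3 : ∀ l i, e l ≠ bs i)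
    (h4 : ∀ r, r ∈ ρ ↔ (∃ i, r = bs i) ∨ ∃ l, r = e l) (f : Ray m g → M) :
    ∑ r ∈ ρ, f r = ∑ i, f (bs i) + ∑ l, f (e l) := by
  have hb : Function.Injective bs := fun i j h => by rw [← h1 i, h, h1 j]
  have h5 : ρ = univ.image bs ∪ univ.image e := by
    ext r
    simp only [h4, mem_union, mem_image, mem_univ, true_and, eq_comm]
  have h6 : Disjoint (univ.image bs) (univ.image e) := by
    rw [disjoint_left]
    intro r hr hr'
    obtain ⟨i, -, rfl⟩ := mem_image.1 hr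
    obtain ⟨l, -, hl⟩ := mem_image.1 hr'
    exact h3 l i hl
  rw [h5, sum_union h6, sum_image fun i _ j _ h => hb h, sum_image fun i _ j _ h => h2 h]

lemma vol2_sum_filter {M : Type*} [AddCommMonoid M] (h1 : ∀ i, (bs i).lab = i)
    (h2 : Function.Injective e) (h3 : ∀ l i, e l ≠ bs i)
    (h4 : ∀ r, r ∈ ρ ↔ (∃ i, r = bs i) ∨ ∃ l, r = e l) (f : Ray m g → M) (i : Fin (m + 1)) :
    ∑ r ∈ ρ.filter (·.lab = i), f r =
      f (bs i) + ∑ l ∈ univ.filter (fun l => (e l).lab = i), f (e l) := by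
  rw [sum_filter, vol2_sum h1 h2 h3 h4, sum_filter]
  simp only [h1, sum_ite_eq', mem_univ, if_true]

lemma vol2_zv_sub (v w : Fin g → ℤ) : zv (v - w) = zv v - zv w := by
  ext i
  simp [zv]

lemma vol2_zv_sum (a : Fin q → ℤ) (b : Fin q → Fin g → ℤ) :
    zv (∑ k, a k • b k) = ∑ k, (a k : ℝ) • zv (b k) := by
  ext i
  simp [zv, Finset.sum_apply]

lemma vol2_qv_sum (a : Fin q → ℤ) (b : Fin q → Fin g → ℤ) :
    qv (∑ k, a k • b k) = ∑ k, (a k : ℚ) • qv (b k) := by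
  ext i
  simp [qv, Finset.sum_apply]

/-- The cell as the affine image of a product of simplices. -/
lemma vol2_mem_cell (B : Mats m g) (lam : Fin (m + 1) → ℝ) (h1 : ∀ i, (bs i).lab = i)
    (h2 : Function.Injective e) (h3 : ∀ l i, e l ≠ bs i)
    (h4 : ∀ r, r ∈ ρ ↔ (∃ i, r = bs i) ∨ ∃ l, r = e l) (y : Fin g → ℝ) :
    y ∈ cell B lam ρ ↔ ∃ s : Fin q → ℝ, ((∀ l, 0 ≤ s l) ∧
      ∀ i, ∑ l ∈ univ.filter (fun l => (e l).lab = i), s l ≤ lam i) ∧
      y = ∑ i, lam i • zv (B i *ᵥ (bs i).pos) +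
        ∑ l, s l • zv (B (e l).lab *ᵥ ((e l).pos - (bs (e l).lab).pos)) := by
  have key : ∀ t : Ray m g → ℝ, (∀ i, ∑ r ∈ ρ.filter (·.lab = i), t r = lam i) →
      ∑ r ∈ ρ, t r • zv (B r.lab *ᵥ r.pos) = ∑ i, lam i • zv (B i *ᵥ (bs i).pos) +
        ∑ l, t (e l) • zv (B (e l).lab *ᵥ ((e l).pos - (bs (e l).lab).pos)) := by
    intro t ht
    have e1 : ∑ i, lam i • zv (B i *ᵥ (bs i).pos) = ∑ i, t (bs i) • zv (B i *ᵥ (bs i).pos) +
        ∑ l, t (e l) • zv (B (e l).lab *ᵥ (bs (e l).lab).pos) := by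
      rw [← sum_fiberwise univ (fun l => (e l).lab), ← sum_add_distrib]
      refine sum_congr rfl fun i _ => ?_
      rw [← ht i, vol2_sum_filter h1 h2 h3 h4, add_smul, sum_smul]
      congr 1
      refine sum_congr rfl fun l hl => ?_
      rw [(mem_filter.1 hl).2]
    rw [vol2_sum h1 h2 h3 h4, e1, add_assoc, ← sum_add_distrib]
    simp only [h1, mulVec_sub, vol2_zv_sub, smul_sub, add_sub_cancel]
  constructor
  · rintro ⟨t, ht0, ht1, rfl⟩
    refine ⟨fun l => t (e l), ⟨fun l => ht0 _ ((h4 _).2 (Or.inr ⟨l, rfl⟩)), fun i => ?_⟩, key t ht1⟩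
    rw [← ht1 i, vol2_sum_filter h1 h2 h3 h4]
    exact le_add_of_nonneg_left (ht0 _ ((h4 _).2 (Or.inl ⟨i, rfl⟩)))
  · rintro ⟨s, ⟨hs0, hs1⟩, rfl⟩
    obtain ⟨t, ht1, ht2⟩ : ∃ t : Ray m g → ℝ, (∀ l, t (e l) = s l) ∧
        ∀ i, t (bs i) = lam i - ∑ l ∈ univ.filter (fun l => (e l).lab = i), s l := by
      refine ⟨Function.extend e s fun r =>
        lam r.lab - ∑ l ∈ univ.filter (fun l => (e l).lab = r.lab), s l,
        fun l => h2.extend_apply _ _ l, fun i => ?_⟩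
      rw [Function.extend_apply' _ _ _ fun ⟨l, hl⟩ => h3 l i hl, h1]
    have ht : ∀ i, ∑ r ∈ ρ.filter (·.lab = i), t r = lam i := fun i => by
      rw [vol2_sum_filter h1 h2 h3 h4, ht2]
      simp only [ht1, sub_add_cancel]
    refine ⟨t, fun r hr => ?_, ht, ?_⟩
    · rcases (h4 r).1 hr with ⟨i, rfl⟩ | ⟨l, rfl⟩
      · rw [ht2]
        exact sub_nonneg.2 (hs1 i)
      · rw [ht1]
        exact hs0 l
    · rw [key t ht]
      simp only [ht1]

lemma vol2_countP (h1 : ∀ i, (bs i).lab = i)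
    (h2 : Function.Injective e) (h3 : ∀ l i, e l ≠ bs i)
    (h4 : ∀ r, r ∈ ρ ↔ (∃ i, r = bs i) ∨ ∃ l, r = e l) (i : Fin (m + 1)) :
    (ρ.sort (· ≤ ·)).countP (·.lab = i) - 1 = (univ.filter fun l => (e l).lab = i).card := by
  have h5 : (ρ.sort (· ≤ ·)).countP (·.lab = i) = (ρ.filter (·.lab = i)).card := by
    rw [← Multiset.coe_countP (fun r : Ray m g => r.lab = i), sort_eq, Multiset.countP_eq_card_filter]
    rfl
  rw [h5, card_eq_sum_ones, vol2_sum_filter h1 h2 h3 h4, ← card_eq_sum_ones]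
  omega

end aux

theorem latVol_cell {B : Mats m g} {lam : Fin (m + 1) → ℝ} {ρ : Finset (Ray m g)} {q : ℕ}
    (hρ : Good ρ) (hl : ∀ i, 0 < lam i) (hc : ρ.card = m + 1 + q)
    {x : Fin g → ℝ} (hx : x ∈ cell B lam ρ) {b : Fin q → Fin g → ℤ}
    (hb : IsLatBasis (vectorSpan ℝ (cell B lam ρ)) b) :
    ∃ c : ℚ, c ≠ 0 ∧ nbar B ρ = c • ιMulti ℚ q (fun l => qv (b l)) ∧
      latVol (cell B lam ρ) x b = |(c : ℝ)| * vf lam (ρ.sort (· ≤ ·)) := by
  obtain ⟨bs, e, ε, hε, h1, h2, h3, h4, h5⟩ := exists_edges hρ.2 hc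
  have hm := vol2_mem_cell B lam h1 h2 h3 h4
  have hE : ∀ l, ∃ u : Fin q → ℤ,
      ∑ k, u k • b k = B (e l).lab *ᵥ ((e l).pos - (bs (e l).lab).pos) := fun l => by
    refine (Submodule.mem_span_range_iff_exists_fun ℤ).1 (hb.2.2 _ ?_)
    rw [vectorSpan_cell hρ hl]
    exact Submodule.subset_span ⟨_, ⟨e l, (h4 _).2 (Or.inr ⟨l, rfl⟩), bs (e l).lab,
      (h4 _).2 (Or.inl ⟨_, rfl⟩), (h1 _).symm, rfl⟩, rfl⟩
  choose U hU using hE
  have h6 := h5 B
  simp only [← hU] at hm h6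
  simp only [vol2_zv_sum] at hm
  simp only [vol2_qv_sum] at h6
  generalize ∑ i, lam i • zv (B i *ᵥ (bs i).pos) = x0 at hm
  set UR : Matrix (Fin q) (Fin q) ℝ := Matrix.of fun l k => (U l k : ℝ) with hUR
  set UQ : Matrix (Fin q) (Fin q) ℚ := Matrix.of fun l k => (U l k : ℚ) with hUQ
  have hdet : ((UQ.det : ℚ) : ℝ) = UR.det := by
    rw [← Rat.coe_castHom, RingHom.map_det]
    congr 1
  have hsum : ∀ s : Fin q → ℝ, ∑ l, s l • ∑ k, (U l k : ℝ) • zv (b k) =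
      ∑ k, (URᵀ *ᵥ s) k • zv (b k) := fun s => by
    simp only [smul_sum, smul_smul]
    rw [sum_comm]
    refine sum_congr rfl fun k _ => ?_
    rw [← sum_smul]
    congr 1
    simp [hUR, mulVec, dotProduct, mul_comm]
  simp only [hsum] at hm
  have hind : ∀ s t : Fin q → ℝ, ∑ k, s k • zv (b k) = ∑ k, t k • zv (b k) → s = t :=
    fun s t h => funext (Fintype.linearIndependent_iffₛ.1 hb.1 s t h)
  have hsurj : Function.Surjective (URᵀ *ᵥ ·) := by
    intro t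
    have ht : ∑ k, t k • zv (b k) ∈ vectorSpan ℝ (cell B lam ρ) := by
      rw [← hb.2.1]
      exact Submodule.sum_mem _ fun k _ => Submodule.smul_mem _ _ (Submodule.subset_span ⟨k, rfl⟩)
    have hle : vectorSpan ℝ (cell B lam ρ) ≤ LinearMap.range
        (Fintype.linearCombination ℝ (fun k => zv (b k)) ∘ₗ URᵀ.mulVecLin) := by
      rw [vectorSpan_def, Submodule.span_le]
      rintro _ ⟨y, hy, z, hz, rfl⟩
      obtain ⟨s, -, rfl⟩ := (hm y).1 hy
      obtain ⟨s', -, rfl⟩ := (hm z).1 hz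
      refine ⟨s - s', ?_⟩
      rw [map_sub]
      simp only [LinearMap.comp_apply, Fintype.linearCombination_apply, mulVecLin_apply,
        vsub_eq_sub, add_sub_add_left_eq_sub]
    obtain ⟨s, hs⟩ := hle ht
    refine ⟨s, hind _ _ ?_⟩
    simpa only [LinearMap.comp_apply, Fintype.linearCombination_apply, mulVecLin_apply] using hs
  have hdet0 : UR.det ≠ 0 := by
    rw [← det_transpose]
    exact ((isUnit_iff_isUnit_det _).1 (mulVec_surjective_iff_isUnit.1 hsurj)).ne_zero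
  have hε1 : |(ε : ℝ)| = 1 := by rcases hε with rfl | rfl <;> simp
  refine ⟨ε * UQ.det, mul_ne_zero (by rcases hε with rfl | rfl <;> norm_num) ?_, ?_, ?_⟩
  · intro h
    rw [← hdet, h] at hdet0
    exact hdet0 Rat.cast_zero
  · rw [h6, mul_smul, ← ιMulti_matrix]
    rfl
  · obtain ⟨s0, -, rfl⟩ := (hm x).1 hx
    have hset : {t : Fin q → ℝ | x0 + ∑ k, (URᵀ *ᵥ s0) k • zv (b k) + ∑ l, t l • zv (b l) ∈
        cell B lam ρ} = (fun t => URᵀ *ᵥ s0 + t) ⁻¹' (Matrix.toLin' URᵀ ''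
          {t : Fin q → ℝ | (∀ l, 0 ≤ t l) ∧
            ∀ i, ∑ l ∈ univ.filter (fun l => (e l).lab = i), t l ≤ lam i}) := by
      ext t
      have e1 : x0 + ∑ k, (URᵀ *ᵥ s0) k • zv (b k) + ∑ l, t l • zv (b l) =
          x0 + ∑ k, (URᵀ *ᵥ s0 + t) k • zv (b k) := by
        simp only [Pi.add_apply, add_smul, sum_add_distrib, add_assoc]
      rw [Set.mem_ofPred_eq, e1, hm]
      simp only [Set.mem_preimage, Set.mem_image, Set.mem_ofPred_eq, toLin'_apply]
      refine exists_congr fun s => and_congr_right fun _ => ⟨fun h => ?_, fun h => by rw [h]⟩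
      exact (hind _ _ (add_left_cancel h)).symm
    rw [latVol, hset, MeasureTheory.measure_preimage_add,
      MeasureTheory.Measure.addHaar_image_linearMap, LinearMap.det_toLin', det_transpose,
      vol_prod_simplex (fun l => (e l).lab) lam fun i => (hl i).le, ENNReal.toReal_mul,
      ENNReal.toReal_ofReal (abs_nonneg _), ENNReal.toReal_ofReal
        (prod_nonneg fun i _ => div_nonneg (pow_nonneg (hl i).le _) (Nat.cast_nonneg _)),
      Rat.cast_mul, abs_mul, hε1, one_mul, hdet, vf]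
    simp only [vol2_countP h1 h2 h3 h4]

end H57T
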