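import Pool.Agent.Lib.MP_e9c0f3_ag.H57T.Cx2
import Pool.Agent.Lib.MP_e9c0f3_ag.H57T.Geo1
import Pool.Agent.Lib.MP_e9c0f3_ag.H57T.Geo2
import Pool.Agent.Lib.MP_e9c0f3_ag.H57T.Vol2

open ExteriorAlgebra Finset Matrix
open scoped Pointwise

namespace H57T

variable {m g : ℕ}

lemma asm_zv_add (v w : Fin g → ℤ) : zv (v + w) = zv v + zv w := by ext; simp [zv]

lemma asm_zv_sub (v w : Fin g → ℤ) : zv (v - w) = zv v - zv w := by ext; simp [zv]

lemma asm_zv_smul (a : ℤ) (v : Fin g → ℤ) : zv (a • v) = (a : ℝ) • zv v := by ext; simp [zv]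

lemma asm_zv_mem {k : ℕ} {L : Submodule ℝ (Fin g → ℝ)} {b : Fin k → Fin g → ℤ}
    (hb : IsLatBasis L b) {w : Fin g → ℤ} (hw : w ∈ Submodule.span ℤ (Set.range b)) :
    zv w ∈ L := by
  induction hw using Submodule.span_induction with
  | mem x hx =>
    obtain ⟨l, rfl⟩ := hx
    rw [← hb.2.1]
    exact Submodule.subset_span ⟨l, rfl⟩
  | zero =>
    have : zv (0 : Fin g → ℤ) = 0 := by ext; simp [zv]
    rw [this]; exact L.zero_mem
  | add x y _ _ hx hy => rw [asm_zv_add]; exact L.add_mem hx hy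
  | smul a x _ hx => rw [asm_zv_smul]; exact L.smul_mem _ hx

/-- The absolute value of the ratio of `ξ` and the primitive multivector of `L`. -/
noncomputable def asmIdx (k : ℕ) (L : Submodule ℝ (Fin g → ℝ)) (ξ : Ex (Fin g → ℚ)) : ℚ :=
  Classical.epsilon fun a => ∀ (b : Fin k → Fin g → ℤ) (c : ℚ), IsLatBasis L b →
    ξ = c • ιMulti ℚ k (fun l => qv (b l)) → |c| = a

lemma asmIdx_eq {k : ℕ} {L : Submodule ℝ (Fin g → ℝ)} {ξ : Ex (Fin g → ℚ)}
    {b : Fin k → Fin g → ℤ} {c : ℚ} (hb : IsLatBasis L b)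
    (h : ξ = c • ιMulti ℚ k (fun l => qv (b l))) : asmIdx k L ξ = |c| := by
  have hex : ∃ a : ℚ, ∀ (b : Fin k → Fin g → ℤ) (c : ℚ), IsLatBasis L b →
      ξ = c • ιMulti ℚ k (fun l => qv (b l)) → |c| = a := by
    refine ⟨|c|, fun b' c' hb' h' => ?_⟩
    obtain ⟨ε, hε, he⟩ := latBasis_unique hb hb'
    rw [h, he, smul_smul, ← sub_eq_zero, ← sub_smul, smul_eq_zero] at h'
    rcases h' with h' | h'
    · rw [← sub_eq_zero.1 h']
      rcases hε with rfl | rfl <;> simp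
    · exact absurd h' (latBasis_ne_zero hb')
  exact (Classical.epsilon_spec hex b c hb h).symm

variable {B : Mats m g} {lam : Fin (m + 1) → ℝ}

lemma asm_cell_inj (hB : Hyp B) (hl : ∀ i, 0 < lam i) {ρ σ : Finset (Ray m g)} (hρ : Good ρ)
    (hσ : Good σ) (h : cell B lam ρ = cell B lam σ) : ρ = σ :=
  Subset.antisymm ((cell_subset_iff hB hl hρ hσ.1).1 h.le)
    ((cell_subset_iff hB hl hσ hρ.1).1 h.ge)

open Classical in
/-- The weight of a cell. -/
noncomputable def asmWt (B : Mats m g) (lam : Fin (m + 1) → ℝ) (q : ℕ)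
    (z : Finset (Ray m g) → ℚ) (P : Set (Fin g → ℝ)) : ℚ :=
  if h : ∃ ρ, Good ρ ∧ P = cell B lam ρ then
    z h.choose * asmIdx q (vectorSpan ℝ P) (nbar B h.choose) else 0

lemma asmWt_cell (hB : Hyp B) (hl : ∀ i, 0 < lam i) (q : ℕ) (z : Finset (Ray m g) → ℚ)
    {ρ : Finset (Ray m g)} (hρ : Good ρ) :
    asmWt B lam q z (cell B lam ρ) =
      z ρ * asmIdx q (vectorSpan ℝ (cell B lam ρ)) (nbar B ρ) := by
  have h : ∃ σ, Good σ ∧ cell B lam ρ = cell B lam σ := ⟨ρ, hρ, rfl⟩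
  rw [asmWt, dif_pos h, ← asm_cell_inj hB hl hρ h.choose_spec.1 h.choose_spec.2]

lemma asm_vertex (hl : ∀ i, 0 < lam i) {ρ : Finset (Ray m g)} {c : Fin (m + 1) → Ray m g}
    (hc : ∀ i, c i ∈ ρ ∧ (c i).lab = i) :
    ∑ i, lam i • zv (B i *ᵥ (c i).pos) ∈ cell B lam ρ := by
  classical
  refine ⟨fun r => if r = c r.lab then lam r.lab else 0, fun r _ => ?_, fun i => ?_, ?_⟩
  · dsimp only
    split_ifs
    · exact (hl _).le
    · exact le_rfl
  · rw [sum_eq_single (c i)]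
    · simp [(hc i).2]
    · intro r hr hne
      rw [(mem_filter.1 hr).2, if_neg hne]
    · intro h
      exact absurd (mem_filter.2 ⟨(hc i).1, (hc i).2⟩) h
  · rw [← sum_fiberwise ρ (fun r => r.lab)]
    refine sum_congr rfl fun i _ => ?_
    rw [sum_eq_single (c i)]
    · simp [(hc i).2]
    · intro r hr hne
      beta_reduce
      rw [(mem_filter.1 hr).2, if_neg hne, zero_smul]
    · intro h
      exact absurd (mem_filter.2 ⟨(hc i).1, (hc i).2⟩) h

/-- The edge vector from the base ray with the label of `s` to `s`. -/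
def asmE (B : Mats m g) (bs : Fin (m + 1) → Ray m g) (s : Ray m g) : Fin g → ℤ :=
  B s.lab *ᵥ (s.pos - (bs s.lab).pos)

lemma asmE_mem (hl : ∀ i, 0 < lam i) {ρ : Finset (Ray m g)} (hρ : Good ρ)
    {bs : Fin (m + 1) → Ray m g} (hbs : ∀ i, bs i ∈ ρ ∧ (bs i).lab = i) {r : Ray m g}
    (hr : r ∈ ρ) : zv (asmE B bs r) ∈ vectorSpan ℝ (cell B lam ρ) := by
  rw [vectorSpan_cell hρ hl]
  exact Submodule.subset_span ⟨_, ⟨r, hr, bs r.lab, (hbs _).1, (hbs _).2.symm, rfl⟩, rfl⟩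

lemma asm_span_insert (hl : ∀ i, 0 < lam i) {τ : Finset (Ray m g)} (hτ : Good τ)
    {bs : Fin (m + 1) → Ray m g} (hbs : ∀ i, bs i ∈ τ ∧ (bs i).lab = i) {s : Ray m g}
    (hs : s ∈ link τ) :
    vectorSpan ℝ (cell B lam (insert s τ)) =
      vectorSpan ℝ (cell B lam τ) ⊔ Submodule.span ℝ {zv (asmE B bs s)} := by
  apply le_antisymm
  · have key : ∀ r ∈ insert s τ, zv (asmE B bs r) ∈
        vectorSpan ℝ (cell B lam τ) ⊔ Submodule.span ℝ {zv (asmE B bs s)} := by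
      intro r hr
      rcases mem_insert.1 hr with rfl | hr
      · exact Submodule.mem_sup_right (Submodule.mem_span_singleton_self _)
      · exact Submodule.mem_sup_left (asmE_mem hl hτ hbs hr)
    rw [vectorSpan_cell (hτ.insert hs) hl, Submodule.span_le]
    rintro _ ⟨_, ⟨r, hr, r', hr', hlab, rfl⟩, rfl⟩
    have : B r.lab *ᵥ (r.pos - r'.pos) = asmE B bs r - asmE B bs r' := by
      rw [asmE, asmE, ← hlab, ← mulVec_sub]
      congr 1
      abel
    rw [this, asm_zv_sub]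
    exact Submodule.sub_mem _ (key r hr) (key r' hr')
  · refine sup_le ?_ ?_
    · rw [vectorSpan_cell (hτ.insert hs) hl, vectorSpan_cell hτ hl]
      refine Submodule.span_mono (Set.image_mono ?_)
      rintro _ ⟨r, hr, r', hr', hlab, rfl⟩
      exact ⟨r, mem_insert_of_mem hr, r', mem_insert_of_mem hr', hlab, rfl⟩
    · rw [Submodule.span_singleton_le_iff_mem]
      exact asmE_mem hl (hτ.insert hs) (fun i => ⟨mem_insert_of_mem (hbs i).1, (hbs i).2⟩)
        (mem_insert_self _ _)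

lemma asm_not_mem (hB : Hyp B) (hl : ∀ i, 0 < lam i) {τ : Finset (Ray m g)} (hτ : Good τ)
    {bs : Fin (m + 1) → Ray m g} (hbs : ∀ i, bs i ∈ τ ∧ (bs i).lab = i) {s : Ray m g}
    (hs : s ∈ link τ) : zv (asmE B bs s) ∉ vectorSpan ℝ (cell B lam τ) := by
  intro h
  have h1 := asm_span_insert (B := B) hl hτ hbs hs
  rw [sup_eq_left.2 ((Submodule.span_singleton_le_iff_mem _ _).2 h)] at h1
  have h2 := dim_cell hB hτ hl
  have h3 := dim_cell hB (hτ.insert hs) hl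
  rw [card_insert_of_notMem ((mem_link hτ.nonempty).1 hs).2, dim, h1] at h3
  rw [dim] at h2
  omega

lemma asm_normal (hB : Hyp B) (hl : ∀ i, 0 < lam i) {τ : Finset (Ray m g)} (hτ : Good τ)
    {bs : Fin (m + 1) → Ray m g} (hbs : ∀ i, bs i ∈ τ ∧ (bs i).lab = i) {s : Ray m g}
    (hs : s ∈ link τ) {k : ℕ} {b : Fin k → Fin g → ℤ}
    (hb : IsLatBasis (vectorSpan ℝ (cell B lam τ)) b) {c : ℚ}
    (hc : nbar B τ = c • ιMulti ℚ k fun l => qv (b l)) (z : Finset (Ray m g) → ℚ) :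
    ∃ n, IsNormal (cell B lam τ) (cell B lam (insert s τ)) n ∧
      (asmWt B lam (k + 1) z (cell B lam (insert s τ)) : ℝ) • zv n -
        ((|c| * z (insert s τ) : ℚ) : ℝ) • zv (asmE B bs s) ∈ vectorSpan ℝ (cell B lam τ) := by
  obtain ⟨n, a, ha, hmem, hbas⟩ := exists_normal hb (asm_not_mem hB hl hτ hbs hs)
  rw [← asm_span_insert hl hτ hbs hs] at hbas
  have hmem' := hmem
  rw [asm_zv_sub, asm_zv_smul] at hmem'
  have ha' : (0 : ℝ) < a := by exact_mod_cast ha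
  refine ⟨n, ⟨?_, ?_⟩, ?_⟩
  · have hy : ∀ i, Function.update bs s.lab s i ∈ insert s τ ∧
        (Function.update bs s.lab s i).lab = i := by
      intro i
      by_cases hi : i = s.lab
      · subst hi; simp
      · rw [Function.update_of_ne hi]
        exact ⟨mem_insert_of_mem (hbs i).1, (hbs i).2⟩
    refine ⟨_, asm_vertex hl hbs, _, asm_vertex hl hy, 1 / (a * lam s.lab),
      one_div_pos.2 (mul_pos ha' (hl _)), ?_⟩
    have e1 : ∑ i, lam i • zv (B i *ᵥ (Function.update bs s.lab s i).pos) -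
        ∑ i, lam i • zv (B i *ᵥ (bs i).pos) = lam s.lab • zv (asmE B bs s) := by
      rw [← sum_sub_distrib, sum_eq_single s.lab]
      · rw [Function.update_self, asmE, mulVec_sub, asm_zv_sub, smul_sub]
      · intro i _ hi
        rw [Function.update_of_ne hi, sub_self]
      · simp
    have e2 : zv n - (1 / (a * lam s.lab)) • lam s.lab • zv (asmE B bs s) =
        (-(1 / a) : ℝ) • (zv (asmE B bs s) - (a : ℝ) • zv n) := by
      have h1 := (hl s.lab).ne'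
      have h2 := ha'.ne'
      have f1 : 1 / (a * lam s.lab) * lam s.lab = 1 / a := by field_simp
      have f2 : (-(1 / a) : ℝ) * a = -1 := by field_simp
      rw [smul_smul, smul_sub, smul_smul, f1, f2, neg_smul, neg_smul, one_smul]
      abel
    rw [e1, e2]
    exact Submodule.smul_mem _ _ hmem'
  · intro v hv
    have h1 := hbas.2.2 v hv
    rw [Fin.range_cons, Submodule.mem_span_insert] at h1
    obtain ⟨a', w, hw, rfl⟩ := h1
    refine ⟨a', ?_⟩
    rw [asm_zv_add, asm_zv_smul, add_sub_cancel_left]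
    exact asm_zv_mem hb hw
  · have hsτ : s ∉ τ := ((mem_link hτ.nonempty).1 hs).2
    have h1 := nbar_insert B (hbs s.lab).1 hsτ (hbs s.lab).2
    have h2 : qv (asmE B bs s) = qv (asmE B bs s - a • n) + (a : ℚ) • qv n := by
      ext i; simp [qv]
    have h3 : ιMulti ℚ (k + 1) (fun l => qv ((Fin.cons n b : Fin (k + 1) → Fin g → ℤ) l)) =
        ι ℚ (qv n) * ιMulti ℚ k fun l => qv (b l) := by
      rw [ιMulti_succ_apply]
      rfl
    have h4 : nbar B (insert s τ) = (sg s τ * (-1) ^ (m + 1) * (c * a)) •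
        ιMulti ℚ (k + 1) (fun l => qv ((Fin.cons n b : Fin (k + 1) → Fin g → ℤ) l)) := by
      rw [h1, h3, hc]
      change _ • (ι ℚ (qv (asmE B bs s)) * _) = _
      rw [h2, map_add, map_smul, mul_smul_comm, add_mul, latBasis_ι_mul hb hmem, zero_add,
        smul_mul_assoc, smul_smul, smul_smul, mul_assoc (sg s τ * (-1) ^ (m + 1))]
    have h5 : |sg s τ * (-1) ^ (m + 1) * (c * a)| = |c| * a := by
      have h6 : (0 : ℚ) < a := by exact_mod_cast ha
      rw [abs_mul, abs_mul, abs_mul, sg, abs_pow, abs_pow, abs_neg, abs_one, one_pow, one_pow,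
        abs_of_pos h6, one_mul, one_mul]
    rw [asmWt_cell hB hl _ _ (hτ.insert hs), asmIdx_eq hbas h4, h5]
    have e : ((z (insert s τ) * (|c| * a) : ℚ) : ℝ) • zv n -
        ((|c| * z (insert s τ) : ℚ) : ℝ) • zv (asmE B bs s) =
        (-((|c| * z (insert s τ) : ℚ) : ℝ)) • (zv (asmE B bs s) - (a : ℝ) • zv n) := by
      ext i
      simp only [Pi.sub_apply, Pi.smul_apply, smul_eq_mul]
      push_cast
      ring
    rw [e]
    exact Submodule.smul_mem _ _ hmem'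

lemma asm_balance (hl : ∀ i, 0 < lam i) {τ : Finset (Ray m g)} (hτ : Good τ)
    {bs : Fin (m + 1) → Ray m g} (hbs : ∀ i, bs i ∈ τ ∧ (bs i).lab = i)
    (w : Ray m g → ℚ)
    (hw : ∀ ℓ : Module.Dual ℚ (Nv m g), (∀ r ∈ τ, ℓ (vec B r) = 0) →
      ∑ s ∈ link τ, ℓ (vec B s) * w s = 0) :
    ∑ s ∈ link τ, (w s : ℝ) • zv (asmE B bs s) ∈ vectorSpan ℝ (cell B lam τ) := by
  let ψ : Nv m g →ₗ[ℚ] (Fin g → ℝ) :=
    (Algebra.linearMap ℚ ℝ).compLeft (Fin g) ∘ₗ LinearMap.snd ℚ _ _ -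
      ∑ i, (dl i).smulRight (zv (B i *ᵥ (bs i).pos))
  have hψ : ∀ r, ψ (vec B r) = zv (asmE B bs r) := by
    intro r
    simp only [ψ, LinearMap.sub_apply, LinearMap.sum_apply, LinearMap.smulRight_apply, dl_vec]
    rw [sum_eq_single r.lab, if_pos rfl, one_smul, asmE, mulVec_sub, asm_zv_sub]
    · congr 1
    · intro i _ hi
      rw [if_neg hi.symm, zero_smul]
    · simp
  have hy : ∑ s ∈ link τ, w s • vec B s ∈ Submodule.span ℚ (vec B '' (τ : Set _)) := by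
    rw [← Subspace.forall_mem_dualAnnihilator_apply_eq_zero_iff]
    intro φ hφ
    rw [Submodule.mem_dualAnnihilator] at hφ
    rw [map_sum, ← hw φ fun r hr => hφ _ (Submodule.subset_span ⟨r, hr, rfl⟩)]
    exact sum_congr rfl fun s _ => by rw [map_smul, smul_eq_mul, mul_comm]
  have hle : Submodule.span ℚ (vec B '' (τ : Set _)) ≤
      ((vectorSpan ℝ (cell B lam τ)).restrictScalars ℚ).comap ψ := by
    rw [Submodule.span_le]
    rintro _ ⟨r, hr, rfl⟩
    change ψ (vec B r) ∈ vectorSpan ℝ (cell B lam τ)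
    rw [hψ]
    exact asmE_mem hl hτ hbs hr
  have h2 : ψ (∑ s ∈ link τ, w s • vec B s) ∈ vectorSpan ℝ (cell B lam τ) := hle hy
  rw [map_sum] at h2
  simpa only [map_smul, hψ, Rat.cast_smul_eq_qsmul] using h2

lemma asm_basis (hB : Hyp B) (hl : ∀ i, 0 < lam i) {ρ : Finset (Ray m g)} (hρ : Good ρ) {k : ℕ}
    (hc : ρ.card = m + 1 + k) :
    ∃ b : Fin k → Fin g → ℤ, IsLatBasis (vectorSpan ℝ (cell B lam ρ)) b := by
  refine exists_latBasis _ (vectorSpan_cell hρ hl) ?_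
  have := dim_cell hB hρ hl
  rw [dim] at this
  omega

lemma asm_balanced (hB : Hyp B) (hl : ∀ i, 0 < lam i) (z : Finset (Ray m g) → ℚ)
    {τ : Finset (Ray m g)} (hτ : Good τ)
    (hz : ∀ ℓ : Module.Dual ℚ (Nv m g), (∀ r ∈ τ, ℓ (vec B r) = 0) →
      ∑ s ∈ link τ, ℓ (vec B s) * z (insert s τ) = 0) {k : ℕ} (hk : dim (cell B lam τ) = k) :
    ∃ (S : Finset (Set (Fin g → ℝ))) (n : Set (Fin g → ℝ) → Fin g → ℤ),
      (∀ P, P ∈ S ↔ (∃ ρ, Good ρ ∧ P = cell B lam ρ) ∧ dim P = k + 1 ∧ cell B lam τ ⊆ P) ∧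
      (∀ P ∈ S, IsNormal (cell B lam τ) P (n P)) ∧
      ∑ P ∈ S, (asmWt B lam (k + 1) z P : ℝ) • zv (n P) ∈ vectorSpan ℝ (cell B lam τ) := by
  classical
  have hcard : τ.card = m + 1 + k := by
    have := dim_cell hB hτ hl
    omega
  choose bs hbs using hτ.2
  obtain ⟨b, hb⟩ := asm_basis hB hl hτ hcard
  obtain ⟨c, -, hc, -⟩ := latVol_cell hτ hl hcard (asm_vertex hl hbs) hb
  have hinj : ∀ s ∈ link τ, ∀ s' ∈ link τ,
      cell B lam (insert s τ) = cell B lam (insert s' τ) → s = s' := by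
    intro s hs s' hs' h
    have h1 := asm_cell_inj hB hl (hτ.insert hs) (hτ.insert hs') h
    have h2 : s ∈ insert s' τ := h1 ▸ mem_insert_self s τ
    exact (mem_insert.1 h2).resolve_right ((mem_link hτ.nonempty).1 hs).2
  have hn : ∀ P : Set (Fin g → ℝ), ∃ n : Fin g → ℤ, ∀ s ∈ link τ, P = cell B lam (insert s τ) →
      IsNormal (cell B lam τ) (cell B lam (insert s τ)) n ∧
      (asmWt B lam (k + 1) z (cell B lam (insert s τ)) : ℝ) • zv n -
        ((|c| * z (insert s τ) : ℚ) : ℝ) • zv (asmE B bs s) ∈ vectorSpan ℝ (cell B lam τ) := by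
    intro P
    by_cases h : ∃ s ∈ link τ, P = cell B lam (insert s τ)
    · obtain ⟨s, hs, rfl⟩ := h
      obtain ⟨n, hn⟩ := asm_normal hB hl hτ hbs hs hb hc z
      refine ⟨n, fun s' hs' h => ?_⟩
      rw [← hinj s hs s' hs' h]
      exact hn
    · exact ⟨0, fun s hs h' => absurd ⟨s, hs, h'⟩ h⟩
  choose n hn using hn
  refine ⟨(link τ).image fun s => cell B lam (insert s τ), n, fun P => ⟨fun hP => ?_, ?_⟩,
    fun P hP => ?_, ?_⟩
  · obtain ⟨s, hs, rfl⟩ := mem_image.1 hP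
    refine ⟨⟨_, hτ.insert hs, rfl⟩, ?_,
      (cell_subset_iff hB hl hτ (hτ.insert hs).1).2 (subset_insert _ _)⟩
    have := dim_cell hB (hτ.insert hs) hl
    rw [card_insert_of_notMem ((mem_link hτ.nonempty).1 hs).2] at this
    omega
  · rintro ⟨⟨ρ, hρ, rfl⟩, hd, hsub⟩
    have h1 := (cell_subset_iff hB hl hτ hρ.1).1 hsub
    have h2 := dim_cell hB hρ hl
    obtain ⟨s, hs, rfl⟩ := exists_eq_insert_iff.2 ⟨h1, by omega⟩
    exact mem_image.2 ⟨s, (mem_link hτ.nonempty).2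
      ⟨fun r hr => hρ.1 s (mem_insert_self _ _) r (mem_insert_of_mem hr), hs⟩, rfl⟩
  · obtain ⟨s, hs, rfl⟩ := mem_image.1 hP
    exact (hn _ s hs rfl).1
  · rw [sum_image fun s hs s' hs' h => hinj s hs s' hs' h]
    have h1 := Submodule.sum_mem _ fun s hs => (hn _ s hs rfl).2
    have h2 := Submodule.smul_mem _ ((|c| : ℚ) : ℝ)
      (asm_balance hl hτ hbs (fun s => z (insert s τ)) hz)
    have h3 := Submodule.add_mem _ h1 h2
    rw [sum_sub_distrib, smul_sum] at h3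
    simpa only [smul_smul, Rat.cast_mul, sub_add_cancel] using h3

lemma asm_fund {ρ : Finset (Ray m g)} (hρ : Good ρ) :
    shift (-base ρ) ρ ∈ fund m g ρ.card :=
  mem_fund.2 ⟨good_shift.2 hρ, by rw [base_shift _ hρ.nonempty, add_neg_cancel], card_shift _ _⟩

lemma asm_unshift (ρ : Finset (Ray m g)) :
    cell B lam ρ = ((∑ i, lam i • (B i).map (Int.cast : ℤ → ℝ)) *ᵥ zv (base ρ)) +ᵥ
      cell B lam (shift (-base ρ) ρ) := by
  rw [cell_shift, shift_shift, neg_add_cancel, shift_zero]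

lemma asm_minor {q : ℕ} (b : Fin q → Fin g → ℤ) (I : Fin q → Fin g) :
    thJ I (ιMulti ℚ q fun l => qv (b l)) = (minor b I : ℚ) := by
  rw [thJ_ιMulti, minor, Int.cast_det]
  rfl

/-- The tropical cycle with the weights `asmWt`. -/
noncomputable def asmCycle (q : ℕ) (hB : Hyp B) (hl : ∀ i, 0 < lam i)
    (z : Finset (Ray m g) → ℚ) (hz1 : ∀ γ ρ, Good ρ → z (shift γ ρ) = z ρ)
    (hz2 : ∀ ρ, Good ρ → ∀ ℓ : Module.Dual ℚ (Nv m g), (∀ r ∈ ρ, ℓ (vec B r) = 0) →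
      ∑ s ∈ link ρ, ℓ (vec B s) * z (insert s ρ) = 0) :
    TropCycle (∑ i, lam i • (B i).map (Int.cast : ℤ → ℝ)) q where
  cells := {P | ∃ ρ, Good ρ ∧ P = cell B lam ρ}
  weight := asmWt B lam q z
  polytope := by
    rintro _ ⟨ρ, hρ, rfl⟩
    exact cell_polytope hρ hl
  rational := by
    rintro _ ⟨ρ, hρ, rfl⟩
    exact ⟨_, vectorSpan_cell hρ hl⟩
  face_mem := by
    rintro _ ⟨ρ, hρ, rfl⟩ F hF hne
    obtain ⟨σ, -, hσ, rfl⟩ := cell_face hρ hl hF hne
    exact ⟨σ, hσ, rfl⟩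
  inter_face := by
    rintro _ ⟨ρ, hρ, rfl⟩ _ ⟨σ, hσ, rfl⟩
    rw [cell_inter hB hl hρ.1 hσ.1]
    exact cell_exposed hB hρ.1 inter_subset_left
  periodic := by
    rintro _ ⟨ρ, hρ, rfl⟩ γ
    refine ⟨⟨_, good_shift.2 hρ, cell_shift γ ρ⟩, ?_⟩
    rw [cell_shift, asmWt_cell hB hl _ _ (good_shift.2 hρ), asmWt_cell hB hl _ _ hρ,
      hz1 γ ρ hρ, nbar_shift, ← cell_shift, vectorSpan_vadd]
  finite := by
    classical
    refine ⟨(range (m + 1 + g + 1)).biUnion fun n => (fund m g n).image (cell B lam), ?_⟩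
    rintro _ ⟨ρ, hρ, rfl⟩
    refine ⟨_, mem_biUnion.2 ⟨ρ.card, ?_, mem_image_of_mem _ (asm_fund hρ)⟩, base ρ,
      asm_unshift ρ⟩
    have h1 := dim_cell hB hρ hl
    have h2 := Submodule.finrank_le (vectorSpan ℝ (cell B lam ρ))
    rw [Module.finrank_fin_fun] at h2
    rw [dim] at h1
    rw [mem_range]
    omega
  balanced := by
    rintro _ ⟨τ, hτ, rfl⟩ hq
    subst hq
    exact asm_balanced hB hl z hτ (hz2 τ hτ) rfl

theorem exists_cycle {q : ℕ} {B : Mats m g} (hB : Hyp B) {lam : Fin (m + 1) → ℝ}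
    (hl : ∀ i, 0 < lam i) (z : Finset (Ray m g) → ℚ)
    (hz1 : ∀ γ ρ, Good ρ → z (shift γ ρ) = z ρ)
    (hz2 : ∀ ρ, Good ρ → ∀ ℓ : Module.Dual ℚ (Nv m g), (∀ r ∈ ρ, ℓ (vec B r) = 0) →
      ∑ s ∈ link ρ, ℓ (vec B s) * z (insert s ρ) = 0) :
    ∃ Z : TropCycle (∑ i, lam i • (B i).map (Int.cast : ℤ → ℝ)) q,
      Z.HasClass fun I J => ∑ ρ ∈ fund m g (m + 1 + q),
        ((z ρ * thJ I (nbar B ρ) * thJ J (nbar B ρ) : ℚ) : ℝ) * vf lam (ρ.sort (· ≤ ·)) := by
  classical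
  refine ⟨asmCycle q hB hl z hz1 hz2, ?_⟩
  have hxb : ∀ P : Set (Fin g → ℝ), ∃ (x : Fin g → ℝ) (b : Fin q → Fin g → ℤ),
      P ∈ (fund m g (m + 1 + q)).image (cell B lam) →
        x ∈ P ∧ IsLatBasis (vectorSpan ℝ P) b := by
    intro P
    by_cases h : P ∈ (fund m g (m + 1 + q)).image (cell B lam)
    · obtain ⟨ρ, hρ, rfl⟩ := mem_image.1 h
      obtain ⟨hg, -, hc⟩ := mem_fund.1 hρ
      choose bs hbs using hg.2
      obtain ⟨b, hb⟩ := asm_basis hB hl hg hc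
      exact ⟨_, b, fun _ => ⟨asm_vertex hl hbs, hb⟩⟩
    · exact ⟨0, 0, fun h' => absurd h' h⟩
  choose x b hxb using hxb
  refine ⟨(fund m g (m + 1 + q)).image (cell B lam), x, b, fun P hP => ?_, ?_, fun I J => ?_⟩
  · obtain ⟨ρ, hρ, rfl⟩ := mem_image.1 hP
    obtain ⟨hg, -, hc⟩ := mem_fund.1 hρ
    have := dim_cell hB hg hl
    exact ⟨⟨ρ, hg, rfl⟩, by omega, hxb _ hP⟩
  · rintro _ ⟨ρ, hρ, rfl⟩ hd
    have h1 := dim_cell hB hρ hl
    have h2 : ρ.card = m + 1 + q := by omega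
    refine ⟨_, ⟨mem_image_of_mem _ (h2 ▸ asm_fund hρ), base ρ, asm_unshift ρ⟩, ?_⟩
    rintro Q ⟨hQ, γ, hγ⟩
    obtain ⟨σ, hσ, rfl⟩ := mem_image.1 hQ
    obtain ⟨hg, hb, -⟩ := mem_fund.1 hσ
    rw [cell_shift] at hγ
    rw [asm_cell_inj hB hl hρ (good_shift.2 hg) hγ, base_shift _ hg.nonempty, hb, zero_add,
      shift_shift, add_neg_cancel, shift_zero]
  · rw [sum_image fun ρ hρ σ hσ h => asm_cell_inj hB hl (mem_fund.1 hρ).1 (mem_fund.1 hσ).1 h]
    refine sum_congr rfl fun ρ hρ => ?_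
    obtain ⟨hg, -, hc⟩ := mem_fund.1 hρ
    obtain ⟨hx, hb⟩ := hxb _ (mem_image_of_mem _ hρ)
    obtain ⟨c, -, h1, h2⟩ := latVol_cell hg hl hc hx hb
    change (asmWt B lam q z (cell B lam ρ) : ℝ) * _ * _ * _ = _
    rw [asmWt_cell hB hl _ _ hg, asmIdx_eq hb h1, h2, h1, map_smul, map_smul, asm_minor,
      asm_minor]
    have h3 : |(c : ℝ)| * |(c : ℝ)| = c * c := abs_mul_abs_self _
    simp only [smul_eq_mul]
    push_cast
    linear_combination ((z ρ : ℝ) * vf lam (ρ.sort (· ≤ ·)) * minor (b (cell B lam ρ)) I *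
      minor (b (cell B lam ρ)) J) * h3

end H57T
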