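import Mathlib

/-! Exterior algebra of lists of vectors, contractions and alternating sums. -/

open ExteriorAlgebra Finset

namespace H57T

abbrev Ex (M : Type*) [AddCommGroup M] [Module ℚ M] := ExteriorAlgebra ℚ M

section alt
variable {α N : Type*} [AddCommGroup N]

/-- `alt L f = ∑ (-1)^l f (L l) (L with the l-th entry erased)`. -/
def alt : List α → (α → List α → N) → N
  | [], _ => 0
  | a :: L, f => f a L - alt L (fun b L' => f b (a :: L'))

@[simp] lemma alt_nil (f : α → List α → N) : alt [] f = 0 := rfl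

@[simp] lemma alt_cons (a : α) (L : List α) (f : α → List α → N) :
    alt (a :: L) f = f a L - alt L (fun b L' => f b (a :: L')) := rfl

lemma alt_congr {L : List α} {f f' : α → List α → N}
    (h : ∀ a ∈ L, ∀ L', L'.length + 1 = L.length → L'.Sublist L → (a :: L').Perm L →
      f a L' = f' a L') : alt L f = alt L f' := by
  induction L generalizing f f' with
  | nil => rfl
  | cons a L ih =>
    simp only [alt_cons]
    rw [h a (by simp) L (by simp) (List.sublist_cons_self a L) (List.Perm.refl _)]
    congr 1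
    apply ih
    intro b hb L' hl hs hp
    apply h b (by simp [hb]) (a :: L') (by simp [hl]) (hs.cons_cons a)
    exact (List.Perm.swap a b L').trans (hp.cons a)

@[simp] lemma alt_zero (L : List α) : alt L (fun _ _ => (0 : N)) = 0 := by
  induction L with
  | nil => rfl
  | cons a L ih => simp [ih]

lemma alt_add (L : List α) (f f' : α → List α → N) :
    alt L (fun a L' => f a L' + f' a L') = alt L f + alt L f' := by
  induction L generalizing f f' with
  | nil => simp
  | cons a L ih => simp only [alt_cons]; rw [ih]; abel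

lemma map_alt {N' F : Type*} [AddCommGroup N'] [FunLike F N N'] [AddMonoidHomClass F N N']
    (φ : F) (L : List α) (f : α → List α → N) :
    φ (alt L f) = alt L (fun a L' => φ (f a L')) := by
  induction L generalizing f with
  | nil => simp
  | cons a L ih => simp only [alt_cons, map_sub]; rw [ih]

lemma alt_sum {β : Type*} (s : Finset β) (L : List α) (f : β → α → List α → N) :
    alt L (fun a L' => ∑ b ∈ s, f b a L') = ∑ b ∈ s, alt L (f b) := by
  induction L generalizing f with
  | nil => simp
  | cons a L ih => simp only [alt_cons, sum_sub_distrib]; rw [ih]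

lemma alt_map {β : Type*} (h : β → α) (L : List β) (f : α → List α → N) :
    alt (L.map h) f = alt L (fun a L' => f (h a) (L'.map h)) := by
  induction L generalizing f with
  | nil => simp
  | cons a L ih => simp only [List.map_cons, alt_cons]; rw [ih]

lemma alt_append [Module ℚ N] (L₁ L₂ : List α) (f : α → List α → N) :
    alt (L₁ ++ L₂) f = alt L₁ (fun a L' => f a (L' ++ L₂)) +
      (-1 : ℚ) ^ L₁.length • alt L₂ (fun a L' => f a (L₁ ++ L')) := by
  induction L₁ generalizing f with
  | nil => simp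
  | cons a L ih =>
    simp only [List.cons_append, alt_cons, List.length_cons, pow_succ]
    rw [ih]
    simp only [mul_neg, mul_one, neg_smul]
    abel

lemma alt_ofFn [Module ℚ N] {n : ℕ} (c : Fin (n + 1) → α) (f : α → List α → N) :
    alt (List.ofFn c) f =
      ∑ l : Fin (n + 1), (-1 : ℚ) ^ (l : ℕ) • f (c l) (List.ofFn (c ∘ l.succAbove)) := by
  induction n generalizing f with
  | zero => simp
  | succ n ih =>
    rw [List.ofFn_succ, alt_cons, ih, Fin.sum_univ_succ (n := n + 1)]
    simp only [Fin.val_zero, pow_zero, one_smul, Fin.val_succ, pow_succ, mul_neg, mul_one,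
      neg_smul, sum_neg_distrib, Fin.succAbove_zero]
    rw [sub_eq_add_neg]
    congr 2
    refine sum_congr rfl fun l _ => ?_
    congr 2
    rw [List.ofFn_succ]
    simp [Function.comp_def]

variable {κ : Type*} [LinearOrder κ]

/-- The sign of the position of `s` relative to `ρ`. -/
def sg (s : κ) (ρ : Finset κ) : ℚ := (-1) ^ (ρ.filter (· < s)).card

lemma sg_mul_self (s : κ) (ρ : Finset κ) : sg s ρ * sg s ρ = 1 := by
  unfold sg; rw [← mul_pow]; simp

lemma sg_insert_self (s : κ) (ρ : Finset κ) : sg s (insert s ρ) = sg s ρ := by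
  unfold sg; rw [filter_insert]; simp

lemma sg_erase_self (s : κ) (ρ : Finset κ) : sg s (ρ.erase s) = sg s ρ := by
  unfold sg; rw [filter_erase, erase_eq_of_notMem]; simp

lemma sort_insert_min {a : κ} {ρ : Finset κ} (h : ∀ b ∈ ρ, a < b) :
    (insert a ρ).sort (· ≤ ·) = a :: ρ.sort (· ≤ ·) :=
  Finset.sort_insert _ (fun b hb => (h b hb).le) (fun ha => lt_irrefl _ (h a ha))

lemma alt_sort [Module ℚ N] (ρ : Finset κ) (f : κ → List κ → N) :
    alt (ρ.sort (· ≤ ·)) f = ∑ r ∈ ρ, sg r ρ • f r ((ρ.erase r).sort (· ≤ ·)) := by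
  induction ρ using Finset.induction_on_min generalizing f with
  | empty => simp
  | insert a ρ h ih =>
    have ha : a ∉ ρ := fun ha => lt_irrefl _ (h a ha)
    rw [sort_insert_min h, alt_cons, ih, sum_insert ha, erase_insert ha, sub_eq_add_neg,
      ← sum_neg_distrib]
    congr 1
    · have : sg a (insert a ρ) = 1 := by
        unfold sg
        rw [filter_false_of_mem, card_empty, pow_zero]
        intro b hb
        rcases mem_insert.1 hb with rfl | hb
        · exact lt_irrefl _
        · exact (h b hb).le.not_gt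
      rw [this, one_smul]
    · refine sum_congr rfl fun r hr => ?_
      have h1 : sg r (insert a ρ) = -sg r ρ := by
        unfold sg
        rw [filter_insert, if_pos (h r hr), card_insert_of_notMem (by simp [ha]), pow_succ]
        ring
      have h2 : (insert a ρ).erase r = insert a (ρ.erase r) :=
        erase_insert_of_ne (h r hr).ne
      rw [h1, h2, sort_insert_min (fun b hb => h b (mem_of_mem_erase hb)), neg_smul]

end alt

variable {M M' : Type*} [AddCommGroup M] [Module ℚ M] [AddCommGroup M'] [Module ℚ M']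

/-- Contraction with a linear form. -/
noncomputable def ctr (φ : Module.Dual ℚ M) : Ex M →ₗ[ℚ] Ex M :=
  CliffordAlgebra.contractLeft (Q := (0 : QuadraticForm ℚ M)) φ

lemma ctr_ι_mul (φ : Module.Dual ℚ M) (a : M) (x : Ex M) :
    ctr φ (ι ℚ a * x) = φ a • x - ι ℚ a * ctr φ x :=
  CliffordAlgebra.contractLeft_ι_mul φ a x

@[simp] lemma ctr_one (φ : Module.Dual ℚ M) : ctr φ (1 : Ex M) = 0 :=
  CliffordAlgebra.contractLeft_one _ φ

@[simp] lemma ctr_ctr (φ : Module.Dual ℚ M) (x : Ex M) : ctr φ (ctr φ x) = 0 :=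
  CliffordAlgebra.contractLeft_contractLeft φ x

lemma ctr_comm (φ ψ : Module.Dual ℚ M) (x : Ex M) : ctr φ (ctr ψ x) = -ctr ψ (ctr φ x) :=
  CliffordAlgebra.contractLeft_comm φ ψ x

lemma ctr_add (φ ψ : Module.Dual ℚ M) (x : Ex M) : ctr (φ + ψ) x = ctr φ x + ctr ψ x := by
  unfold ctr; rw [map_add]; rfl

lemma ctr_smul (c : ℚ) (φ : Module.Dual ℚ M) (x : Ex M) : ctr (c • φ) x = c • ctr φ x := by
  unfold ctr; rw [map_smul]; rfl

lemma ctr_sum {β : Type*} (s : Finset β) (φ : β → Module.Dual ℚ M) (x : Ex M) :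
    ctr (∑ b ∈ s, φ b) x = ∑ b ∈ s, ctr (φ b) x := by
  unfold ctr; rw [map_sum, LinearMap.sum_apply]

lemma ι_mul_ι_mul_self (a : M) (x : Ex M) : ι ℚ a * (ι ℚ a * x) = 0 := by
  rw [← mul_assoc, ι_sq_zero, zero_mul]

lemma ι_mul_ι_mul_swap (a b : M) (x : Ex M) :
    ι ℚ a * (ι ℚ b * x) = -(ι ℚ b * (ι ℚ a * x)) := by
  rw [← mul_assoc, ← mul_assoc, ← neg_mul, eq_neg_of_add_eq_zero_left (ι_add_mul_swap a b)]

lemma map_ctr (f : M →ₗ[ℚ] M') (φ : Module.Dual ℚ M') (x : Ex M) :
    ExteriorAlgebra.map f (ctr (φ ∘ₗ f) x) = ctr φ (ExteriorAlgebra.map f x) := by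
  induction x using CliffordAlgebra.left_induction with
  | algebraMap r =>
    rw [Algebra.algebraMap_eq_smul_one]; simp
  | add x y hx hy => simp only [map_add, hx, hy]
  | ι_mul x a hx =>
    change ExteriorAlgebra.map f (ctr (φ ∘ₗ f) (ι ℚ a * x)) =
      ctr φ (ExteriorAlgebra.map f (ι ℚ a * x))
    rw [ctr_ι_mul, map_mul, map_apply_ι, ctr_ι_mul, map_sub, map_smul, map_mul, map_apply_ι, hx]
    rfl

/-- The wedge product of a list of vectors. -/
noncomputable def wl (L : List M) : Ex M := (L.map (ι ℚ)).prod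

@[simp] lemma wl_nil : wl ([] : List M) = 1 := rfl

@[simp] lemma wl_cons (a : M) (L : List M) : wl (a :: L) = ι ℚ a * wl L := by simp [wl]

lemma wl_append (L L' : List M) : wl (L ++ L') = wl L * wl L' := by simp [wl]

lemma wl_ofFn {n : ℕ} (v : Fin n → M) : wl (List.ofFn v) = ιMulti ℚ n v := by
  rw [ιMulti_apply, wl, List.map_ofFn]; rfl

lemma map_wl (f : M →ₗ[ℚ] M') (L : List M) :
    ExteriorAlgebra.map f (wl L) = wl (L.map f) := by
  induction L with
  | nil => simp
  | cons a L ih => simp [ih]

lemma ctr_wl (φ : Module.Dual ℚ M) (L : List M) :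
    ctr φ (wl L) = alt L (fun a L' => φ a • wl L') := by
  induction L with
  | nil => simp
  | cons a L ih =>
    rw [wl_cons, ctr_ι_mul, ih, alt_cons]
    congr 1
    have := map_alt (LinearMap.mulLeft ℚ (ι ℚ a)) L (fun a L' => φ a • wl L')
    simpa using this

lemma ctr_wl_mul (φ : Module.Dual ℚ M) (L : List M) (x : Ex M) :
    ctr φ (wl L * x) = ctr φ (wl L) * x + (-1 : ℚ) ^ L.length • (wl L * ctr φ x) := by
  induction L with
  | nil => simp
  | cons a L ih =>
    rw [wl_cons, mul_assoc, ctr_ι_mul, ih, ctr_ι_mul]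
    simp only [List.length_cons, pow_succ, mul_neg, mul_one, neg_smul, mul_add, sub_mul,
      smul_mul_assoc, mul_smul_comm, mul_assoc]
    abel

lemma ctr_wl_eq_zero {φ : Module.Dual ℚ M} {L : List M} (h : ∀ a ∈ L, φ a = 0) :
    ctr φ (wl L) = 0 := by
  induction L with
  | nil => simp
  | cons a L ih =>
    rw [wl_cons, ctr_ι_mul, ih (fun b hb => h b (by simp [hb])), h a (by simp)]; simp

lemma ι_mul_wl_of_mem {a : M} {L : List M} (h : a ∈ L) : ι ℚ a * wl L = 0 := by
  induction L with
  | nil => simp at h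
  | cons b L ih =>
    rw [wl_cons]
    rcases List.mem_cons.1 h with rfl | h
    · exact ι_mul_ι_mul_self _ _
    · rw [ι_mul_ι_mul_swap, ih h]; simp

lemma wl_eq_zero_of_lt [FiniteDimensional ℚ M] {L : List M}
    (h : Module.finrank ℚ M < L.length) : wl L = 0 := by
  rw [← List.ofFn_get L, wl_ofFn]
  apply AlternatingMap.map_linearDependent
  intro hli
  have := hli.fintype_card_le_finrank
  simp at this
  omega

/-- In top degree a wedge product is its determinant times the wedge of a basis. -/
lemma ιMulti_eq_det {n : ℕ} (b : Module.Basis (Fin n) ℚ M) (v : Fin n → M) :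
    ιMulti ℚ n v = b.det v • ιMulti ℚ n b := by
  refine sub_eq_zero.1 ((Module.forall_dual_apply_eq_zero_iff ℚ _).1 fun ψ => ?_)
  have := AlternatingMap.eq_smul_basis_det b (ψ.compAlternatingMap (ιMulti ℚ n))
  have h2 := congrArg (fun F => F v) this
  simp only [LinearMap.compAlternatingMap_apply, AlternatingMap.smul_apply, smul_eq_mul] at h2
  rw [map_sub, map_smul, h2, smul_eq_mul, mul_comm, sub_self]

/-- A wedge of linear combinations is the determinant times the wedge. -/
lemma ιMulti_matrix {n : ℕ} (U : Matrix (Fin n) (Fin n) ℚ) (v : Fin n → M) :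
    ιMulti ℚ n (fun l => ∑ k, U l k • v k) = U.det • ιMulti ℚ n v := by
  have h := ιMulti_eq_det (Pi.basisFun ℚ (Fin n)) (fun l => U l)
  have h2 := congrArg (ExteriorAlgebra.map (Fintype.linearCombination ℚ v)) h
  rw [map_smul, map_apply_ιMulti, map_apply_ιMulti] at h2
  have e1 : (Fintype.linearCombination ℚ v) ∘ (fun l => U l) = fun l => ∑ k, U l k • v k := by
    funext l; simp [Fintype.linearCombination_apply]
  have e2 : (Fintype.linearCombination ℚ v) ∘ (Pi.basisFun ℚ (Fin n)) = v := by
    funext l; simp [Fintype.linearCombination_apply_single]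
  rw [e1, e2, Pi.basisFun_det_apply] at h2
  exact h2

section nu
variable {κ : Type*} [LinearOrder κ]

/-- The wedge product of the vectors `f r`, `r ∈ ρ`, in increasing order. -/
noncomputable def nu (f : κ → M) (ρ : Finset κ) : Ex M := wl ((ρ.sort (· ≤ ·)).map f)

@[simp] lemma nu_empty (f : κ → M) : nu f ∅ = 1 := by simp [nu]

lemma nu_insert_min (f : κ → M) {a : κ} {ρ : Finset κ} (h : ∀ b ∈ ρ, a < b) :
    nu f (insert a ρ) = ι ℚ (f a) * nu f ρ := by
  rw [nu, sort_insert_min h, List.map_cons, wl_cons, nu]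

lemma nu_insert (f : κ → M) {s : κ} {ρ : Finset κ} (hs : s ∉ ρ) :
    nu f (insert s ρ) = sg s ρ • (ι ℚ (f s) * nu f ρ) := by
  induction ρ using Finset.induction_on_min with
  | empty => rw [nu_insert_min f (by simp)]; simp [sg]
  | insert a ρ h ih =>
    have ha : a ∉ ρ := fun ha => lt_irrefl _ (h a ha)
    have hsa : s ≠ a := fun e => hs (by simp [e])
    have hsρ : s ∉ ρ := fun e => hs (by simp [e])
    rcases lt_or_gt_of_ne hsa with hlt | hlt
    · have hall : ∀ b ∈ insert a ρ, s < b := by
        intro b hb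
        rcases mem_insert.1 hb with rfl | hb
        · exact hlt
        · exact hlt.trans (h b hb)
      have : sg s (insert a ρ) = 1 := by
        unfold sg
        rw [filter_false_of_mem, card_empty, pow_zero]
        exact fun b hb => (hall b hb).le.not_gt
      rw [nu_insert_min f hall, this, one_smul]
    · have hall : ∀ b ∈ insert s ρ, a < b := by
        intro b hb
        rcases mem_insert.1 hb with rfl | hb
        · exact hlt
        · exact h b hb
      have h1 : sg s (insert a ρ) = -sg s ρ := by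
        unfold sg
        rw [filter_insert, if_pos hlt, card_insert_of_notMem (by simp [ha]), pow_succ]
        ring
      rw [Finset.insert_comm, nu_insert_min f hall, ih hsρ, nu_insert_min f h, h1,
        ι_mul_ι_mul_swap (f s)]
      simp

lemma ι_mul_nu_of_mem (f : κ → M) {s : κ} {ρ : Finset κ} (hs : s ∈ ρ) :
    ι ℚ (f s) * nu f ρ = 0 :=
  ι_mul_wl_of_mem (List.mem_map_of_mem (by simpa using hs))

lemma ctr_nu (φ : Module.Dual ℚ M) (f : κ → M) (ρ : Finset κ) :
    ctr φ (nu f ρ) = ∑ r ∈ ρ, (sg r ρ * φ (f r)) • nu f (ρ.erase r) := by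
  rw [nu, ctr_wl, alt_map, alt_sort]
  exact sum_congr rfl fun r _ => by rw [mul_smul]; rfl

lemma ctr_nu_eq_zero {φ : Module.Dual ℚ M} {f : κ → M} {ρ : Finset κ}
    (h : ∀ r ∈ ρ, φ (f r) = 0) : ctr φ (nu f ρ) = 0 := by
  rw [ctr_nu]; exact sum_eq_zero fun r hr => by rw [h r hr]; simp

lemma nu_ne_zero {f : κ → M} {ρ : Finset κ}
    (h : ∀ r ∈ ρ, ∃ φ : Module.Dual ℚ M, φ (f r) = 1 ∧ ∀ s ∈ ρ, s ≠ r → φ (f s) = 0) :
    nu f ρ ≠ 0 := by
  induction ρ using Finset.induction_on_min with
  | empty => simp
  | insert a ρ hlt ih =>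
    intro h0
    obtain ⟨φ, h1, h2⟩ := h a (by simp)
    have := congrArg (ctr φ) h0
    rw [nu_insert_min f hlt, ctr_ι_mul, h1,
      ctr_nu_eq_zero (fun r hr => h2 r (by simp [hr]) (hlt r hr).ne')] at this
    refine ih (fun r hr => ?_) (by simpa using this)
    obtain ⟨ψ, h3, h4⟩ := h r (by simp [hr])
    exact ⟨ψ, h3, fun s hs => h4 s (by simp [hs])⟩

end nu

end H57T
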