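import Pool.Agent.Lib.MP_e9c0f3_ag.H57T.Defs
import Pool.Agent.Lib.MP_e9c0f3_ag.H57T.Ext

/-! The periodic simplicial fan (staircase times Freudenthal triangulation). -/

open ExteriorAlgebra Finset Matrix

namespace H57T

/-- Rays: a label and a lattice point, with the lexicographic order. -/
def Ray (m g : ℕ) := Lex (Fin (m + 1) × Lex (Fin g → ℤ))

variable {m g : ℕ}

noncomputable instance : LinearOrder (Ray m g) :=
  inferInstanceAs (LinearOrder (Lex (Fin (m + 1) × Lex (Fin g → ℤ))))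

def mk (i : Fin (m + 1)) (v : Fin g → ℤ) : Ray m g := toLex (i, toLex v)

def Ray.lab (r : Ray m g) : Fin (m + 1) := (ofLex r).1

def Ray.pos (r : Ray m g) : Fin g → ℤ := ofLex (ofLex r).2

@[simp] lemma lab_mk (i : Fin (m + 1)) (v : Fin g → ℤ) : (mk i v).lab = i := rfl

@[simp] lemma pos_mk (i : Fin (m + 1)) (v : Fin g → ℤ) : (mk i v).pos = v := rfl

@[simp] lemma mk_lab_pos (r : Ray m g) : mk r.lab r.pos = r := rfl

lemma Ray.ext' {r s : Ray m g} (h1 : r.lab = s.lab) (h2 : r.pos = s.pos) : r = s := by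
  rw [← mk_lab_pos r, h1, h2, mk_lab_pos]

lemma Ray.le_iff {r s : Ray m g} :
    r ≤ s ↔ r.lab < s.lab ∨ r.lab = s.lab ∧ toLex r.pos ≤ toLex s.pos :=
  Prod.Lex.le_iff (x := r) (y := s)

/-- The product order on rays. -/
def ple (r s : Ray m g) : Prop := r.lab ≤ s.lab ∧ r.pos ≤ s.pos

lemma ple.le {r s : Ray m g} (h : ple r s) : r ≤ s := by
  rw [Ray.le_iff]
  rcases h.1.lt_or_eq with h1 | h1
  · exact Or.inl h1
  · exact Or.inr ⟨h1, Pi.toLex_monotone h.2⟩

lemma ple_refl (r : Ray m g) : ple r r := ⟨le_rfl, le_rfl⟩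

lemma ple.trans {r s t : Ray m g} (h : ple r s) (h' : ple s t) : ple r t :=
  ⟨h.1.trans h'.1, h.2.trans h'.2⟩

def Compat (r s : Ray m g) : Prop :=
  (ple r s ∨ ple s r) ∧ ∀ j, r.pos j ≤ s.pos j + 1 ∧ s.pos j ≤ r.pos j + 1

lemma Compat.symm {r s : Ray m g} (h : Compat r s) : Compat s r :=
  ⟨h.1.symm, fun j => (h.2 j).symm⟩

lemma compat_refl (r : Ray m g) : Compat r r := ⟨Or.inl (ple_refl r), fun j => by simp⟩

lemma Compat.ple_of_le {r s : Ray m g} (h : Compat r s) (hle : r ≤ s) : ple r s := by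
  rcases h.1 with h1 | h1
  · exact h1
  · rw [le_antisymm hle h1.le]; exact ple_refl s

lemma Compat.ple_of_lab_lt {r s : Ray m g} (h : Compat r s) (hlt : r.lab < s.lab) : ple r s :=
  h.ple_of_le (Ray.le_iff.2 (Or.inl hlt))

/-- A simplex of the fan. -/
def Simp (ρ : Finset (Ray m g)) : Prop := ∀ r ∈ ρ, ∀ s ∈ ρ, Compat r s

/-- An interior simplex: every label occurs. -/
def Good (ρ : Finset (Ray m g)) : Prop := Simp ρ ∧ ∀ i, ∃ r ∈ ρ, r.lab = i

lemma Simp.mono {ρ σ : Finset (Ray m g)} (h : Simp ρ) (hs : σ ⊆ ρ) : Simp σ :=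
  fun r hr s hs' => h r (hs hr) s (hs hs')

lemma Good.nonempty {ρ : Finset (Ray m g)} (h : Good ρ) : ρ.Nonempty := by
  obtain ⟨r, hr, -⟩ := h.2 0
  exact ⟨r, hr⟩

open Classical in
noncomputable def star (ρ : Finset (Ray m g)) : Finset (Ray m g) :=
  if h : ρ.Nonempty then
    (((univ : Finset (Fin (m + 1))) ×ˢ Finset.Icc ((ρ.min' h).pos - 1) ((ρ.min' h).pos + 1)).image
      fun x => mk x.1 x.2).filter fun s => ∀ r ∈ ρ, Compat s r
  else ∅

lemma mem_star {ρ : Finset (Ray m g)} (h : ρ.Nonempty) {s : Ray m g} :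
    s ∈ star ρ ↔ ∀ r ∈ ρ, Compat s r := by
  classical
  unfold star
  rw [dif_pos h, mem_filter]
  refine ⟨fun h => h.2, fun hs => ⟨?_, hs⟩⟩
  refine mem_image.2 ⟨(s.lab, s.pos), ?_, rfl⟩
  have := (hs _ (ρ.min'_mem h)).2
  simp only [mem_product, mem_univ, true_and, Finset.mem_Icc]
  exact ⟨fun j => by have := (this j).2; simp; omega, fun j => by have := (this j).1; simpa⟩

noncomputable def link (ρ : Finset (Ray m g)) : Finset (Ray m g) := star ρ \ ρ

lemma mem_link {ρ : Finset (Ray m g)} (h : ρ.Nonempty) {s : Ray m g} :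
    s ∈ link ρ ↔ (∀ r ∈ ρ, Compat s r) ∧ s ∉ ρ := by
  rw [link, mem_sdiff, mem_star h]

lemma Simp.subset_star {ρ : Finset (Ray m g)} (h : Simp ρ) : ρ ⊆ star ρ :=
  fun s hs => (mem_star ⟨s, hs⟩).2 (h s hs)

lemma Simp.insert {ρ : Finset (Ray m g)} (h : Simp ρ) {s : Ray m g}
    (hs : ∀ r ∈ ρ, Compat s r) : Simp (insert s ρ) := by
  intro a ha b hb
  rcases mem_insert.1 ha with ha | ha <;> rcases mem_insert.1 hb with hb | hb
  · rw [ha, hb]; exact compat_refl _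
  · rw [ha]; exact hs b hb
  · rw [hb]; exact (hs a ha).symm
  · exact h a ha b hb

lemma Good.insert {ρ : Finset (Ray m g)} (h : Good ρ) {s : Ray m g} (hs : s ∈ link ρ) :
    Good (insert s ρ) :=
  ⟨h.1.insert ((mem_link h.nonempty).1 hs).1, fun i => by
    obtain ⟨r, hr, hi⟩ := h.2 i
    exact ⟨r, mem_insert_of_mem hr, hi⟩⟩

/-- Translation of rays. -/
def sh (γ : Fin g → ℤ) (r : Ray m g) : Ray m g := mk r.lab (r.pos + γ)

@[simp] lemma lab_sh (γ : Fin g → ℤ) (r : Ray m g) : (sh γ r).lab = r.lab := rfl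

@[simp] lemma pos_sh (γ : Fin g → ℤ) (r : Ray m g) : (sh γ r).pos = r.pos + γ := rfl

lemma sh_sh (γ δ : Fin g → ℤ) (r : Ray m g) : sh γ (sh δ r) = sh (δ + γ) r := by
  simp [sh, add_assoc]

@[simp] lemma sh_zero (r : Ray m g) : sh 0 r = r := by simp [sh]

lemma sh_le_sh {γ : Fin g → ℤ} {r s : Ray m g} : sh γ r ≤ sh γ s ↔ r ≤ s := by
  simp only [Ray.le_iff, lab_sh, pos_sh, toLex_add, add_le_add_iff_right]

lemma sh_strictMono (γ : Fin g → ℤ) : StrictMono (sh γ : Ray m g → Ray m g) :=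
  strictMono_of_le_iff_le fun _ _ => sh_le_sh.symm

lemma sh_injective (γ : Fin g → ℤ) : Function.Injective (sh γ : Ray m g → Ray m g) :=
  (sh_strictMono γ).injective

lemma compat_sh {γ : Fin g → ℤ} {r s : Ray m g} : Compat (sh γ r) (sh γ s) ↔ Compat r s := by
  simp only [Compat, ple, lab_sh, pos_sh, add_le_add_iff_right, Pi.add_apply]
  refine and_congr Iff.rfl (forall_congr' fun j => ?_)
  omega

def shift (γ : Fin g → ℤ) (ρ : Finset (Ray m g)) : Finset (Ray m g) :=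
  ρ.map ⟨sh γ, sh_injective γ⟩

lemma mem_shift {γ : Fin g → ℤ} {ρ : Finset (Ray m g)} {s : Ray m g} :
    s ∈ shift γ ρ ↔ sh (-γ) s ∈ ρ := by
  simp only [shift, mem_map, Function.Embedding.coeFn_mk]
  constructor
  · rintro ⟨r, hr, rfl⟩; simpa [sh_sh] using hr
  · intro h; exact ⟨_, h, by simp [sh_sh]⟩

lemma sh_mem_shift {γ : Fin g → ℤ} {ρ : Finset (Ray m g)} {s : Ray m g} :
    sh γ s ∈ shift γ ρ ↔ s ∈ ρ := by simp [mem_shift, sh_sh]

lemma shift_shift (γ δ : Fin g → ℤ) (ρ : Finset (Ray m g)) :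
    shift γ (shift δ ρ) = shift (δ + γ) ρ := by
  ext s; simp [mem_shift, sh_sh, add_comm]

@[simp] lemma shift_zero (ρ : Finset (Ray m g)) : shift 0 ρ = ρ := by
  ext s; simp [mem_shift]

@[simp] lemma card_shift (γ : Fin g → ℤ) (ρ : Finset (Ray m g)) : (shift γ ρ).card = ρ.card :=
  card_map _

lemma sum_shift {N : Type*} [AddCommMonoid N] (γ : Fin g → ℤ) (ρ : Finset (Ray m g))
    (f : Ray m g → N) : ∑ r ∈ shift γ ρ, f r = ∑ r ∈ ρ, f (sh γ r) := sum_map _ _ _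

lemma shift_insert (γ : Fin g → ℤ) (s : Ray m g) (ρ : Finset (Ray m g)) :
    shift γ (insert s ρ) = insert (sh γ s) (shift γ ρ) := map_insert _ _ _

lemma shift_erase (γ : Fin g → ℤ) (s : Ray m g) (ρ : Finset (Ray m g)) :
    shift γ (ρ.erase s) = (shift γ ρ).erase (sh γ s) := map_erase _ _ _

lemma sort_shift (γ : Fin g → ℤ) (ρ : Finset (Ray m g)) :
    (shift γ ρ).sort (· ≤ ·) = (ρ.sort (· ≤ ·)).map (sh γ) :=
  (StrictMonoOn.map_finsetSort ⟨sh γ, sh_injective γ⟩ ρ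
    ((sh_strictMono γ).strictMonoOn _)).symm

lemma sg_shift (γ : Fin g → ℤ) (s : Ray m g) (ρ : Finset (Ray m g)) :
    sg (sh γ s) (shift γ ρ) = sg s ρ := by
  unfold sg shift
  rw [filter_map, card_map]
  congr 2
  ext r
  simp [(sh_strictMono γ).lt_iff_lt]

lemma simp_shift {γ : Fin g → ℤ} {ρ : Finset (Ray m g)} : Simp (shift γ ρ) ↔ Simp ρ := by
  constructor
  · intro h r hr s hs
    exact compat_sh.1 (h _ (sh_mem_shift.2 hr) _ (sh_mem_shift.2 hs))
  · intro h r hr s hs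
    exact compat_sh.1 (h _ (mem_shift.1 hr) _ (mem_shift.1 hs))

lemma good_shift {γ : Fin g → ℤ} {ρ : Finset (Ray m g)} : Good (shift γ ρ) ↔ Good ρ := by
  refine and_congr simp_shift (forall_congr' fun i => ⟨?_, ?_⟩)
  · rintro ⟨r, hr, hi⟩; exact ⟨_, mem_shift.1 hr, hi⟩
  · rintro ⟨r, hr, hi⟩; exact ⟨_, sh_mem_shift.2 hr, hi⟩

lemma star_shift (γ : Fin g → ℤ) {ρ : Finset (Ray m g)} (h : ρ.Nonempty) :
    star (shift γ ρ) = shift γ (star ρ) := by
  ext s
  rw [mem_shift, mem_star h, mem_star (ρ := shift γ ρ) (by simpa [shift] using h)]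
  constructor
  · intro hs r hr
    have := hs _ (sh_mem_shift.2 hr)
    rw [← compat_sh (γ := -γ)] at this
    simpa [sh_sh] using this
  · intro hs r hr
    exact compat_sh.1 (hs _ (mem_shift.1 hr))

lemma link_shift (γ : Fin g → ℤ) {ρ : Finset (Ray m g)} (h : ρ.Nonempty) :
    link (shift γ ρ) = shift γ (link ρ) := by
  ext s
  simp only [link, star_shift γ h, mem_sdiff, mem_shift]

/-- Position of the least ray. -/
noncomputable def base (ρ : Finset (Ray m g)) : Fin g → ℤ :=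
  if h : ρ.Nonempty then (ρ.min' h).pos else 0

lemma base_eq {ρ : Finset (Ray m g)} {r : Ray m g} (hr : r ∈ ρ) (h : ∀ s ∈ ρ, r ≤ s) :
    base ρ = r.pos := by
  rw [base, dif_pos ⟨r, hr⟩, le_antisymm (min'_le _ _ hr) (h _ (min'_mem _ _))]

lemma base_shift (γ : Fin g → ℤ) {ρ : Finset (Ray m g)} (h : ρ.Nonempty) :
    base (shift γ ρ) = base ρ + γ := by
  rw [base_eq (min'_mem ρ h) (fun s hs => min'_le _ _ hs),
    base_eq (r := sh γ (ρ.min' h)) (sh_mem_shift.2 (min'_mem ρ h)), pos_sh]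
  intro s hs
  have := min'_le _ _ (mem_shift.1 hs)
  rw [← sh_le_sh (γ := γ)] at this
  simpa [sh_sh] using this

open Classical in
/-- Interior simplices with `n` rays whose least ray has position `0`. -/
noncomputable def fund (m g n : ℕ) : Finset (Finset (Ray m g)) :=
  ((((univ : Finset (Fin (m + 1))) ×ˢ Finset.Icc (0 : Fin g → ℤ) 1).image
      fun x => mk x.1 x.2).powersetCard n).filter fun ρ => Good ρ ∧ base ρ = 0

lemma mem_fund {n : ℕ} {ρ : Finset (Ray m g)} :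
    ρ ∈ fund m g n ↔ Good ρ ∧ base ρ = 0 ∧ ρ.card = n := by
  classical
  unfold fund
  rw [mem_filter, mem_powersetCard]
  refine ⟨fun h => ⟨h.2.1, h.2.2, h.1.2⟩, fun ⟨hg, hb, hc⟩ => ⟨⟨fun s hs => ?_, hc⟩, hg, hb⟩⟩
  refine mem_image.2 ⟨(s.lab, s.pos), ?_, rfl⟩
  have h0 := hg.nonempty
  rw [base, dif_pos h0] at hb
  have hc := hg.1 _ (min'_mem ρ h0) s hs
  have h1 := (hc.ple_of_le (min'_le _ _ hs)).2
  rw [hb] at h1
  simp only [mem_product, mem_univ, true_and, Finset.mem_Icc]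
  exact ⟨h1, fun j => by have := (hc.2 j).2; rw [hb] at this; simpa using this⟩

/-- The ambient space of the fan. -/
abbrev Nv (m g : ℕ) := (Fin (m + 1) → ℚ) × (Fin g → ℚ)

/-- An integer vector as a rational vector. -/
def qv (v : Fin g → ℤ) : Fin g → ℚ := fun i => (v i : ℚ)

lemma qv_add (v w : Fin g → ℤ) : qv (v + w) = qv v + qv w := by ext; simp [qv]

lemma qv_sub (v w : Fin g → ℤ) : qv (v - w) = qv v - qv w := by ext; simp [qv]

/-- A family of integer matrices indexed by the labels. -/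
abbrev Mats (m g : ℕ) := Fin (m + 1) → Matrix (Fin g) (Fin g) ℤ

def vec (B : Mats m g) (r : Ray m g) : Nv m g := (Pi.single r.lab 1, qv (B r.lab *ᵥ r.pos))

/-- The linear map sending `(μ, X)` to `∑ μ i • B i γ`. -/
def bm (B : Mats m g) (γ : Fin g → ℤ) : Nv m g →ₗ[ℚ] (Fin g → ℚ) :=
  ∑ i, (LinearMap.proj i ∘ₗ LinearMap.fst ℚ _ _).smulRight (qv (B i *ᵥ γ))

lemma bm_apply (B : Mats m g) (γ : Fin g → ℤ) (n : Nv m g) :
    bm B γ n = ∑ i, n.1 i • qv (B i *ᵥ γ) := by simp [bm, LinearMap.sum_apply]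

lemma bm_vec (B : Mats m g) (γ : Fin g → ℤ) (r : Ray m g) :
    bm B γ (vec B r) = qv (B r.lab *ᵥ γ) := by
  rw [bm_apply, sum_eq_single r.lab]
  · simp [vec]
  · intro i _ hi; simp [vec, Pi.single_eq_of_ne hi]
  · simp

/-- The shear by which the period `γ` acts. -/
def shear (B : Mats m g) (γ : Fin g → ℤ) : Nv m g →ₗ[ℚ] Nv m g :=
  LinearMap.id + LinearMap.inr ℚ _ _ ∘ₗ bm B γ

lemma shear_apply (B : Mats m g) (γ : Fin g → ℤ) (n : Nv m g) :
    shear B γ n = (n.1, n.2 + bm B γ n) := by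
  ext <;> simp [shear]

lemma vec_sh (B : Mats m g) (γ : Fin g → ℤ) (r : Ray m g) :
    vec B (sh γ r) = shear B γ (vec B r) := by
  rw [shear_apply, bm_vec]
  simp [vec, mulVec_add, qv_add]

/-- The matrices `B i` are close to positive multiples of one invertible matrix. -/
def Hyp (B : Mats m g) : Prop :=
  ∀ D : Fin (m + 1) → Fin g → ℝ, (∀ j, (∀ i, 0 ≤ D i j) ∨ (∀ i, D i j ≤ 0)) →
    ∑ i, (B i).map (Int.cast : ℤ → ℝ) *ᵥ D i = 0 → D = 0

/-- The coordinate form of a label. -/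
def dl (i : Fin (m + 1)) : Module.Dual ℚ (Nv m g) := LinearMap.proj i ∘ₗ LinearMap.fst ℚ _ _

lemma dl_vec (B : Mats m g) (i : Fin (m + 1)) (r : Ray m g) :
    dl i (vec B r) = if r.lab = i then 1 else 0 := by
  simp [dl, vec, Pi.single_apply, eq_comm]

/-- Contraction with the forms of a list of labels, the head first. -/
noncomputable def DL : List (Fin (m + 1)) → Ex (Nv m g) →ₗ[ℚ] Ex (Nv m g)
  | [] => LinearMap.id
  | i :: L => DL L ∘ₗ ctr (dl i)

/-- Contraction with all label forms, then projection to `⋀ ℚ^g`. -/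
noncomputable def Dbar : Ex (Nv m g) →ₗ[ℚ] Ex (Fin g → ℚ) :=
  (ExteriorAlgebra.map (LinearMap.snd ℚ _ _)).toLinearMap ∘ₗ DL (List.finRange (m + 1))

/-- The multivector spanned by the edges of the cell of `ρ`. -/
noncomputable def nbar (B : Mats m g) (ρ : Finset (Ray m g)) : Ex (Fin g → ℚ) :=
  Dbar (nu (vec B) ρ)

/-- The volume factor `∏ lam i ^ k i / (k i)!`, where `k i + 1` rays have label `i`. -/
noncomputable def vf {K : Type*} [Field K] (lam : Fin (m + 1) → K) (L : List (Ray m g)) : K :=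
  ∏ i, lam i ^ (L.countP (·.lab = i) - 1) / ((L.countP (·.lab = i) - 1).factorial : K)

open Classical in
/-- The volume cochain. -/
noncomputable def VolL (B : Mats m g) (lam : Fin (m + 1) → ℚ)
    (θ : Module.Dual ℚ (Ex (Fin g → ℚ))) (L : List (Ray m g)) : ℚ :=
  if ∀ i, ∃ r ∈ L, r.lab = i then vf lam L * θ (Dbar (wl (L.map (vec B)))) else 0

/-- The standard basis of the ambient space. -/
def bas : Fin (m + 1) ⊕ Fin g → Nv m g
  | .inl i => (Pi.single i 1, 0)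
  | .inr j => (0, Pi.single j 1)

/-- The dual basis. -/
def dbas : Fin (m + 1) ⊕ Fin g → Module.Dual ℚ (Nv m g)
  | .inl i => dl i
  | .inr j => LinearMap.proj j ∘ₗ LinearMap.snd ℚ _ _

lemma sum_dbas_smul_bas (n : Nv m g) : ∑ b, dbas b n • bas b = n := by
  ext i <;> simp [Fintype.sum_sum_type, bas, dbas, dl, Prod.fst_sum, Prod.snd_sum,
    Finset.sum_apply, Pi.single_apply]

/-- `EE θ k ω` contracts with the alternation of the `k`-linear form `ω`, then applies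
`θ ∘ Dbar`. -/
noncomputable def EE (θ : Module.Dual ℚ (Ex (Fin g → ℚ))) :
    ℕ → (List (Nv m g) → ℚ) → Module.Dual ℚ (Ex (Nv m g))
  | 0, ω => ω [] • (θ ∘ₗ Dbar)
  | k + 1, ω => ∑ b, EE θ k (fun l => ω (bas b :: l)) ∘ₗ ctr (dbas b)

/-- The form on `⋀ ℚ^g` taking a wedge of `q` vectors to its minor with columns `J`. -/
noncomputable def thJ {q : ℕ} (J : Fin q → Fin g) : Module.Dual ℚ (Ex (Fin g → ℚ)) :=
  liftAlternating (Pi.single q
    ((Matrix.detRowAlternating : (Fin q → ℚ) [⋀^Fin q]→ₗ[ℚ] ℚ).compLinearMap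
      (LinearMap.funLeft ℚ ℚ J)))

lemma thJ_ιMulti {q : ℕ} (J : Fin q → Fin g) (v : Fin q → Fin g → ℚ) :
    thJ J (ιMulti ℚ q v) = (Matrix.of fun l k => v l (J k)).det := by
  rw [thJ, liftAlternating_apply_ιMulti, Pi.single_eq_same]
  rfl

/-- The determinant form on `⋀ ℚ^g`. -/
noncomputable def vol : Module.Dual ℚ (Ex (Fin g → ℚ)) := thJ (id : Fin g → Fin g)

/-- The wedge of the standard basis vectors with indices `I`. -/
noncomputable def eI {q : ℕ} (I : Fin q → Fin g) : Ex (Fin g → ℚ) :=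
  ιMulti ℚ q fun l => Pi.single (I l) 1

/-- Arrays of rationals with two multi-indices. -/
abbrev Arr (g q : ℕ) := (Fin q → Fin g) → (Fin q → Fin g) → ℚ

/-- The eigenwave condition for every `B i`, in the exterior algebra. -/
def HodgeE {q : ℕ} (B : Mats m g) (u : Arr g q) : Prop :=
  ∀ (i : Fin (m + 1)) (ψ₁ ψ₂ : Module.Dual ℚ (Ex (Fin g → ℚ))),
    ∑ I, ∑ J, u I J * ∑ j : Fin g, ψ₁ (ctr (LinearMap.proj j) (eI I)) *
      ψ₂ (ι ℚ (qv (B i *ᵥ Pi.single j 1)) * eI J) = 0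

/-- The Poincare dual form of `u`. -/
noncomputable def wf {q : ℕ} (u : Arr g q) (ξ η : Ex (Fin g → ℚ)) : ℚ :=
  ∑ I, ∑ J, u I J * vol (ξ * eI I) * vol (η * eI J)

/-- The wedge of the consecutive differences of a list of lattice points. -/
noncomputable def dw : List (Fin g → ℤ) → Ex (Fin g → ℚ)
  | [] => 0
  | [_] => 1
  | a :: b :: L => ι ℚ (qv (b - a)) * dw (b :: L)

/-- The product of the factorials of the fibre sizes. -/
def mu {p n : ℕ} (f : Fin p → Fin n) : ℚ :=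
  ∏ k, (((univ.filter fun s => f s = k).card.factorial : ℕ) : ℚ)

/-- Translation to the point `c` followed by the projection to `ℚ^g`. -/
def Tr (B : Mats m g) (c : Fin g → ℤ) : Nv m g →ₗ[ℚ] (Fin g → ℚ) :=
  LinearMap.snd ℚ _ _ - bm B c

/-- The cocycle: the integral of the closed polynomial form over an affine simplex. -/
noncomputable def W {q : ℕ} (B : Mats m g) (u : Arr g q) (p : ℕ) (cs : List (Fin g → ℤ))
    (ns : List (Nv m g)) : ℚ :=
  ∑ f : Fin p → Fin cs.length, mu f *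
    wf u (dw cs) (ιMulti ℚ p fun s => Tr B (cs.get (f s)) (ns.getD s 0))

/-- The wedge of the columns of `∑ lam i • B i` with indices `I`. -/
noncomputable def AeI {q : ℕ} (B : Mats m g) (lam : Fin (m + 1) → ℚ) (I : Fin q → Fin g) :
    Ex (Fin g → ℚ) :=
  ιMulti ℚ q fun l => ∑ i, lam i • qv (B i *ᵥ Pi.single (I l) 1)

/-- The cell of `ρ` in the fibre over `lam`. -/
def cell (B : Mats m g) (lam : Fin (m + 1) → ℝ) (ρ : Finset (Ray m g)) : Set (Fin g → ℝ) :=
  {x | ∃ t : Ray m g → ℝ, (∀ r ∈ ρ, 0 ≤ t r) ∧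
    (∀ i, ∑ r ∈ ρ.filter (·.lab = i), t r = lam i) ∧
    x = ∑ r ∈ ρ, t r • zv (B r.lab *ᵥ r.pos)}

end H57T
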