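import Pool.Agent.Lib.MP_e9c0f3_ag.H57T.Base

open ExteriorAlgebra Finset Matrix
open scoped Pointwise

namespace H57T

variable {m g : ℕ}

/-- Moving one index of an alternating array to the front. -/
lemma bridge_sum_ins {n : ℕ} (p : Fin (n + 1)) (F : Fin g → (Fin n → Fin g) → ℚ)
    {w : (Fin (n + 1) → Fin g) → ℚ}
    (hw : ∀ (σ : Equiv.Perm (Fin (n + 1))) K, w (K ∘ σ) = (Equiv.Perm.sign σ : ℤ) * w K) :
    ∑ K : Fin (n + 1) → Fin g, (-1 : ℚ) ^ (p : ℕ) * F (K p) (K ∘ p.succAbove) * w K =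
      ∑ a, ∑ K', F a K' * w (Fin.cons a K') := by
  rw [← (Fin.insertNthEquiv (fun _ => Fin g) p).sum_comp, Fintype.sum_prod_type]
  refine sum_congr rfl fun a _ => sum_congr rfl fun K' _ => ?_
  have h0 : (Fin.insertNthEquiv (fun _ => Fin g) p) (a, K') = p.insertNth a K' := rfl
  have h1 : (p.insertNth a K' : Fin (n + 1) → Fin g) ∘ p.succAbove = K' := by
    funext j
    simp
  have h2 : (-1 : ℚ) ^ (p : ℕ) * (-1 : ℚ) ^ (p : ℕ) = 1 := by
    rw [← mul_pow]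
    simp
  rw [h0, h1, Fin.insertNth_apply_same, ← Fin.cons_comp_cycleRange, hw, Fin.sign_cycleRange]
  push_cast
  linear_combination (F a K' * w (Fin.cons a K')) * h2

lemma bridge_eI_perm {q : ℕ} (ψ : Module.Dual ℚ (Ex (Fin g → ℚ))) (σ : Equiv.Perm (Fin q))
    (K : Fin q → Fin g) : ψ (eI (K ∘ σ)) = (Equiv.Perm.sign σ : ℤ) * ψ (eI K) := by
  have h := (ιMulti ℚ q (M := Fin g → ℚ)).map_perm (fun l => Pi.single (K l) 1) σ
  have h1 : eI (K ∘ σ) = Equiv.Perm.sign σ • eI K := h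
  rw [h1, Units.smul_def, map_zsmul, zsmul_eq_mul]

lemma bridge_ctr {n : ℕ} (ψ : Module.Dual ℚ (Ex (Fin g → ℚ))) (j : Fin g)
    (I : Fin (n + 1) → Fin g) : ψ (ctr (LinearMap.proj j) (eI I)) =
      ∑ l : Fin (n + 1), if I l = j then (-1 : ℚ) ^ (l : ℕ) * ψ (eI (I ∘ l.succAbove))
        else 0 := by
  rw [eI, ← wl_ofFn, ctr_wl, alt_ofFn, map_sum]
  refine sum_congr rfl fun l _ => ?_
  rw [wl_ofFn, map_smul, map_smul, LinearMap.proj_apply, Pi.single_apply, smul_eq_mul,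
    smul_eq_mul]
  by_cases h : I l = j
  · rw [if_pos h, if_pos h.symm, one_mul]
    rfl
  · rw [if_neg h, if_neg (Ne.symm h), zero_mul, mul_zero]

lemma bridge_qv (A : Matrix (Fin g) (Fin g) ℤ) (j k : Fin g) :
    qv (A *ᵥ Pi.single j 1) k = (A k j : ℚ) := by
  simp [qv]

lemma bridge_mul {n : ℕ} (ψ : Module.Dual ℚ (Ex (Fin g → ℚ))) (v : Fin g → ℚ)
    (J : Fin n → Fin g) : ψ (ι ℚ v * eI J) = ∑ k, v k * ψ (eI (Fin.cons k J : Fin (n + 1) → _)) := by
  have h : ∀ k : Fin g, eI (Fin.cons k J : Fin (n + 1) → Fin g) =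
      ι ℚ (Pi.single k (1 : ℚ) : Fin g → ℚ) * eI J := fun k => by
    rw [eI, ιMulti_succ_apply]
    rfl
  have hv : v = ∑ k, v k • (Pi.single k (1 : ℚ) : Fin g → ℚ) := by
    funext t
    simp [Finset.sum_apply, Pi.single_apply]
  conv_lhs => rw [hv, map_sum, sum_mul, map_sum]
  refine sum_congr rfl fun k _ => ?_
  rw [map_smul, smul_mul_assoc, map_smul, h, smul_eq_mul]

theorem hodgeE_of_coord {n : ℕ} {B : Mats m g} {u : Arr g (n + 1)} (hu : Alternating u)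
    (h : ∀ (i : Fin (m + 1)) (I : Fin n → Fin g) (K : Fin (n + 2) → Fin g),
      ∑ l : Fin (n + 2), (-1 : ℚ) ^ (l : ℕ) *
        ∑ j, (B i (K l) j : ℚ) * u (Fin.cons j I) (K ∘ l.succAbove) = 0) : HodgeE B u := by
  intro i ψ₁ ψ₂
  have key : ∀ I : Fin n → Fin g, ∑ j, ∑ J, u (Fin.cons j I) J *
      ψ₂ (ι ℚ (qv (B i *ᵥ Pi.single j 1)) * eI J) = 0 := by
    intro I
    have e1 : ∑ j, ∑ J, u (Fin.cons j I) J * ψ₂ (ι ℚ (qv (B i *ᵥ Pi.single j 1)) * eI J) =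
        ∑ k, ∑ J, (∑ j, (B i k j : ℚ) * u (Fin.cons j I) J) *
          ψ₂ (eI (Fin.cons k J : Fin (n + 2) → _)) := by
      simp only [bridge_mul, bridge_qv, mul_sum, sum_mul]
      rw [sum_comm]
      conv_rhs => rw [sum_comm]
      refine sum_congr rfl fun J _ => ?_
      rw [sum_comm]
      exact sum_congr rfl fun k _ => sum_congr rfl fun j _ => by ring
    have e2 : ∑ l : Fin (n + 2), ∑ K : Fin (n + 2) → Fin g, (-1 : ℚ) ^ (l : ℕ) *
        (∑ j, (B i (K l) j : ℚ) * u (Fin.cons j I) (K ∘ l.succAbove)) * ψ₂ (eI K) = 0 := by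
      rw [sum_comm]
      exact sum_eq_zero fun K _ => by rw [← sum_mul, h, zero_mul]
    rw [sum_congr rfl fun l _ => bridge_sum_ins l
      (fun k J => ∑ j, (B i k j : ℚ) * u (Fin.cons j I) J) (bridge_eI_perm ψ₂), sum_const,
      card_univ, Fintype.card_fin, nsmul_eq_mul] at e2
    rw [e1]
    exact (mul_eq_zero.1 e2).resolve_left (by positivity)
  have e3 : ∀ I : Fin (n + 1) → Fin g, ∀ J : Fin (n + 1) → Fin g,
      u I J * ∑ j : Fin g, ψ₁ (ctr (LinearMap.proj j) (eI I)) *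
        ψ₂ (ι ℚ (qv (B i *ᵥ Pi.single j 1)) * eI J) =
      ∑ l : Fin (n + 1), (-1 : ℚ) ^ (l : ℕ) * (ψ₁ (eI (I ∘ l.succAbove)) *
        ψ₂ (ι ℚ (qv (B i *ᵥ Pi.single (I l) 1)) * eI J)) * u I J := by
    intro I J
    simp only [bridge_ctr, sum_mul]
    rw [sum_comm, mul_sum]
    refine sum_congr rfl fun l _ => ?_
    simp only [ite_mul, zero_mul, sum_ite_eq, mem_univ, if_true]
    ring
  simp only [e3]
  rw [sum_comm]
  have e4 : ∀ J : Fin (n + 1) → Fin g, ∑ I : Fin (n + 1) → Fin g, ∑ l : Fin (n + 1),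
      (-1 : ℚ) ^ (l : ℕ) * (ψ₁ (eI (I ∘ l.succAbove)) *
        ψ₂ (ι ℚ (qv (B i *ᵥ Pi.single (I l) 1)) * eI J)) * u I J =
      ∑ _l : Fin (n + 1), ∑ I : Fin n → Fin g, ∑ j, ψ₁ (eI I) * (u (Fin.cons j I) J *
        ψ₂ (ι ℚ (qv (B i *ᵥ Pi.single j 1)) * eI J)) := by
    intro J
    rw [sum_comm]
    refine sum_congr rfl fun l _ => ?_
    rw [bridge_sum_ins l (fun j I => ψ₁ (eI I) * ψ₂ (ι ℚ (qv (B i *ᵥ Pi.single j 1)) * eI J))
      (w := fun I => u I J) fun σ K => (hu σ K J).1, sum_comm]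
    exact sum_congr rfl fun I _ => sum_congr rfl fun j _ => by ring
  simp only [e4]
  rw [sum_comm]
  refine sum_eq_zero fun l _ => ?_
  rw [sum_comm]
  refine sum_eq_zero fun I _ => ?_
  simp only [← mul_sum]
  rw [sum_comm, key, mul_zero]

/-- Pairing an alternating array with minors. -/
lemma bridge_det {q : ℕ} (M : Fin q → Fin g → ℚ) {w : (Fin q → Fin g) → ℚ}
    (hw : ∀ (σ : Equiv.Perm (Fin q)) K, w (K ∘ σ) = (Equiv.Perm.sign σ : ℤ) * w K) :
    ∑ K : Fin q → Fin g, w K * (Matrix.of fun l k => M k (K l)).det =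
      (q.factorial : ℚ) * ∑ K : Fin q → Fin g, (∏ l, M l (K l)) * w K := by
  simp only [Matrix.det_apply', mul_sum, Matrix.of_apply]
  rw [sum_comm]
  have h : ∀ σ : Equiv.Perm (Fin q), ∑ K : Fin q → Fin g,
      w K * (((Equiv.Perm.sign σ : ℤ) : ℚ) * ∏ l, M l (K (σ l))) =
        ∑ K : Fin q → Fin g, (∏ l, M l (K l)) * w K := fun σ => by
    refine Fintype.sum_equiv (Equiv.arrowCongr σ.symm (Equiv.refl _)) _ _ fun K => ?_
    have h1 : (Equiv.arrowCongr σ.symm (Equiv.refl (Fin g))) K = K ∘ σ := rfl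
    rw [h1, hw]
    simp only [Function.comp_apply]
    ring
  rw [sum_congr rfl fun σ _ => h σ, sum_const, card_univ, Fintype.card_perm, Fintype.card_fin,
    nsmul_eq_mul, mul_sum]

theorem sum_thJ {q : ℕ} (B : Mats m g) (lam : Fin (m + 1) → ℚ) {u : Arr g q} (hu : Alternating u)
    (I J : Fin q → Fin g) :
    ∑ I', ∑ J', u I' J' * thJ I (AeI B lam I') * thJ J (eI J') = (q.factorial : ℚ) ^ 2 *
      ∑ K : Fin q → Fin g, (∏ l, ∑ i, lam i * (B i (I l) (K l) : ℚ)) * u K J := by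
  have e1 : ∀ I' : Fin q → Fin g, ∑ J', u I' J' * thJ J (eI J') = q.factorial * u I' J := by
    intro I'
    have h := bridge_det (fun k s => (Pi.single s (1 : ℚ) : Fin g → ℚ) (J k)) (w := u I')
      fun σ K => (hu σ I' K).2
    simp only [eI, thJ_ιMulti]
    rw [h, sum_eq_single J]
    · simp
    · intro K _ hK
      obtain ⟨l, hl⟩ := Function.ne_iff.1 hK
      rw [prod_eq_zero (mem_univ l) (Pi.single_eq_of_ne hl.symm _), zero_mul]
    · simp
  have e2 : ∀ I' : Fin q → Fin g, thJ I (AeI B lam I') =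
      (Matrix.of fun l k => ∑ i, lam i * (B i (I k) (I' l) : ℚ)).det := by
    intro I'
    rw [AeI, thJ_ιMulti]
    congr 1
    ext l k
    simp only [Matrix.of_apply, Finset.sum_apply, Pi.smul_apply, bridge_qv, smul_eq_mul]
  have e3 : ∀ I' : Fin q → Fin g, ∑ J', u I' J' * thJ I (AeI B lam I') * thJ J (eI J') =
      q.factorial * (u I' J * (Matrix.of fun l k => ∑ i, lam i * (B i (I k) (I' l) : ℚ)).det) := by
    intro I'
    rw [← e2, ← mul_assoc, ← e1, sum_mul]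
    exact sum_congr rfl fun J' _ => by ring
  simp only [e3]
  rw [← mul_sum, bridge_det (fun k s => ∑ i, lam i * (B i (I k) s : ℚ)) (w := fun K => u K J)
    fun σ K => (hu σ K J).1, pow_two, mul_assoc]

/-- Passage from rational to real parameters. -/
theorem real_of_rat {β : Type*} (s : Finset β) (a : β → ℚ) (L : β → List (Ray m g)) {q : ℕ}
    (B : Mats m g) (u : (Fin q → Fin g) → ℚ) (I : Fin q → Fin g)
    (h : ∀ lam : Fin (m + 1) → ℚ, ∑ b ∈ s, a b * vf lam (L b) =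
      ∑ K : Fin q → Fin g, (∏ l, ∑ i, lam i * (B i (I l) (K l) : ℚ)) * u K)
    (lam : Fin (m + 1) → ℝ) : ∑ b ∈ s, (a b : ℝ) * vf lam (L b) =
      ∑ K : Fin q → Fin g, (∏ l, ∑ i, lam i * (B i (I l) (K l) : ℝ)) * (u K : ℝ) := by
  have hd : DenseRange (Pi.map fun (_ : Fin (m + 1)) => ((↑) : ℚ → ℝ)) :=
    DenseRange.piMap fun _ => Rat.denseRange_cast
  refine hd.induction_on (p := fun lam => ∑ b ∈ s, (a b : ℝ) * vf lam (L b) =
      ∑ K : Fin q → Fin g, (∏ l, ∑ i, lam i * (B i (I l) (K l) : ℝ)) * (u K : ℝ)) lam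
    (isClosed_eq ?_ ?_) fun t => ?_
  · unfold vf
    fun_prop
  · fun_prop
  · have h1 := congrArg ((↑) : ℚ → ℝ) (h t)
    simp only [vf] at h1 ⊢
    push_cast at h1
    exact h1

end H57T
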