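import Pool.Agent.Lib.MP_e9c0f3_ag.H57T.Dual

open ExteriorAlgebra Finset Matrix
open scoped Pointwise

namespace H57T

variable {m g : ℕ}

/-- The linear map `∑ lam i • B i`. -/
noncomputable def Alam (B : Mats m g) (lam : Fin (m + 1) → ℚ) : (Fin g → ℚ) →ₗ[ℚ] (Fin g → ℚ) :=
  ∑ i, lam i • Matrix.toLin' ((B i).map (Int.cast : ℤ → ℚ))

/-- The ray of the unit box with label `i` and zero set `J`. -/
def enRay (i : Fin (m + 1)) (J : Finset (Fin g)) : Ray m g :=
  mk i fun j => if j ∈ J then 0 else 1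

@[simp] lemma en_lab (i : Fin (m + 1)) (J : Finset (Fin g)) : (enRay i J).lab = i := rfl

lemma en_pos (i : Fin (m + 1)) (J : Finset (Fin g)) (j : Fin g) :
    (enRay i J).pos j = if j ∈ J then 0 else 1 := rfl

lemma en_ple {i i' : Fin (m + 1)} {J J' : Finset (Fin g)} :
    ple (enRay i J) (enRay i' J') ↔ i ≤ i' ∧ J' ⊆ J := by
  refine and_congr Iff.rfl ⟨fun h j hj => ?_, fun h j => ?_⟩
  · have := h j
    rw [en_pos, en_pos, if_pos hj] at this
    by_contra hn
    rw [if_neg hn] at this
    exact absurd this (by simp)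
  · rw [en_pos, en_pos]
    by_cases hj : j ∈ J'
    · rw [if_pos hj, if_pos (h hj)]
    · rw [if_neg hj]
      split_ifs <;> simp

lemma en_inj {i i' : Fin (m + 1)} {J J' : Finset (Fin g)} (h : enRay i J = enRay i' J') :
    i = i' ∧ J = J' := by
  have h1 : ple (enRay i J) (enRay i' J') := h ▸ ple_refl _
  have h2 : ple (enRay i' J') (enRay i J) := h ▸ ple_refl _
  rw [en_ple] at h1 h2
  exact ⟨le_antisymm h1.1 h2.1, Subset.antisymm h2.2 h1.2⟩

lemma en_compat {i i' : Fin (m + 1)} {J J' : Finset (Fin g)}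
    (h : ple (enRay i J) (enRay i' J')) : Compat (enRay i J) (enRay i' J') := by
  refine ⟨Or.inl h, fun j => ?_⟩
  rw [en_pos, en_pos]
  split_ifs <;> omega

/-- The rays of the unit box. -/
noncomputable def enBox (m g : ℕ) : Finset (Ray m g) :=
  (univ : Finset (Fin (m + 1) × Finset (Fin g))).image fun x => enRay x.1 x.2

lemma en_mem_box {r : Ray m g} : r ∈ enBox m g ↔ ∃ i J, r = enRay i J := by
  simp only [enBox, mem_image, mem_univ, true_and, Prod.exists]
  exact ⟨fun ⟨i, J, h⟩ => ⟨i, J, h.symm⟩, fun ⟨i, J, h⟩ => ⟨i, J, h.symm⟩⟩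

/-- The number of steps left. -/
def enRk (r : Ray m g) : ℕ := (m - r.lab) + (univ.filter fun j => r.pos j = 0).card

lemma en_rk (i : Fin (m + 1)) (J : Finset (Fin g)) : enRk (enRay i J) = m - i + J.card := by
  unfold enRk
  congr 2
  ext j
  simp [en_pos]

lemma en_rk_lt {i i' : Fin (m + 1)} {J J' : Finset (Fin g)}
    (h : ple (enRay i J) (enRay i' J')) (hne : enRay i J ≠ enRay i' J') :
    enRk (enRay i' J') < enRk (enRay i J) := by
  rw [en_ple] at h
  rw [en_rk, en_rk]
  have h1 := card_le_card h.2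
  have h2 : (i : ℕ) ≤ i' := h.1
  have h3 := i'.2
  by_contra hn
  have h4 : (i : ℕ) = i' := by omega
  have h5 : J.card ≤ J'.card := by omega
  exact hne (by rw [Fin.ext h4, eq_of_subset_of_card_le h.2 h5])

open Classical in
/-- Simplices of the box with `n + 1` rays and given least ray. -/
noncomputable def enC (n : ℕ) (i : Fin (m + 1)) (J : Finset (Fin g)) :
    Finset (Finset (Ray m g)) :=
  (enBox m g).powerset.filter fun ρ =>
    Simp ρ ∧ ρ.card = n + 1 ∧ enRay i J ∈ ρ ∧ ∀ s ∈ ρ, enRay i J ≤ s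

lemma en_mem_C {n : ℕ} {i : Fin (m + 1)} {J : Finset (Fin g)} {ρ : Finset (Ray m g)} :
    ρ ∈ enC n i J ↔ ρ ⊆ enBox m g ∧
      Simp ρ ∧ ρ.card = n + 1 ∧ enRay i J ∈ ρ ∧ ∀ s ∈ ρ, enRay i J ≤ s := by
  classical
  unfold enC
  rw [mem_filter, mem_powerset]

lemma en_card_le {n : ℕ} {i : Fin (m + 1)} {J : Finset (Fin g)} {ρ : Finset (Ray m g)}
    (h : ρ ∈ enC n i J) : n ≤ m - i + J.card := by
  obtain ⟨hb, hs, hc, hr, hm⟩ := en_mem_C.1 h
  have key : ∀ r ∈ ρ, ∀ s ∈ ρ, r < s → enRk s < enRk r := fun r hr s hs' hlt => by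
    obtain ⟨a, A, rfl⟩ := en_mem_box.1 (hb hr)
    obtain ⟨b, B, rfl⟩ := en_mem_box.1 (hb hs')
    exact en_rk_lt ((hs _ hr _ hs').ple_of_le hlt.le) hlt.ne
  have h1 : ρ.card ≤ (range (m - i + J.card + 1)).card := by
    refine card_le_card_of_injOn enRk (fun s hs' => ?_) (fun r hr s hs' e => ?_)
    · rw [coe_range, Set.mem_Iio, ← en_rk]
      rcases (hm s hs').lt_or_eq with h1 | h1
      · exact (key _ hr s hs' h1).trans (Nat.lt_succ_self _)
      · rw [← h1]
        exact Nat.lt_succ_self _
    · rcases lt_trichotomy r s with h1 | h1 | h1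
      · exact absurd e (key r hr s hs' h1).ne'
      · exact h1
      · exact absurd e (key s hs' r hr h1).ne
  rw [card_range] at h1
  omega

lemma en_succ_val {i : Fin (m + 1)} (hi : i ≠ Fin.last m) : ((i + 1 : Fin (m + 1)) : ℕ) = i + 1 :=
  Fin.val_add_one_of_lt (Fin.lt_last_iff_ne_last.2 hi)

/-- The covers of a ray of the box. -/
def enCov (i : Fin (m + 1)) (J : Finset (Fin g)) : Finset (Fin (m + 1) × Finset (Fin g)) :=
  univ.filter fun x => i ≤ x.1 ∧ x.2 ⊆ J ∧ (x.1 : ℕ) + J.card = i + x.2.card + 1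

lemma en_sum_cov (i : Fin (m + 1)) (J : Finset (Fin g))
    (f : Fin (m + 1) × Finset (Fin g) → ℚ) :
    ∑ x ∈ enCov i J, f x =
      (if i = Fin.last m then 0 else f (i + 1, J)) + ∑ j ∈ J, f (i, J.erase j) := by
  have h1 : enCov i J = (if i = Fin.last m then ∅ else {(i + 1, J)}) ∪
      J.image fun j => (i, J.erase j) := by
    ext ⟨a, A⟩
    simp only [enCov, mem_filter, mem_univ, true_and, mem_union, mem_image, Prod.mk.injEq]
    constructor
    · rintro ⟨h1, h2, h3⟩
      have h4 := card_le_card h2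
      have h5 : (i : ℕ) ≤ a := h1
      have h6 := a.2
      by_cases h : (a : ℕ) = i
      · obtain ⟨j, hj, hjA⟩ := exists_mem_notMem_of_card_lt_card (s := A) (t := J) (by omega)
        refine Or.inr ⟨j, hj, (Fin.ext h).symm, ?_⟩
        refine (eq_of_subset_of_card_le (subset_erase.2 ⟨h2, hjA⟩) ?_).symm
        rw [card_erase_of_mem hj]
        omega
      · have hi : i < Fin.last m := by
          rw [Fin.lt_def, Fin.val_last]
          omega
        rw [if_neg hi.ne, mem_singleton, Prod.mk.injEq]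
        refine Or.inl ⟨Fin.ext ?_, eq_of_subset_of_card_le h2 (by omega)⟩
        rw [Fin.val_add_one_of_lt hi]
        omega
    · rintro (h | ⟨j, hj, rfl, rfl⟩)
      · split_ifs at h with hi
        · simp at h
        · rw [mem_singleton, Prod.mk.injEq] at h
          obtain ⟨rfl, rfl⟩ := h
          have := en_succ_val hi
          refine ⟨?_, Subset.refl _, ?_⟩
          · rw [Fin.le_def, this]
            omega
          · rw [this]
            omega
      · have := card_erase_add_one hj
        exact ⟨le_rfl, erase_subset _ _, by omega⟩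
  rw [h1, sum_union, sum_image]
  · split_ifs <;> simp
  · intro a ha b hb h
    exact erase_injOn J ha hb (congrArg Prod.snd h)
  · split_ifs
    · exact disjoint_empty_left _
    · rw [disjoint_singleton_left, mem_image]
      rintro ⟨j, hj, h⟩
      exact (erase_ssubset hj).ne (congrArg Prod.snd h)

/-- The sum over the maximal chains from a ray of the box. -/
noncomputable def enS (n : ℕ) (i : Fin (m + 1)) (J : Finset (Fin g))
    (F : List (Ray m g) → ℚ) : ℚ :=
  ∑ ρ ∈ enC n i J, F (ρ.sort (· ≤ ·))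

lemma enS_zero (i : Fin (m + 1)) (J : Finset (Fin g)) (F : List (Ray m g) → ℚ) :
    enS 0 i J F = F [enRay i J] := by
  have : enC 0 i J = {{enRay i J}} := by
    ext ρ
    rw [en_mem_C, mem_singleton]
    constructor
    · rintro ⟨-, -, hc, hr, -⟩
      obtain ⟨a, rfl⟩ := card_eq_one.1 hc
      rw [mem_singleton.1 hr]
    · rintro rfl
      refine ⟨singleton_subset_iff.2 (en_mem_box.2 ⟨i, J, rfl⟩), fun r hr s hs => ?_, rfl,
        mem_singleton_self _, fun s hs => (mem_singleton.1 hs).ge⟩
      rw [mem_singleton.1 hr, mem_singleton.1 hs]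
      exact compat_refl _
  rw [enS, this, sum_singleton, sort_singleton]

lemma en_cov_lt {n : ℕ} {i : Fin (m + 1)} {J : Finset (Fin g)}
    {x : Fin (m + 1) × Finset (Fin g)} (hx : x ∈ enCov i J) {ρ : Finset (Ray m g)}
    (h : ρ ∈ enC n x.1 x.2) : ∀ s ∈ ρ, enRay i J < s ∧ Compat (enRay i J) s := by
  obtain ⟨hb, hs, -, hr, hm⟩ := en_mem_C.1 h
  obtain ⟨-, h1, h2, h3⟩ := mem_filter.1 hx
  have h4 : ple (enRay i J) (enRay x.1 x.2) := en_ple.2 ⟨h1, h2⟩
  have h5 : enRay i J < enRay x.1 x.2 := lt_of_le_of_ne h4.le fun e => by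
    obtain ⟨e1, e2⟩ := en_inj e
    rw [← e1, ← e2] at h3
    omega
  intro s hs'
  refine ⟨h5.trans_le (hm s hs'), ?_⟩
  have h6 := h4.trans ((hs _ hr s hs').ple_of_le (hm s hs'))
  obtain ⟨a, A, rfl⟩ := en_mem_box.1 (hb hs')
  exact en_compat h6

lemma enS_succ {n : ℕ} {i : Fin (m + 1)} {J : Finset (Fin g)} (hn : n + 1 + i = m + J.card)
    (F : List (Ray m g) → ℚ) :
    enS (n + 1) i J F =
      (if i = Fin.last m then 0 else enS n (i + 1) J fun L => F (enRay i J :: L)) +
        ∑ j ∈ J, enS n i (J.erase j) fun L => F (enRay i J :: L) := by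
  classical
  rw [← en_sum_cov i J fun x => enS n x.1 x.2 fun L => F (enRay i J :: L)]
  unfold enS
  rw [← sum_biUnion]
  · symm
    refine sum_nbij' (insert (enRay i J)) (·.erase (enRay i J)) ?_ ?_ ?_ ?_ ?_
    · intro ρ hρ
      obtain ⟨x, hx, h⟩ := mem_biUnion.1 hρ
      have h1 := en_cov_lt hx h
      obtain ⟨hb, hs, hc, -, -⟩ := en_mem_C.1 h
      refine en_mem_C.2 ⟨insert_subset (en_mem_box.2 ⟨i, J, rfl⟩) hb,
        hs.insert fun r hr => (h1 r hr).2, ?_, mem_insert_self _ _, fun s hs' => ?_⟩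
      · rw [card_insert_of_notMem fun h => lt_irrefl _ (h1 _ h).1, hc]
      · rcases mem_insert.1 hs' with rfl | hs'
        · exact le_rfl
        · exact (h1 s hs').1.le
    · intro ρ hρ
      obtain ⟨hb, hs, hc, hr, hm⟩ := en_mem_C.1 hρ
      have hc' : (ρ.erase (enRay i J)).card = n + 1 := by
        rw [card_erase_of_mem hr, hc]
        rfl
      have hne : (ρ.erase (enRay i J)).Nonempty := card_pos.1 (by omega)
      have h1 := min'_mem _ hne
      obtain ⟨a, A, e⟩ := en_mem_box.1 (hb (mem_of_mem_erase h1))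
      have h2 : ρ.erase (enRay i J) ∈ enC n a A :=
        en_mem_C.2 ⟨(erase_subset _ _).trans hb, hs.mono (erase_subset _ _), hc', e ▸ h1,
          fun s hs' => e ▸ min'_le _ s hs'⟩
      rw [e] at h1
      have h3 := (hs _ hr _ (mem_of_mem_erase h1)).ple_of_le (hm _ (mem_of_mem_erase h1))
      have h4 := en_rk_lt h3 (ne_of_mem_erase h1).symm
      have h5 := en_card_le h2
      rw [en_rk, en_rk] at h4
      rw [en_ple] at h3
      refine mem_biUnion.2 ⟨(a, A), mem_filter.2 ⟨mem_univ _, h3.1, h3.2, ?_⟩, h2⟩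
      have h6 := a.2
      have h7 := i.2
      change (a : ℕ) + J.card = i + A.card + 1
      omega
    · intro ρ hρ
      obtain ⟨x, hx, h⟩ := mem_biUnion.1 hρ
      exact erase_insert fun h' => lt_irrefl _ (en_cov_lt hx h _ h').1
    · intro ρ hρ
      exact insert_erase (en_mem_C.1 hρ).2.2.2.1
    · intro ρ hρ
      obtain ⟨x, hx, h⟩ := mem_biUnion.1 hρ
      rw [sort_insert_min fun b hb => (en_cov_lt hx h b hb).1]
  · intro x _ y _ hxy
    refine disjoint_left.2 fun ρ h1 h2 => hxy ?_
    obtain ⟨-, -, -, hr, hm⟩ := en_mem_C.1 h1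
    obtain ⟨-, -, -, hr', hm'⟩ := en_mem_C.1 h2
    obtain ⟨e1, e2⟩ := en_inj (le_antisymm (hm _ hr') (hm' _ hr))
    exact Prod.ext e1 e2

lemma enS_mul (n : ℕ) (i : Fin (m + 1)) (J : Finset (Fin g)) (c : ℚ) (F : List (Ray m g) → ℚ) :
    enS n i J (fun L => c * F L) = c * enS n i J F := (mul_sum _ _ _).symm

lemma enS_congr {n : ℕ} {i : Fin (m + 1)} {J : Finset (Fin g)} (hn : n + i = m + J.card)
    {F F' : List (Ray m g) → ℚ}
    (h : ∀ L, (∀ r ∈ L, i ≤ r.lab) → (∀ a, i < a → ∃ r ∈ L, r.lab = a) →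
      F (enRay i J :: L) = F' (enRay i J :: L)) : enS n i J F = enS n i J F' := by
  induction n generalizing i J F F' with
  | zero =>
    rw [enS_zero, enS_zero]
    refine h [] (by simp) fun a ha => ?_
    have h1 := a.2
    have h2 : (i : ℕ) < a := ha
    omega
  | succ n ih =>
    rw [enS_succ hn, enS_succ hn]
    congr 1
    · split_ifs with hi
      · rfl
      have h0 := en_succ_val hi
      refine ih (by omega) fun L h1 h2 => h _ (fun r hr => ?_) fun a ha => ?_
      · rcases List.mem_cons.1 hr with rfl | hr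
        · rw [en_lab, Fin.le_def]
          omega
        · have := h1 r hr
          rw [Fin.le_def] at this ⊢
          omega
      · by_cases e : a = i + 1
        · exact ⟨_, List.mem_cons_self, e.symm⟩
        · obtain ⟨r, hr, e'⟩ := h2 a (by
            have h3 : (a : ℕ) ≠ (i + 1 : Fin (m + 1)) := fun e' => e (Fin.ext e')
            rw [Fin.lt_def] at ha ⊢
            omega)
          exact ⟨r, List.mem_cons_of_mem _ hr, e'⟩
    · refine sum_congr rfl fun j hj => ?_
      have h0 := card_erase_add_one hj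
      refine ih (by omega) fun L h1 h2 => h _ (fun r hr => ?_) fun a ha => ?_
      · rcases List.mem_cons.1 hr with rfl | hr
        · exact le_rfl
        · exact h1 r hr
      · obtain ⟨r, hr, e'⟩ := h2 a ha
        exact ⟨r, List.mem_cons_of_mem _ hr, e'⟩

/-- Contraction with the labels from `k` on, then projection. -/
noncomputable def enNb (B : Mats m g) (k : ℕ) (L : List (Ray m g)) : Ex (Fin g → ℚ) :=
  ExteriorAlgebra.map (LinearMap.snd ℚ _ _)
    (DL ((List.finRange (m + 1)).drop k) (wl (L.map (vec B))))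

lemma en_nb_label (B : Mats m g) {r : Ray m g} {L : List (Ray m g)}
    (h : ∀ s ∈ L, s.lab ≠ r.lab) : enNb B r.lab (r :: L) = enNb B (r.lab + 1) L := by
  unfold enNb
  have h1 : (List.finRange (m + 1)).drop r.lab =
      r.lab :: (List.finRange (m + 1)).drop (r.lab + 1) := by
    rw [List.drop_eq_getElem_cons (by simpa using r.lab.2)]
    simp
  rw [h1, DL, LinearMap.comp_apply, List.map_cons, wl_cons, ctr_ι_mul, dl_vec, if_pos rfl,
    one_smul, ctr_wl_eq_zero, mul_zero, sub_zero]
  intro a ha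
  obtain ⟨s, hs, rfl⟩ := List.mem_map.1 ha
  rw [dl_vec, if_neg (h s hs)]

lemma en_DL_inr (Ls : List (Fin (m + 1))) (x : Fin g → ℚ) (ξ : Ex (Nv m g)) :
    DL Ls (ι ℚ ((0, x) : Nv m g) * ξ) =
      (-1 : ℚ) ^ Ls.length • (ι ℚ ((0, x) : Nv m g) * DL Ls ξ) := by
  induction Ls generalizing ξ with
  | nil => simp [DL]
  | cons i Ls ih =>
    have h0 : dl i ((0, x) : Nv m g) = 0 := rfl
    rw [DL, LinearMap.comp_apply, LinearMap.comp_apply, ctr_ι_mul, h0, zero_smul, zero_sub,
      map_neg, ih, List.length_cons, pow_succ, mul_neg_one, neg_smul]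

/-- The column `j` of `B i`. -/
def enB (B : Mats m g) (i : Fin (m + 1)) (j : Fin g) : Fin g → ℚ :=
  qv (B i *ᵥ Pi.single j 1)

/-- The standard basis. -/
def enE (j : Fin g) : Fin g → ℚ := Pi.single j 1

lemma en_B_one (i : Fin (m + 1)) (j : Fin g) : enB (fun _ => 1) i j = enE j := by
  funext a
  simp only [enB, enE, one_mulVec, qv, Pi.single_apply]
  split_ifs <;> simp

lemma en_pos_erase (i : Fin (m + 1)) {J : Finset (Fin g)} {j : Fin g} (hj : j ∈ J) :
    (enRay i (J.erase j)).pos = (enRay i J).pos + Pi.single j 1 := by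
  funext a
  rw [Pi.add_apply, en_pos, en_pos, Pi.single_apply]
  by_cases h : a = j
  · simp [h, hj]
  · simp [h]

/-- The sign of a coordinate step. -/
def enSg (m k : ℕ) : ℚ := -(-1) ^ ((List.finRange (m + 1)).drop k).length

lemma en_sg_sq (m k : ℕ) : enSg m k * enSg m k = 1 := by
  unfold enSg
  rw [neg_mul_neg, ← mul_pow]
  simp

lemma en_nb_coord (B : Mats m g) (k : ℕ) (i : Fin (m + 1)) {J : Finset (Fin g)} {j : Fin g}
    (hj : j ∈ J) (L : List (Ray m g)) :
    enNb B k (enRay i J :: enRay i (J.erase j) :: L) =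
      enSg m k • (ι ℚ (enB B i j) * enNb B k (enRay i (J.erase j) :: L)) := by
  have h1 : vec B (enRay i J) = vec B (enRay i (J.erase j)) - (0, enB B i j) := by
    simp only [vec, en_lab, en_pos_erase i hj, mulVec_add, qv_add, enB, Prod.mk_sub_mk,
      sub_zero, add_sub_cancel_right]
  unfold enNb
  rw [List.map_cons, wl_cons, h1, map_sub, sub_mul, ι_mul_wl_of_mem (by simp), zero_sub, map_neg,
    en_DL_inr, map_neg, map_smul, map_mul, map_apply_ι, enSg, neg_smul]
  rfl

/-- The volume factor of the rays after the first one, with `k` extra steps. -/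
noncomputable def enV (lam : Fin (m + 1) → ℚ) (i : Fin (m + 1)) (k : ℕ) (L : List (Ray m g)) :
    ℚ :=
  lam i ^ (k + L.countP (·.lab = i)) / ((k + L.countP (·.lab = i)).factorial : ℚ) *
    ∏ a ∈ Ioi i, lam a ^ (L.countP (·.lab = a) - 1) / ((L.countP (·.lab = a) - 1).factorial : ℚ)

lemma en_prod_Ici (lam : Fin (m + 1) → ℚ) (r : Ray m g) (L : List (Ray m g)) :
    ∏ a ∈ Ici r.lab, lam a ^ ((r :: L).countP (·.lab = a) - 1) /
      (((r :: L).countP (·.lab = a) - 1).factorial : ℚ) = enV lam r.lab 0 L := by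
  rw [← Ioi_insert, prod_insert (by simp), enV]
  congr 1
  · simp
  · refine prod_congr rfl fun a ha => ?_
    rw [List.countP_cons_of_neg (by simpa using (mem_Ioi.1 ha).ne)]

lemma en_V_coord (lam : Fin (m + 1) → ℚ) (k : ℕ) (r : Ray m g) (L : List (Ray m g)) :
    enV lam r.lab k (r :: L) = enV lam r.lab (k + 1) L := by
  unfold enV
  congr 1
  · rw [List.countP_cons_of_pos (by simp), ← add_assoc, add_right_comm]
  · refine prod_congr rfl fun a ha => ?_
    rw [List.countP_cons_of_neg (by simpa using (mem_Ioi.1 ha).ne)]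

lemma en_Ioi {i : Fin (m + 1)} (hi : i ≠ Fin.last m) : Ioi i = Ici (i + 1) := by
  ext a
  rw [mem_Ioi, mem_Ici, Fin.lt_def, Fin.le_def, en_succ_val hi]
  rfl

lemma en_V_label (lam : Fin (m + 1) → ℚ) (k : ℕ) {i : Fin (m + 1)} (hi : i ≠ Fin.last m)
    {r : Ray m g} (hr : r.lab = i + 1) {L : List (Ray m g)} (h : ∀ s ∈ r :: L, s.lab ≠ i) :
    enV lam i k (r :: L) = lam i ^ k / (k.factorial : ℚ) * enV lam (i + 1) 0 L := by
  rw [enV, List.countP_eq_zero.2 (fun s hs => by simpa using h s hs), add_zero, en_Ioi hi, ← hr,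
    en_prod_Ici]

lemma en_nu_congr {f f' : Fin g → Fin g → ℚ} {J : Finset (Fin g)} (h : ∀ j ∈ J, f j = f' j) :
    nu f J = nu f' J := by
  unfold nu
  rw [List.map_congr_left fun j hj => h j (by simpa using hj)]

lemma en_nu_erase (f : Fin g → Fin g → ℚ) {J : Finset (Fin g)} {j : Fin g} (hj : j ∈ J) :
    nu f J = sg j J • (ι ℚ (f j) * nu f (J.erase j)) := by
  rw [← sg_erase_self, ← nu_insert f (notMem_erase j J), insert_erase hj]

lemma en_nu_add (c : ℚ) (b a : Fin g → Fin g → ℚ) (J : Finset (Fin g)) :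
    nu (fun j => c • b j + a j) J =
      ∑ S ∈ J.powerset, c ^ S.card • nu (fun j => if j ∈ S then b j else a j) J := by
  induction J using Finset.induction_on with
  | empty => simp
  | insert j J hj ih =>
    rw [sum_powerset_insert hj, nu_insert _ hj, ih, ← sum_add_distrib, mul_sum, smul_sum]
    refine sum_congr rfl fun S hS => ?_
    have hjS : j ∉ S := fun h => hj (mem_powerset.1 hS h)
    have h1 : nu (fun j' => if j' ∈ insert j S then b j' else a j') J =
        nu (fun j' => if j' ∈ S then b j' else a j') J :=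
      en_nu_congr fun j' hj' => by
        have : j' ≠ j := fun e => hj (e ▸ hj')
        simp [this]
    rw [nu_insert _ hj, nu_insert _ hj, if_neg hjS, if_pos (mem_insert_self _ _), h1,
      card_insert_of_notMem hjS, map_add, map_smul, add_mul, smul_mul_assoc, mul_smul_comm,
      mul_smul_comm]
    module

lemma en_sum_erase (J : Finset (Fin g)) (f : Finset (Fin g) → ℚ) :
    ∑ j ∈ J, ∑ S ∈ (J.erase j).powerset, f (insert j S) =
      ∑ S ∈ J.powerset, (S.card : ℚ) * f S := by
  have h1 : ∀ j ∈ J, ∑ S ∈ (J.erase j).powerset, f (insert j S) =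
      ∑ S ∈ J.powerset, if j ∈ S then f S else 0 := fun j hj => by
    conv_rhs => rw [← insert_erase hj]
    rw [sum_powerset_insert (notMem_erase j J), sum_eq_zero (s := (J.erase j).powerset)
      (f := fun S => if j ∈ S then f S else 0)
      fun S hS => if_neg fun h => notMem_erase j J (mem_powerset.1 hS h), zero_add]
    simp
  rw [sum_congr rfl h1, sum_comm]
  refine sum_congr rfl fun S hS => ?_
  rw [sum_ite_mem, inter_eq_right.2 (mem_powerset.1 hS), sum_const, nsmul_eq_mul]

/-- The contribution of the later labels to a column. -/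
noncomputable def enA (B : Mats m g) (lam : Fin (m + 1) → ℚ) (i : Fin (m + 1)) (j : Fin g) :
    Fin g → ℚ := ∑ a ∈ Ioi i, lam a • enB B a j

/-- Composition of a form with a left multiplication. -/
noncomputable def enL (ψ : Module.Dual ℚ (Ex (Fin g → ℚ))) (x : Fin g → ℚ) :
    Module.Dual ℚ (Ex (Fin g → ℚ)) := ψ ∘ₗ LinearMap.mulLeft ℚ (ι ℚ x)

lemma enL_apply (ψ : Module.Dual ℚ (Ex (Fin g → ℚ))) (x : Fin g → ℚ) (ξ : Ex (Fin g → ℚ)) :
    enL ψ x ξ = ψ (ι ℚ x * ξ) := rfl

lemma en_back0 (B : Mats m g) (lam : Fin (m + 1) → ℚ) (i : Fin (m + 1)) (J : Finset (Fin g))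
    (c : ℚ) (ψ' : Module.Dual ℚ (Ex (Fin g → ℚ))) :
    ∑ S ∈ J.powerset, lam i ^ (0 + S.card) * (S.card.factorial : ℚ) /
        ((0 + S.card).factorial : ℚ) *
        (c * ψ' (nu (fun j => if j ∈ S then enB B i j else enA B lam i j) J)) =
      c * ψ' (nu (fun j => ∑ a ∈ Ici i, lam a • enB B a j) J) := by
  have h1 : (fun j => ∑ a ∈ Ici i, lam a • enB B a j) =
      fun j => lam i • enB B i j + enA B lam i j := by
    funext j
    rw [← Ioi_insert, sum_insert (by simp), enA]
  rw [h1, en_nu_add, map_sum, mul_sum]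
  refine sum_congr rfl fun S _ => ?_
  have : (S.card.factorial : ℚ) ≠ 0 := by exact_mod_cast S.card.factorial_ne_zero
  rw [zero_add, mul_div_cancel_right₀ _ this, map_smul, smul_eq_mul]
  ring

lemma en_back (B : Mats m g) (lam : Fin (m + 1) → ℚ) {n : ℕ} {i : Fin (m + 1)}
    {J : Finset (Fin g)} (hn : n + i = m + J.card) (k : ℕ)
    (ψ ψ' : Module.Dual ℚ (Ex (Fin g → ℚ))) :
    enS n i J (fun L => enV lam i k L.tail * (ψ (enNb (fun _ => 1) i L) * ψ' (enNb B i L))) =
      ∑ S ∈ J.powerset, lam i ^ (k + S.card) * (S.card.factorial : ℚ) /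
        ((k + S.card).factorial : ℚ) *
        (ψ (nu enE J) * ψ' (nu (fun j => if j ∈ S then enB B i j else enA B lam i j) J)) := by
  induction n generalizing i J k ψ ψ' with
  | zero =>
    have h1 := i.2
    have h2 : J = ∅ := card_eq_zero.1 (by omega)
    have h3 : (i : ℕ) = m := by omega
    have h4 : Ioi i = ∅ := eq_empty_of_forall_notMem fun a ha => by
      have h5 := a.2
      have h6 : (i : ℕ) < a := Fin.lt_def.1 (mem_Ioi.1 ha)
      omega
    have h5 : ∀ B' : Mats m g, enNb B' i [enRay i J] = 1 := fun B' => by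
      have := en_nb_label B' (r := enRay i J) (L := []) (by simp)
      rw [en_lab] at this
      rw [this, enNb, List.drop_eq_nil_of_le (by simp [h3])]
      simp [DL]
    rw [enS_zero, h5, h5, h2]
    simp [enV, h4]
  | succ n ih =>
    have hl : (if i = Fin.last m then 0 else enS n (i + 1) J fun L =>
        enV lam i k (enRay i J :: L).tail * (ψ (enNb (fun _ => 1) i (enRay i J :: L)) *
          ψ' (enNb B i (enRay i J :: L)))) =
        lam i ^ k / (k.factorial : ℚ) * (ψ (nu enE J) * ψ' (nu (enA B lam i) J)) := by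
      split_ifs with hi
      · obtain ⟨j, hj⟩ : J.Nonempty := card_pos.1 (by
          rw [hi, Fin.val_last] at hn
          omega)
        have : enA B lam i j = 0 := by
          rw [enA, hi]
          exact sum_eq_zero fun a ha => absurd (mem_Ioi.1 ha) (Fin.le_last a).not_gt
        rw [en_nu_erase (enA B lam i) hj, this]
        simp
      have h0 := en_succ_val hi
      have hn' : n + (i + 1 : Fin (m + 1)) = m + J.card := by omega
      rw [enS_congr hn' (F' := fun L => lam i ^ k / (k.factorial : ℚ) *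
        (enV lam (i + 1) 0 L.tail * (ψ (enNb (fun _ => 1) (i + 1 : Fin (m + 1)) L) *
          ψ' (enNb B (i + 1 : Fin (m + 1)) L)))), enS_mul, ih hn', en_back0, ← en_Ioi hi]
      · rfl
      intro L h1 _
      have h2 : ∀ s ∈ enRay (i + 1) J :: L, s.lab ≠ i := fun s hs e => by
        have h3 : i + 1 ≤ s.lab := by
          rcases List.mem_cons.1 hs with rfl | hs
          · exact le_rfl
          · exact h1 s hs
        rw [e, Fin.le_def] at h3
        omega
      have h3 := fun B' : Mats m g => en_nb_label B' (r := enRay i J) h2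
      rw [en_lab] at h3
      simp only [List.tail_cons]
      rw [en_V_label lam k hi rfl h2, h3, h3, h0, mul_assoc]
    let f : Finset (Fin g) → ℚ := fun S =>
      lam i ^ (k + S.card) * ((S.card - 1).factorial : ℚ) / ((k + S.card).factorial : ℚ) *
        (ψ (nu enE J) * ψ' (nu (fun j => if j ∈ S then enB B i j else enA B lam i j) J))
    have hc : ∀ j ∈ J, (enS n i (J.erase j) fun L =>
        enV lam i k (enRay i J :: L).tail * (ψ (enNb (fun _ => 1) i (enRay i J :: L)) *
          ψ' (enNb B i (enRay i J :: L)))) =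
        ∑ S ∈ (J.erase j).powerset, f (insert j S) := fun j hj => by
      have h0 := card_erase_add_one hj
      have hn' : n + i = m + (J.erase j).card := by omega
      rw [enS_congr hn' (F' := fun L => enV lam i (k + 1) L.tail *
        (enL ψ (enE j) (enNb (fun _ => 1) i L) * enL ψ' (enB B i j) (enNb B i L))), ih hn']
      · refine sum_congr rfl fun S hS => ?_
        have hjS : j ∉ S := fun h => notMem_erase j J (mem_powerset.1 hS h)
        have h1 : nu (fun j' => if j' ∈ insert j S then enB B i j' else enA B lam i j')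
            (J.erase j) = nu (fun j' => if j' ∈ S then enB B i j' else enA B lam i j')
            (J.erase j) := en_nu_congr fun j' hj' => by simp [ne_of_mem_erase hj']
        simp only [f]
        rw [card_insert_of_notMem hjS, Nat.add_sub_cancel, en_nu_erase enE hj,
          en_nu_erase _ hj, if_pos (mem_insert_self _ _), h1, map_smul, map_smul, smul_eq_mul,
          smul_eq_mul, mul_mul_mul_comm, sg_mul_self, one_mul, enL_apply, enL_apply,
          add_right_comm, add_assoc]
      · intro L _ _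
        have h1 := en_V_coord lam k (enRay i (J.erase j)) L
        rw [en_lab] at h1
        simp only [List.tail_cons]
        rw [h1, en_nb_coord _ _ i hj, en_nb_coord _ _ i hj, map_smul, map_smul, smul_eq_mul,
          smul_eq_mul, mul_mul_mul_comm, en_sg_sq, one_mul, en_B_one, enL_apply, enL_apply]
    rw [enS_succ hn, hl, sum_congr rfl hc, en_sum_erase J f,
      ← add_sum_erase _ _ (empty_mem_powerset J),
      ← add_sum_erase J.powerset _ (empty_mem_powerset J), ← add_assoc]
    congr 1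
    · simp
    · refine sum_congr rfl fun S hS => ?_
      obtain ⟨t, ht⟩ := Nat.exists_eq_succ_of_ne_zero (card_ne_zero.2
        (nonempty_iff_ne_empty.2 (ne_of_mem_erase hS)))
      simp only [f]
      rw [ht, Nat.succ_sub_one, Nat.factorial_succ t]
      push_cast
      ring

lemma en_Alam (B : Mats m g) (lam : Fin (m + 1) → ℚ) (j : Fin g) :
    ∑ a ∈ Ici (0 : Fin (m + 1)), lam a • enB B a j = Alam B lam (enE j) := by
  have : Ici (0 : Fin (m + 1)) = univ := by
    ext a
    simp
  rw [this, Alam, LinearMap.sum_apply]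
  refine sum_congr rfl fun a _ => ?_
  rw [LinearMap.smul_apply, Matrix.toLin'_apply]
  congr 1
  funext b
  simp [enB, enE, qv]

lemma en_VolL_zero (B : Mats m g) (lam : Fin (m + 1) → ℚ) (θ : Module.Dual ℚ (Ex (Fin g → ℚ)))
    {L : List (Ray m g)} (i : Fin (m + 1)) (h : ∀ r ∈ L, r.lab ≠ i) : VolL B lam θ L = 0 := by
  unfold VolL
  refine if_neg fun h' => ?_
  obtain ⟨r, hr, e⟩ := h' i
  exact h r hr e

lemma en_front (B : Mats m g) (lam : Fin (m + 1) → ℚ) (θ : Module.Dual ℚ (Ex (Fin g → ℚ)))
    (p : ℕ) {n : ℕ} {J : Finset (Fin g)} (hn : n = m + J.card)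
    (ω ψ : Module.Dual ℚ (Ex (Fin g → ℚ))) :
    enS n (0 : Fin (m + 1)) J (fun L => ω (dw ((L.take (p + 1)).map Ray.pos)) *
        ψ (enNb (fun _ => 1) 0 L) * VolL B lam θ (L.drop p)) =
      enSg m 0 ^ p * (ψ (nu enE J) *
        EEb (θ ∘ₗ (ExteriorAlgebra.map (Alam B lam)).toLinearMap) p (fun l => ω (wl l))
          (nu enE J)) := by
  induction p generalizing n J ω ψ with
  | zero =>
    have hn' : n + ((0 : Fin (m + 1)) : ℕ) = m + J.card := by simpa using hn
    rw [enS_congr hn' (F' := fun L => ω 1 * (enV lam 0 0 L.tail *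
      (ψ (enNb (fun _ => 1) (0 : Fin (m + 1)) L) * θ (enNb B (0 : Fin (m + 1)) L)))), enS_mul,
      en_back B lam hn', en_back0]
    · have h1 : nu (fun j => ∑ a ∈ Ici (0 : Fin (m + 1)), lam a • enB B a j) J =
          ExteriorAlgebra.map (Alam B lam) (nu enE J) := by
        rw [nu, nu, map_wl, List.map_map]
        congr 2
        funext j
        exact en_Alam B lam j
      rw [h1, EEb]
      simp only [pow_zero, one_mul, wl_nil, LinearMap.smul_apply, LinearMap.comp_apply,
        AlgHom.toLinearMap_apply, smul_eq_mul]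
      ring
    · intro L _ h2
      have h3 : ∀ i, ∃ r ∈ enRay 0 J :: L, r.lab = i := fun i => by
        rcases (Fin.zero_le i).lt_or_eq with h | h
        · obtain ⟨r, hr, e⟩ := h2 i h
          exact ⟨r, List.mem_cons_of_mem _ hr, e⟩
        · exact ⟨_, List.mem_cons_self, h⟩
      have h4 : vf lam (enRay 0 J :: L) = enV lam 0 0 L := by
        have := en_prod_Ici lam (enRay 0 J) L
        rw [en_lab] at this
        rw [← this, vf]
        congr 1
        ext a
        simp
      simp only [List.drop_zero, List.tail_cons, VolL, if_pos h3, h4, zero_add,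
        List.take_succ_cons, List.take_zero, List.map_cons, List.map_nil, dw]
      change _ * ψ (enNb _ 0 _) * (_ * θ (enNb B 0 (enRay 0 J :: L))) =
        _ * (_ * (ψ (enNb _ 0 _) * θ (enNb B 0 (enRay 0 J :: L))))
      ring
  | succ p ih =>
    have hE : EEb (θ ∘ₗ (ExteriorAlgebra.map (Alam B lam)).toLinearMap) (p + 1)
        (fun l => ω (wl l)) (nu enE J) = ∑ j ∈ J, sg j J *
          EEb (θ ∘ₗ (ExteriorAlgebra.map (Alam B lam)).toLinearMap) p
            (fun l => enL ω (enE j) (wl l)) (nu enE (J.erase j)) := by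
      rw [EEb, LinearMap.sum_apply, ← sum_subset (subset_univ J)]
      · refine sum_congr rfl fun j hj => ?_
        rw [LinearMap.comp_apply, ctr_nu, sum_eq_single_of_mem j hj, map_smul]
        · simp [enE, enL_apply]
        · intro a _ ha
          simp [enE, Pi.single_eq_of_ne ha.symm]
      · intro j _ hj
        rw [LinearMap.comp_apply, ctr_nu_eq_zero, map_zero]
        intro a ha
        have : j ≠ a := fun e => hj (e ▸ ha)
        simp [enE, Pi.single_eq_of_ne this]
    rw [hE, mul_sum, mul_sum]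
    cases n with
    | zero =>
      rw [enS_zero, card_eq_zero.1 (show J.card = 0 by omega), sum_empty,
        en_VolL_zero B lam θ 0 (by simp), mul_zero]
    | succ n =>
      rw [enS_succ (by simpa using hn)]
      have hl : (if (0 : Fin (m + 1)) = Fin.last m then 0 else enS n (0 + 1) J fun L =>
          ω (dw (((enRay 0 J :: L).take (p + 1 + 1)).map Ray.pos)) *
            ψ (enNb (fun _ => 1) 0 (enRay 0 J :: L)) *
            VolL B lam θ ((enRay 0 J :: L).drop (p + 1))) = 0 := by
        split_ifs with hi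
        · rfl
        have h0 := en_succ_val hi
        rw [enS_congr (by rw [h0]; simpa using hn) (F' := fun _ => 0 * 0), enS_mul, zero_mul]
        intro L h1 _
        rw [en_VolL_zero B lam θ 0, mul_zero, mul_zero]
        intro r hr e
        have h3 : (0 : Fin (m + 1)) + 1 ≤ r.lab := by
          rcases List.mem_cons.1 (List.mem_of_mem_drop (i := p) hr) with rfl | hs
          · exact le_rfl
          · exact h1 r hs
        rw [e, Fin.le_def] at h3
        omega
      rw [hl, zero_add]
      refine sum_congr rfl fun j hj => ?_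
      have h0 := card_erase_add_one hj
      have hn' : n = m + (J.erase j).card := by omega
      rw [enS_congr (by simpa using hn') (F' := fun L => enSg m 0 *
        (enL ω (enE j) (dw ((L.take (p + 1)).map Ray.pos)) *
          enL ψ (enE j) (enNb (fun _ => 1) 0 L) * VolL B lam θ (L.drop p))), enS_mul, ih hn',
        en_nu_erase enE hj, map_smul, smul_eq_mul, mul_mul_mul_comm, sg_mul_self, one_mul,
        enL_apply, pow_succ', mul_assoc]
      intro L _ _
      have h1 : qv ((enRay (0 : Fin (m + 1)) (J.erase j)).pos - (enRay (0 : Fin (m + 1)) J).pos) =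
          enE j := by
        rw [en_pos_erase 0 hj, add_sub_cancel_left, ← en_B_one (0 : Fin (m + 1)), enB, one_mulVec]
      simp only [List.take_succ_cons, List.map_cons, List.drop_succ_cons, dw]
      rw [h1, en_nb_coord _ _ 0 hj, en_B_one, map_smul, smul_eq_mul, enL_apply, enL_apply]
      ring

lemma en_fund_sub : fund m g (m + 1 + g) ⊆ enC (m + g) 0 univ := by
  intro ρ hρ
  obtain ⟨hg, hb, hc⟩ := mem_fund.1 hρ
  have h0 := hg.nonempty
  rw [base, dif_pos h0] at hb
  have h1 : ρ.min' h0 = enRay 0 univ := by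
    refine Ray.ext' ?_ ?_
    · obtain ⟨r, hr, e⟩ := hg.2 0
      have := ((hg.1 _ (min'_mem ρ h0) r hr).ple_of_le (min'_le _ _ hr)).1
      rw [e] at this
      exact le_antisymm this (Fin.zero_le _)
    · rw [hb]
      funext j
      simp [en_pos]
  refine en_mem_C.2 ⟨fun s hs => ?_, hg.1, by omega, h1 ▸ min'_mem ρ h0,
    fun s hs => h1 ▸ min'_le _ s hs⟩
  refine en_mem_box.2 ⟨s.lab, univ.filter fun j => s.pos j = 0, Ray.ext' rfl ?_⟩
  funext j
  have h2 := hg.1 _ (min'_mem ρ h0) s hs
  have h3 : (ρ.min' h0).pos j ≤ s.pos j := (h2.ple_of_le (min'_le _ _ hs)).2 j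
  have h4 := (h2.2 j).2
  rw [hb, Pi.zero_apply] at h3 h4
  simp only [en_pos, mem_filter, mem_univ, true_and]
  split_ifs <;> omega

theorem enum_eval {p q : ℕ} (hpq : p + q = g) : ∃ κ : ℚ, κ ≠ 0 ∧ ∀ (B : Mats m g)
    (lam : Fin (m + 1) → ℚ) (θ : Module.Dual ℚ (Ex (Fin g → ℚ))) (L : List (Fin g → ℚ)),
    L.length = q →
    ∑ ρ ∈ fund m g (m + 1 + g),
      vol (dw (((ρ.sort (· ≤ ·)).take (p + 1)).map Ray.pos) * wl L) *
        vol (nbar (fun _ => 1) ρ) * VolL B lam θ ((ρ.sort (· ≤ ·)).drop p) =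
      κ * θ (ExteriorAlgebra.map (Alam B lam) (wl L)) := by
  refine ⟨enSg m 0 ^ p * (p.factorial : ℚ), mul_ne_zero (pow_ne_zero _ fun e => ?_)
    (by exact_mod_cast p.factorial_ne_zero), fun B lam θ L hL => ?_⟩
  · have := en_sg_sq m 0
    rw [e, mul_zero] at this
    exact zero_ne_one this
  have h1 := en_front B lam θ p (n := m + g) (J := univ) (by simp)
    (vol ∘ₗ LinearMap.mulRight ℚ (wl L)) vol
  have h2 : nu enE (univ : Finset (Fin g)) = top g := by
    rw [nu, Fin.sort_univ, ← List.ofFn_eq_map, wl_ofFn]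
    rfl
  have h3 := EEb_dual (θ ∘ₗ (ExteriorAlgebra.map (Alam B lam)).toLinearMap) p L (by omega)
  rw [h2, vol_top, one_mul] at h1
  refine (sum_subset en_fund_sub fun ρ hρ hn => ?_).trans (h1.trans ?_)
  · obtain ⟨-, hs, hc, hr, hm⟩ := en_mem_C.1 hρ
    have : ¬∀ i, ∃ r ∈ ρ, r.lab = i := fun h => hn (mem_fund.2 ⟨⟨hs, h⟩, by
      rw [base_eq hr hm]
      funext j
      simp [en_pos], by omega⟩)
    obtain ⟨i, hi⟩ := not_forall.1 this
    rw [en_VolL_zero B lam θ i, mul_zero]
    intro r hr' e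
    exact hi ⟨r, by simpa using List.mem_of_mem_drop hr', e⟩
  · rw [mul_assoc]
    exact congrArg _ h3

end H57T
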