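import Pool.Agent.Lib.MP_e9c0f3_ag.H57T.Zig
import Pool.Agent.Lib.MP_e9c0f3_ag.H57T.Enum

/-! The periodic balanced weight with prescribed class. -/

open ExteriorAlgebra Finset Matrix
open scoped Pointwise

namespace H57T

variable {m g : ℕ}

lemma core_AeI {q : ℕ} (B : Mats m g) (lam : Fin (m + 1) → ℚ) (I : Fin q → Fin g) :
    ExteriorAlgebra.map (Alam B lam) (eI I) = AeI B lam I := by
  rw [eI, map_apply_ιMulti, AeI]
  congr 1
  funext l
  simp only [Function.comp_apply, Alam, LinearMap.sum_apply, LinearMap.smul_apply]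
  refine sum_congr rfl fun i _ => ?_
  congr 1
  funext k
  simp [qv, Matrix.toLin'_apply]

lemma core_end {p q : ℕ} (hpq : p + q = g) : ∃ κ : ℚ, κ ≠ 0 ∧ ∀ (B : Mats m g) (u : Arr g q)
    (lam : Fin (m + 1) → ℚ) (θa θb : Module.Dual ℚ (Ex (Fin g → ℚ))), Hyp B →
    PP B lam θa (m + 1 + g) p (FF B u θb p 0 p) =
      κ * ∑ I, ∑ J, u I J * θa (AeI B lam I) * θb (eI J) := by
  obtain ⟨κ₁, h1, hW⟩ := W_flat (m := m) (g := g) (q := q) p
  obtain ⟨κ₂, h2, hE⟩ := enum_eval (m := m) hpq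
  refine ⟨((-1) ^ (m + 1)) ^ p * κ₁ * p.factorial * κ₂, by positivity, ?_⟩
  intro B u lam θa θb hB
  have heI : ∀ I : Fin q → Fin g, eI I = wl (List.ofFn fun l => (Pi.single (I l) 1 : Fin g → ℚ)) :=
    fun I => by rw [wl_ofFn, eI]
  have h3 : ∀ ρ ∈ fund m g (m + 1 + g),
      FF B u θb p 0 p (((ρ.sort (· ≤ ·)).take (p + 1)).map Ray.pos) ρ =
      ∑ I, ∑ J, ((-1) ^ (m + 1)) ^ p * κ₁ * p.factorial * u I J * θb (eI J) *
        (vol (dw (((ρ.sort (· ≤ ·)).take (p + 1)).map Ray.pos) * eI I) *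
          vol (nbar (fun _ => 1) ρ)) := by
    intro ρ hρ
    obtain ⟨hg, -, hc⟩ := mem_fund.1 hρ
    set cs := ((ρ.sort (· ≤ ·)).take (p + 1)).map Ray.pos with hcs
    have hl : cs.length = p + 1 := by simp [hcs, hc]; omega
    have e1 : FF B u θb p 0 p cs ρ = EE θb p (W B u p cs) (nu (vec fun _ => 1) ρ) := by
      rw [← c0_smul_nu hB hg.1 hc, map_smul]
      simp [FF, T, co]
    have e2 : Dbar (nu (vec fun _ => 1) ρ) = vol (nbar (fun _ => 1) ρ) • top g :=
      Dbar_top (by simp [hc])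
    have e3 : EEb θb p (fun l => W B u p cs (l.map fun x => ((0, x) : Nv m g))) =
        EEb θb p fun l => ∑ x : (Fin q → Fin g) × (Fin q → Fin g),
          (κ₁ * u x.1 x.2 * vol (dw cs * eI x.1)) * vol (wl l * eI x.2) := by
      refine EEb_congr _ _ fun l hl' => ?_
      rw [hW B u cs l hl hl', wf, Fintype.sum_prod_type, mul_sum]
      refine sum_congr rfl fun I _ => ?_
      rw [mul_sum]
      exact sum_congr rfl fun J _ => by ring
    rw [e1, EE_eq_EEb, e2, e3, EEb_sum, map_smul, LinearMap.sum_apply, Fintype.sum_prod_type,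
      smul_eq_mul, mul_sum, mul_sum]
    refine sum_congr rfl fun I _ => ?_
    rw [mul_sum, mul_sum]
    refine sum_congr rfl fun J _ => ?_
    rw [LinearMap.smul_apply, heI J, EEb_dual _ _ _ (by simpa using hpq), smul_eq_mul]
    ring
  rw [PP, sum_congr rfl fun ρ hρ => by rw [h3 ρ hρ, sum_mul], sum_comm, mul_sum]
  refine sum_congr rfl fun I _ => ?_
  simp only [sum_mul]
  rw [sum_comm, mul_sum]
  refine sum_congr rfl fun J _ => ?_
  have := hE B lam θa (List.ofFn fun l => (Pi.single (I l) 1 : Fin g → ℚ)) (by simp)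
  rw [← heI, core_AeI] at this
  simp only [mul_assoc] at this ⊢
  simp only [← mul_sum]
  rw [this]
  ring

theorem core {q : ℕ} {B : Mats m g} {u : Arr g q} (hB : Hyp B) (hu : HodgeE B u) (hq : q ≤ g) :
    ∃ z : Finset (Ray m g) → ℚ,
      (∀ γ ρ, Good ρ → z (shift γ ρ) = z ρ) ∧
      (∀ ρ, Good ρ → ∀ ℓ : Module.Dual ℚ (Nv m g), (∀ r ∈ ρ, ℓ (vec B r) = 0) →
        ∑ s ∈ link ρ, ℓ (vec B s) * z (insert s ρ) = 0) ∧
      ∀ (lam : Fin (m + 1) → ℚ) (θa θb : Module.Dual ℚ (Ex (Fin g → ℚ))),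
        ∑ ρ ∈ fund m g (m + 1 + q), z ρ * θa (nbar B ρ) * θb (nbar B ρ) * vf lam (ρ.sort (· ≤ ·)) =
          ∑ I, ∑ J, u I J * θa (AeI B lam I) * θb (eI J) := by
  obtain ⟨p, hpq⟩ : ∃ p, p + q = g := ⟨g - q, by omega⟩
  obtain ⟨κ, hκ, hend⟩ := core_end (m := m) hpq
  set z : (Fin g → ℤ) → Finset (Ray m g) → ℚ := fun c =>
    T B p fun rs => W B u p (rs.map Ray.pos ++ [c]) (rs.map (vec B)) with hz
  have hind : ∀ c c' ρ, Good ρ → z c ρ = z c' ρ := by
    intro c c' ρ hρ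
    have h1 := T_alt_zero hB p (fun L ns => W B u p (L.map Ray.pos ++ [c, c']) ns)
      (fun L as bs h => W_lin B u _ as bs h) ρ hρ
    have h2 := T_add (B := B) ((-1) ^ p) p
      (fun rs => W B u p (rs.map Ray.pos ++ [c']) (rs.map (vec B)))
      (fun rs => alt rs fun _ L => W B u p (L.map Ray.pos ++ [c, c']) (rs.map (vec B))) ρ
    rw [h1, smul_zero, add_zero] at h2
    simp only [hz]
    rw [← h2]
    refine congrFun (T_congr fun l hl => ?_) ρ
    have h5 := W_cocycle hu hpq (l.map Ray.pos ++ [c, c']) (by simp [hl]) (l.map (vec B))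
    rw [alt_append, alt_map, List.length_map, hl, smul_eq_mul] at h5
    simp only [alt_cons, alt_nil, sub_zero] at h5
    have h6 : ((-1 : ℚ) ^ p) * (-1) ^ p = 1 := by rw [← mul_pow]; simp
    rw [smul_eq_mul]
    linear_combination (-(-1 : ℚ) ^ p) * h5 + (W B u p (l.map Ray.pos ++ [c']) (l.map (vec B)) -
      W B u p (l.map Ray.pos ++ [c]) (l.map (vec B))) * h6
  refine ⟨fun ρ => κ⁻¹ * z 0 ρ, fun γ ρ hρ => ?_, fun ρ hρ ℓ hℓ => ?_, fun lam θa θb => ?_⟩
  · beta_reduce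
    rw [hind 0 (0 + γ) _ (good_shift.2 hρ)]
    simp only [hz]
    rw [T_shift hB γ _ _ _ hρ]
    congr 2
    funext l
    rw [← W_shift B u p γ (l.map Ray.pos ++ [0])]
    simp [vec_sh, Function.comp_def]
  · have := bal_T hB p (fun rs => W B u p (rs.map Ray.pos ++ [0]) (rs.map (vec B))) ρ hρ ℓ hℓ
    simp only [smul_eq_mul] at this
    simp only [hz, mul_left_comm _ κ⁻¹, ← mul_sum, this, mul_zero]
  · have h1 := PP_chain (θ := θb) hB hu hpq (n := m + 1 + q) (by omega) lam θa p 0 (zero_add p)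
    rw [show m + 1 + q + p = m + 1 + g by omega, hend B u lam θa θb hB] at h1
    refine mul_left_cancel₀ hκ ?_
    rw [← h1, PP, mul_sum]
    refine sum_congr rfl fun ρ hρ => ?_
    obtain ⟨hg, hb, -⟩ := mem_fund.1 hρ
    have e1 : ((ρ.sort (· ≤ ·)).take (0 + 1)).map Ray.pos = [0] := by
      have hne := hg.nonempty
      conv_lhs => rw [← insert_erase (min'_mem ρ hne), sort_insert_min fun b hb =>
        lt_of_le_of_ne (min'_le _ _ (mem_of_mem_erase hb)) (ne_of_mem_erase hb).symm]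
      rw [base, dif_pos hne] at hb
      simp [hb]
    have e2 : FF B u θb p p 0 [0] ρ = z 0 ρ * θb (nbar B ρ) := by
      have := map_T (B := B) (LinearMap.mulRight ℚ (θb (nbar B ρ))) p
        (fun rs => W B u p (rs.map Ray.pos ++ [0]) (rs.map (vec B))) ρ
      rw [FF, T_apply]
      simp only [LinearMap.mulRight_apply] at this
      simp only [hz]
      rw [this]
      simp [co, EE, nbar]
    rw [e1, e2, List.drop_zero, VolL, if_pos (fun i => by simpa using hg.2 i)]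
    change κ * (κ⁻¹ * z 0 ρ * θa (nbar B ρ) * θb (nbar B ρ) * _) =
      z 0 ρ * θb (nbar B ρ) * (_ * θa (nbar B ρ))
    field_simp

end H57T
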