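import Pool.Agent.Lib.MP_e9c0f3_ag.H57T.Cx2

open ExteriorAlgebra Finset Matrix
open scoped Pointwise

namespace H57T

variable {m g : ℕ}

/-- The analogue of `EE` on `ℚ^g`. -/
noncomputable def EEb (θ : Module.Dual ℚ (Ex (Fin g → ℚ))) :
    ℕ → (List (Fin g → ℚ) → ℚ) → Module.Dual ℚ (Ex (Fin g → ℚ))
  | 0, ω => ω [] • θ
  | k + 1, ω => ∑ j, EEb θ k (fun l => ω (Pi.single j 1 :: l)) ∘ₗ ctr (LinearMap.proj j)

/-- The wedge of the standard basis. -/
noncomputable def top (g : ℕ) : Ex (Fin g → ℚ) := eI (id : Fin g → Fin g)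

lemma vol_top : vol (top g) = 1 := by
  rw [vol, top, eI, thJ_ιMulti]
  have : (Matrix.of fun l k : Fin g => (Pi.single (id l) (1 : ℚ) : Fin g → ℚ) (id k)) = 1 := by
    ext l k
    simp [Matrix.one_apply, Pi.single_apply, eq_comm]
  rw [this, det_one]

lemma dual_exists_smul {M : Type*} [AddCommGroup M] [Module ℚ M] {n : ℕ}
    (b : Module.Basis (Fin n) ℚ M) {L : List M} (h : L.length = n) :
    ∃ d : ℚ, wl L = d • ιMulti ℚ n b := by
  subst h
  refine ⟨b.det L.get, ?_⟩
  rw [← ιMulti_eq_det, ← wl_ofFn, List.ofFn_get]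

lemma dual_top_eq : top g = ιMulti ℚ g (Pi.basisFun ℚ (Fin g)) := by
  rw [top, eI]
  congr 1
  funext l
  simp

lemma wl_eq_vol_smul {L : List (Fin g → ℚ)} (h : L.length = g) : wl L = vol (wl L) • top g := by
  obtain ⟨d, hd⟩ := dual_exists_smul (Pi.basisFun ℚ (Fin g)) h
  rw [← dual_top_eq] at hd
  rw [hd, map_smul, vol_top, smul_eq_mul, mul_one]

lemma dual_EEb_zero (θ : Module.Dual ℚ (Ex (Fin g → ℚ))) (ω : List (Fin g → ℚ) → ℚ) :
    EEb θ 0 ω = ω [] • θ := rfl

lemma dual_EEb_succ (θ : Module.Dual ℚ (Ex (Fin g → ℚ))) (k : ℕ) (ω : List (Fin g → ℚ) → ℚ) :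
    EEb θ (k + 1) ω =
      ∑ j, EEb θ k (fun l => ω (Pi.single j 1 :: l)) ∘ₗ ctr (LinearMap.proj j) := rfl

lemma dual_EE_succ (θ : Module.Dual ℚ (Ex (Fin g → ℚ))) (k : ℕ) (ω : List (Nv m g) → ℚ) :
    EE θ (k + 1) ω = ∑ b, EE θ k (fun l => ω (bas b :: l)) ∘ₗ ctr (dbas b) := rfl

lemma EE_eq_EEb (θ : Module.Dual ℚ (Ex (Fin g → ℚ))) (k : ℕ) (ω : List (Nv m g) → ℚ)
    (ξ : Ex (Nv m g)) :
    EE θ k ω ξ = ((-1 : ℚ) ^ (m + 1)) ^ k *
      EEb θ k (fun l => ω (l.map fun x => ((0, x) : Nv m g))) (Dbar ξ) := by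
  induction k generalizing ω ξ with
  | zero =>
    have e : EE θ 0 ω = ω [] • (θ ∘ₗ Dbar) := rfl
    rw [e, dual_EEb_zero]
    simp
  | succ k ih =>
    rw [dual_EE_succ, dual_EEb_succ, LinearMap.sum_apply, LinearMap.sum_apply,
      Fintype.sum_sum_type, mul_sum]
    have h1 : ∑ i : Fin (m + 1),
        (EE θ k (fun l => ω (bas (Sum.inl i) :: l)) ∘ₗ ctr (dbas (Sum.inl i))) ξ = 0 := by
      refine sum_eq_zero fun i _ => ?_
      have e : (dbas (Sum.inl i) : Module.Dual ℚ (Nv m g)) = dl i := rfl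
      rw [LinearMap.comp_apply, ih, e, Dbar_ctr_dl, map_zero, mul_zero]
    rw [h1, zero_add]
    refine sum_congr rfl fun j _ => ?_
    rw [LinearMap.comp_apply, LinearMap.comp_apply, ih, Dbar_ctr_inr, map_smul, smul_eq_mul,
      pow_succ _ k, mul_assoc]
    rfl

lemma EEb_congr (θ : Module.Dual ℚ (Ex (Fin g → ℚ))) (k : ℕ) {ω ω' : List (Fin g → ℚ) → ℚ}
    (h : ∀ l, l.length = k → ω l = ω' l) : EEb θ k ω = EEb θ k ω' := by
  induction k generalizing ω ω' with
  | zero => rw [dual_EEb_zero, dual_EEb_zero, h [] rfl]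
  | succ k ih =>
    rw [dual_EEb_succ, dual_EEb_succ]
    refine sum_congr rfl fun j _ => ?_
    rw [ih (ω := fun l => ω (Pi.single j 1 :: l)) (ω' := fun l => ω' (Pi.single j 1 :: l))
      (fun l hl => h _ (by simp [hl]))]

lemma EEb_sum {β : Type*} (θ : Module.Dual ℚ (Ex (Fin g → ℚ))) (k : ℕ) (s : Finset β) (c : β → ℚ)
    (ω : β → List (Fin g → ℚ) → ℚ) :
    EEb θ k (fun l => ∑ b ∈ s, c b * ω b l) = ∑ b ∈ s, c b • EEb θ k (ω b) := by
  induction k generalizing ω with
  | zero =>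
    rw [dual_EEb_zero, sum_smul]
    exact sum_congr rfl fun b _ => by rw [dual_EEb_zero, mul_smul]
  | succ k ih =>
    rw [dual_EEb_succ]
    have h1 : ∀ j : Fin g, EEb θ k (fun l => ∑ b ∈ s, c b * ω b (Pi.single j 1 :: l)) =
        ∑ b ∈ s, c b • EEb θ k (fun l => ω b (Pi.single j 1 :: l)) :=
      fun j => ih (fun b l => ω b (Pi.single j 1 :: l))
    refine LinearMap.ext fun ξ => ?_
    simp only [h1, dual_EEb_succ, LinearMap.sum_apply, LinearMap.comp_apply,
      LinearMap.smul_apply, smul_eq_mul, mul_sum]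
    exact sum_comm

lemma dual_EEb_last (θ : Module.Dual ℚ (Ex (Fin g → ℚ))) (k : ℕ) (ω : List (Fin g → ℚ) → ℚ)
    (ξ : Ex (Fin g → ℚ)) :
    EEb θ (k + 1) ω ξ =
      ∑ j, EEb (θ ∘ₗ ctr (LinearMap.proj j)) k (fun l => ω (l ++ [Pi.single j 1])) ξ := by
  induction k generalizing ω ξ with
  | zero =>
    rw [dual_EEb_succ, LinearMap.sum_apply]
    refine sum_congr rfl fun j _ => ?_
    simp [dual_EEb_zero]
  | succ k ih =>
    rw [dual_EEb_succ, LinearMap.sum_apply]
    simp only [LinearMap.comp_apply, ih]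
    rw [sum_comm]
    refine sum_congr rfl fun j _ => ?_
    rw [dual_EEb_succ, LinearMap.sum_apply]
    refine sum_congr rfl fun i _ => ?_
    simp only [LinearMap.comp_apply, List.cons_append]

lemma dual_sum_single (a : Fin g → ℚ) : ∑ j, a j • (Pi.single j 1 : Fin g → ℚ) = a := by
  ext i
  simp [Finset.sum_apply, Pi.single_apply]

lemma dual_euler (L : List (Fin g → ℚ)) :
    ∑ j, ι ℚ (Pi.single j 1 : Fin g → ℚ) * ctr (LinearMap.proj j) (wl L) =
      (L.length : ℚ) • wl L := by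
  induction L with
  | nil => simp
  | cons a L ih =>
    have h1 : ∀ j : Fin g, ι ℚ (Pi.single j 1 : Fin g → ℚ) * ctr (LinearMap.proj j) (wl (a :: L)) =
        ι ℚ (a j • (Pi.single j 1 : Fin g → ℚ)) * wl L +
          ι ℚ a * (ι ℚ (Pi.single j 1 : Fin g → ℚ) * ctr (LinearMap.proj j) (wl L)) := by
      intro j
      rw [wl_cons, ctr_ι_mul, mul_sub, ι_mul_ι_mul_swap (Pi.single j 1 : Fin g → ℚ) a, map_smul,
        smul_mul_assoc, mul_smul_comm, sub_neg_eq_add]
      rfl
    rw [sum_congr rfl fun j _ => h1 j, sum_add_distrib, ← sum_mul, ← map_sum, dual_sum_single,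
      ← mul_sum, ih, wl_cons, List.length_cons, mul_smul_comm]
    push_cast
    rw [add_smul, one_smul, add_comm]

lemma dual_euler' (L : List (Fin g → ℚ)) :
    ∑ j, ctr (LinearMap.proj j) (ι ℚ (Pi.single j 1 : Fin g → ℚ) * wl L) =
      ((g : ℚ) - L.length) • wl L := by
  have h1 : ∀ j : Fin g, ctr (LinearMap.proj j) (ι ℚ (Pi.single j 1 : Fin g → ℚ) * wl L) =
      wl L - ι ℚ (Pi.single j 1 : Fin g → ℚ) * ctr (LinearMap.proj j) (wl L) := by
    intro j
    rw [ctr_ι_mul]
    simp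
  rw [sum_congr rfl fun j _ => h1 j, sum_sub_distrib, dual_euler, sub_smul, sum_const, card_univ,
    Fintype.card_fin, Nat.cast_smul_eq_nsmul ℚ g]

theorem EEb_dual (θ : Module.Dual ℚ (Ex (Fin g → ℚ))) (k : ℕ) (L : List (Fin g → ℚ))
    (h : k + L.length = g) :
    EEb θ k (fun l => vol (wl l * wl L)) (top g) = (k.factorial : ℚ) * θ (wl L) := by
  induction k generalizing θ L with
  | zero =>
    rw [dual_EEb_zero]
    have h' : L.length = g := by omega
    conv_rhs => rw [wl_eq_vol_smul h']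
    simp
  | succ k ih =>
    rw [dual_EEb_last]
    have h1 : ∀ j : Fin g, EEb (θ ∘ₗ ctr (LinearMap.proj j)) k
        (fun l => vol (wl (l ++ [Pi.single j 1]) * wl L)) (top g) =
          (k.factorial : ℚ) *
            θ (ctr (LinearMap.proj j) (ι ℚ (Pi.single j 1 : Fin g → ℚ) * wl L)) := by
      intro j
      have := ih (θ ∘ₗ ctr (LinearMap.proj j)) (Pi.single j 1 :: L) (by simp; omega)
      rw [LinearMap.comp_apply, wl_cons] at this
      rw [← this]
      congr 2
      funext l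
      rw [wl_append, wl_cons, wl_nil, mul_one, mul_assoc]
    have hg : (g : ℚ) - L.length = k + 1 := by
      have : ((k + 1 + L.length : ℕ) : ℚ) = g := by exact_mod_cast h
      push_cast at this
      linarith
    rw [sum_congr rfl fun j _ => h1 j, ← mul_sum, ← map_sum, dual_euler', map_smul, smul_eq_mul,
      Nat.factorial_succ, hg]
    push_cast
    ring

lemma dual_DL (S : List (Fin (m + 1))) (hS : S.Nodup) (B : List (Nv m g))
    (hB : ∀ i, ∀ a ∈ B, dl i a = 0) :
    DL S (wl (S.map (fun i => (bas (Sum.inl i) : Nv m g)) ++ B)) = wl B := by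
  induction S with
  | nil => rfl
  | cons i S ih =>
    have e : (DL (i :: S) : Ex (Nv m g) →ₗ[ℚ] Ex (Nv m g)) = DL S ∘ₗ ctr (dl i) := rfl
    rw [List.nodup_cons] at hS
    have h0 : ctr (dl i) (wl (S.map (fun i => (bas (Sum.inl i) : Nv m g)) ++ B)) = 0 := by
      apply ctr_wl_eq_zero
      intro a ha
      rcases List.mem_append.1 ha with ha | ha
      · obtain ⟨j, hj, rfl⟩ := List.mem_map.1 ha
        have hne : i ≠ j := fun hij => hS.1 (hij ▸ hj)
        simp [dl, bas, Pi.single_eq_of_ne hne]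
      · exact hB i a ha
    have h1 : dl i (bas (Sum.inl i) : Nv m g) = 1 := by simp [dl, bas]
    rw [e, List.map_cons, List.cons_append, wl_cons, LinearMap.comp_apply, ctr_ι_mul, h0, h1,
      one_smul, mul_zero, sub_zero, ih hS.2]

/-- The list of all basis vectors. -/
def dual_T (m g : ℕ) : List (Nv m g) :=
  (List.finRange (m + 1)).map (fun i => bas (Sum.inl i)) ++
    (List.finRange g).map (fun j => bas (Sum.inr j))

lemma dual_Dbar_T : Dbar (wl (dual_T m g)) = top g := by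
  have h := dual_DL (List.finRange (m + 1)) (List.nodup_finRange _)
    ((List.finRange g).map (fun j => (bas (Sum.inr j) : Nv m g))) (by
      intro i a ha
      obtain ⟨j, -, rfl⟩ := List.mem_map.1 ha
      simp [dl, bas])
  rw [Dbar, LinearMap.comp_apply, dual_T, h, AlgHom.toLinearMap_apply, map_wl, List.map_map,
    ← List.ofFn_eq_map, wl_ofFn, top, eI]
  rfl

lemma dual_wl_eq {L : List (Nv m g)} (h : L.length = m + 1 + g) :
    wl L = vol (Dbar (wl L)) • wl (dual_T m g) := by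
  have hr : Module.finrank ℚ (Nv m g) = m + 1 + g := by simp [Module.finrank_prod]
  let b := Module.finBasisOfFinrankEq ℚ (Nv m g) hr
  obtain ⟨d, hd⟩ := dual_exists_smul b h
  obtain ⟨e, he⟩ := dual_exists_smul b (L := dual_T m g) (by simp [dual_T])
  have he0 : e ≠ 0 := by
    intro h0
    have := vol_top (g := g)
    rw [← dual_Dbar_T (m := m), he, h0] at this
    simp at this
  have h1 : wl L = (d / e) • wl (dual_T m g) := by
    rw [hd, he, smul_smul, div_mul_cancel₀ _ he0]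
  have h2 : vol (Dbar (wl L)) = d / e := by
    rw [h1, map_smul, map_smul, dual_Dbar_T, vol_top, smul_eq_mul, mul_one]
  rw [h2]
  exact h1

lemma Dbar_top {L : List (Nv m g)} (h : L.length = m + 1 + g) :
    Dbar (wl L) = vol (Dbar (wl L)) • top g := by
  have h1 := congrArg Dbar (dual_wl_eq h)
  rw [map_smul, dual_Dbar_T] at h1
  exact h1

lemma wl_top_ratio {L L' : List (Nv m g)} (h : L.length = m + 1 + g) (h' : L'.length = m + 1 + g)
    (h0 : wl L ≠ 0) : (vol (Dbar (wl L')) / vol (Dbar (wl L))) • wl L = wl L' := by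
  have h1 := dual_wl_eq h
  have h2 := dual_wl_eq h'
  have hd : vol (Dbar (wl L)) ≠ 0 := by
    intro hz
    rw [hz, zero_smul] at h1
    exact h0 h1
  generalize vol (Dbar (wl L)) = d at h1 hd
  generalize vol (Dbar (wl L')) = d' at h2
  rw [h1, h2, smul_smul, div_mul_cancel₀ _ hd]

end H57T
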