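import Pool.Agent.Lib.MP_e9c0f3_ag.H57T.Cx1
import Pool.Agent.Lib.MP_e9c0f3_ag.H57T.Dual

/-! Corner loci of Courant functions on balanced weights. -/

open ExteriorAlgebra Finset Matrix

namespace H57T

variable {m g : ℕ} {V V' : Type*} [AddCommGroup V] [Module ℚ V] [AddCommGroup V'] [Module ℚ V']
  {B : Mats m g} {ρ : Finset (Ray m g)}

open Classical in
noncomputable def coord (B : Mats m g) (ρ : Finset (Ray m g)) (r : Ray m g) :
    Module.Dual ℚ (Nv m g) :=
  if h : ∃ φ : Module.Dual ℚ (Nv m g), φ (vec B r) = 1 ∧ ∀ s ∈ ρ, s ≠ r → φ (vec B s) = 0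
  then h.choose else 0

lemma coord_vec (hB : Hyp B) (hρ : Simp ρ) {r s : Ray m g} (hr : r ∈ ρ) (hs : s ∈ ρ) :
    coord B ρ r (vec B s) = if s = r then 1 else 0 := by
  have h := coord_exists hB hρ hr
  rw [coord, dif_pos h]
  split_ifs with e
  · rw [e]; exact h.choose_spec.1
  · exact h.choose_spec.2 s hs e

/-- The balancing condition at `ρ`. -/
def Bal (B : Mats m g) (z : Finset (Ray m g) → V) (ρ : Finset (Ray m g)) : Prop :=
  ∀ ℓ : Module.Dual ℚ (Nv m g), (∀ r ∈ ρ, ℓ (vec B r) = 0) →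
    ∑ s ∈ link ρ, ℓ (vec B s) • z (insert s ρ) = 0

def Balanced (B : Mats m g) (z : Finset (Ray m g) → V) : Prop := ∀ ρ, Good ρ → Bal B z ρ

/-- The corner locus of the Courant function of the ray `r`. -/
noncomputable def X (B : Mats m g) (r : Ray m g) (z : Finset (Ray m g) → V)
    (ρ : Finset (Ray m g)) : V :=
  if r ∈ ρ then -∑ s ∈ link ρ, coord B ρ r (vec B s) • z (insert s ρ) else z (insert r ρ)

lemma sum_star (hρ : Simp ρ) {N : Type*} [AddCommMonoid N] (f : Ray m g → N) :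
    ∑ r ∈ star ρ, f r = ∑ r ∈ link ρ, f r + ∑ r ∈ ρ, f r :=
  (sum_sdiff hρ.subset_star).symm

lemma X_of_mem {r : Ray m g} (hr : r ∈ ρ) (z : Finset (Ray m g) → V) :
    X B r z ρ = -∑ s ∈ link ρ, coord B ρ r (vec B s) • z (insert s ρ) := if_pos hr

lemma notMem_of_link {s : Ray m g} (hs : s ∈ link ρ) : s ∉ ρ := (mem_sdiff.1 hs).2

lemma X_of_link {r : Ray m g} (hr : r ∈ link ρ) (z : Finset (Ray m g) → V) :
    X B r z ρ = z (insert r ρ) := if_neg (notMem_of_link hr)

lemma X_eq (hB : Hyp B) (hρ : Simp ρ) {z : Finset (Ray m g) → V} (hz : Bal B z ρ) {r : Ray m g}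
    (hr : r ∈ ρ) (c : ℚ) (κ : Module.Dual ℚ (Nv m g))
    (hκ : ∀ s ∈ ρ, κ (vec B s) = if s = r then c else 0) :
    c • X B r z ρ = -∑ s ∈ link ρ, κ (vec B s) • z (insert s ρ) := by
  have := hz (c • coord B ρ r - κ) (fun s hs => by
    simp only [LinearMap.sub_apply, LinearMap.smul_apply, coord_vec hB hρ hr hs, hκ s hs]
    split_ifs <;> simp)
  simp only [LinearMap.sub_apply, LinearMap.smul_apply, sub_smul, sum_sub_distrib,
    smul_eq_mul, mul_smul] at this
  rw [X_of_mem hr, smul_neg, smul_sum, sub_eq_zero.1 this]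

lemma bal_expand (hB : Hyp B) (hρ : Simp ρ) {z : Finset (Ray m g) → V} (hz : Bal B z ρ)
    (L : Nv m g →ₗ[ℚ] V →ₗ[ℚ] V') :
    ∑ s ∈ link ρ, L (vec B s) (z (insert s ρ)) = -∑ t ∈ ρ, L (vec B t) (X B t z ρ) := by
  set P : Nv m g →ₗ[ℚ] Nv m g :=
    LinearMap.id - ∑ t ∈ ρ, (coord B ρ t).smulRight (vec B t) with hP
  have hPa : ∀ n, P n = n - ∑ t ∈ ρ, coord B ρ t n • vec B t := fun n => by
    simp [hP, LinearMap.sum_apply]
  have hP0 : ∀ r ∈ ρ, P (vec B r) = 0 := fun r hr => by
    rw [hPa, sum_eq_single r]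
    · rw [coord_vec hB hρ hr hr]; simp
    · intro t ht hne
      rw [coord_vec hB hρ ht hr, if_neg hne.symm, zero_smul]
    · intro h; exact absurd hr h
  have h1 : ∑ s ∈ link ρ, L (P (vec B s)) (z (insert s ρ)) = 0 := by
    have : ∀ s, L (P (vec B s)) (z (insert s ρ)) =
        ∑ b, L (bas b) (((dbas b ∘ₗ P) (vec B s)) • z (insert s ρ)) := fun s => by
      conv_lhs => rw [← sum_dbas_smul_bas (P (vec B s))]
      simp [map_sum, LinearMap.sum_apply]
    simp only [this]
    rw [sum_comm]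
    refine sum_eq_zero fun b _ => ?_
    rw [← map_sum, hz (dbas b ∘ₗ P) (fun r hr => by simp [hP0 r hr]), map_zero]
  simp only [hPa, map_sub, map_sum, map_smul, LinearMap.sub_apply, LinearMap.sum_apply,
    LinearMap.smul_apply, sum_sub_distrib] at h1
  rw [sub_eq_zero.1 h1, sum_comm, ← sum_neg_distrib]
  refine sum_congr rfl fun t ht => ?_
  rw [X_of_mem ht, map_neg, neg_neg, map_sum]
  simp

lemma lin_X (hB : Hyp B) (hρ : Simp ρ) {z : Finset (Ray m g) → V} (hz : Bal B z ρ)
    (ℓ : Module.Dual ℚ (Nv m g)) : ∑ r ∈ star ρ, ℓ (vec B r) • X B r z ρ = 0 := by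
  have := bal_expand hB hρ hz (ℓ.smulRight (LinearMap.id : V →ₗ[ℚ] V))
  simp only [LinearMap.smulRight_apply, LinearMap.smul_apply, LinearMap.id_apply] at this
  rw [sum_star hρ, sum_congr rfl fun r hr => by rw [X_of_link hr], this, neg_add_cancel]

lemma link_swap (hρ : ρ.Nonempty) {N : Type*} [AddCommMonoid N] (f : Ray m g → Ray m g → N) :
    ∑ s ∈ link ρ, ∑ t ∈ link (insert s ρ), f s t =
      ∑ t ∈ link ρ, ∑ s ∈ link (insert t ρ), f s t := by
  apply sum_comm'
  intro s t
  simp only [mem_link hρ, mem_link (insert_nonempty _ ρ), mem_insert, forall_eq_or_imp, not_or]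
  constructor
  · rintro ⟨⟨h1, h2⟩, ⟨h3, h4⟩, h5, h6⟩
    exact ⟨⟨⟨h3.symm, h1⟩, Ne.symm h5, h2⟩, h4, h6⟩
  · rintro ⟨⟨⟨h3, h1⟩, h5, h2⟩, h4, h6⟩
    exact ⟨⟨h1, h2⟩, ⟨h3.symm, h4⟩, Ne.symm h5, h6⟩

lemma bal_corner (hB : Hyp B) {z : Ray m g → Finset (Ray m g) → V}
    (hz : ∀ r, Balanced B (z r)) : Balanced B fun ρ => ∑ r ∈ star ρ, X B r (z r) ρ := by
  intro ρ hρ ℓ hℓ
  have key : ∀ s ∈ link ρ, ℓ (vec B s) • ∑ r ∈ star (insert s ρ), X B r (z r) (insert s ρ) =
      ∑ t ∈ link (insert s ρ), (ℓ (vec B s) • z t (insert t (insert s ρ)) -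
        ℓ (vec B t) • z s (insert t (insert s ρ))) -
      ∑ r ∈ ρ, ∑ t ∈ link (insert s ρ), (ℓ (vec B s) * coord B ρ r (vec B t) -
        coord B ρ r (vec B s) * ℓ (vec B t)) • z r (insert t (insert s ρ)) := by
    intro s hs
    have hg := hρ.insert hs
    have hn := notMem_of_link hs
    rw [sum_star hg.1, sum_insert hn, smul_add, smul_add, smul_sum, smul_sum,
      X_eq hB hg.1 (hz s _ hg) (mem_insert_self s ρ) _ ℓ, sum_sub_distrib, sub_eq_add_neg,
      sub_eq_add_neg, add_assoc, ← sum_neg_distrib (s := ρ)]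
    · congr 1
      · exact sum_congr rfl fun t ht => by rw [X_of_link ht]
      · congr 1
        refine sum_congr rfl fun r hr => ?_
        rw [X_eq hB hg.1 (hz r _ hg) (mem_insert_of_mem hr) _
          (ℓ (vec B s) • coord B ρ r - coord B ρ r (vec B s) • ℓ)]
        · simp
        · intro t ht
          rcases mem_insert.1 ht with rfl | ht
          · rw [if_neg (fun e : t = r => hn (e ▸ hr))]; simp [mul_comm]
          · simp [coord_vec hB hρ.1 hr ht, hℓ t ht]
    · intro t ht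
      rcases mem_insert.1 ht with rfl | ht
      · simp
      · rw [if_neg (fun e : t = s => hn (e ▸ ht)), hℓ t ht]
  rw [sum_congr rfl key, sum_sub_distrib, sum_comm (s := link ρ) (t := ρ)]
  have h1 : ∑ s ∈ link ρ, ∑ t ∈ link (insert s ρ), (ℓ (vec B s) • z t (insert t (insert s ρ)) -
      ℓ (vec B t) • z s (insert t (insert s ρ))) = 0 := by
    simp only [sum_sub_distrib]
    rw [link_swap hρ.nonempty, sub_eq_zero]
    exact sum_congr rfl fun s _ => sum_congr rfl fun t _ => by rw [Finset.insert_comm]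
  rw [h1, zero_sub, neg_eq_zero]
  refine sum_eq_zero fun r _ => ?_
  simp only [sub_smul, sum_sub_distrib]
  rw [link_swap hρ.nonempty, sub_eq_zero]
  exact sum_congr rfl fun s _ => sum_congr rfl fun t _ => by rw [Finset.insert_comm, mul_comm]

lemma nu_vec_ne_zero (hB : Hyp B) (hρ : Simp ρ) : nu (vec B) ρ ≠ 0 :=
  nu_ne_zero fun _ hr => coord_exists hB hρ hr

/-- The fundamental weight. -/
noncomputable def c0 (B : Mats m g) (ρ : Finset (Ray m g)) : ℚ :=
  if ρ.card = m + 1 + g then vol (nbar (fun _ => 1) ρ) / vol (nbar B ρ) else 0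

lemma c0_smul_nu (hB : Hyp B) (hρ : Simp ρ) (hc : ρ.card = m + 1 + g) :
    c0 B ρ • nu (vec B) ρ = nu (vec fun _ => 1) ρ := by
  rw [c0, if_pos hc]
  exact wl_top_ratio (by simp [hc]) (by simp [hc]) (nu_vec_ne_zero hB hρ)

lemma bal_c0 (hB : Hyp B) (v : V) : Balanced B fun ρ => c0 B ρ • v := by
  intro ρ hρ ℓ hℓ
  simp only [smul_smul]
  rw [← sum_smul]
  suffices h : ∑ s ∈ link ρ, ℓ (vec B s) * c0 B (insert s ρ) = 0 by rw [h, zero_smul]
  by_cases hc : ρ.card + 1 = m + 1 + g
  · have h1 : ∀ s ∈ link ρ, (ℓ (vec B s) * c0 B (insert s ρ)) • nu (vec B) ρ =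
        ctr ℓ (ι ℚ (vec (fun _ => 1) s) * nu (vec fun _ => 1) ρ) := by
      intro s hs
      have hn := notMem_of_link hs
      have h2 := c0_smul_nu hB (hρ.insert hs).1 (by rw [card_insert_of_notMem hn, hc])
      rw [nu_insert _ hn, nu_insert _ hn, smul_comm] at h2
      have h3 := congrArg (fun x => sg s ρ • x) h2
      simp only [smul_smul, ← mul_assoc, sg_mul_self, one_mul, one_smul] at h3
      rw [← h3, map_smul, ctr_ι_mul, ctr_nu_eq_zero hℓ, mul_zero, sub_zero, smul_smul, mul_comm]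
    have h4 : (∑ s ∈ link ρ, ℓ (vec B s) * c0 B (insert s ρ)) • nu (vec B) ρ = 0 := by
      rw [sum_smul, sum_congr rfl h1]
      refine (Module.forall_dual_apply_eq_zero_iff ℚ _).1 fun ψ => ?_
      have := link_sum hρ (ψ ∘ₗ ctr ℓ ∘ₗ LinearMap.mulRight ℚ (nu (vec fun _ => 1) ρ) ∘ₗ ι ℚ)
        (fun r hr => by simp [ι_mul_nu_of_mem _ hr])
      simpa [map_sum] using this
    exact (smul_eq_zero.1 h4).resolve_right (nu_vec_ne_zero hB hρ.1)
  · refine sum_eq_zero fun s hs => ?_
    rw [c0, if_neg (by rw [card_insert_of_notMem (notMem_of_link hs)]; exact hc), mul_zero]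

/-- Iterated corner loci with coefficients `a`; the last ray of the list acts last. -/
noncomputable def T (B : Mats m g) : ℕ → (List (Ray m g) → V) → Finset (Ray m g) → V
  | 0, a, ρ => c0 B ρ • a []
  | j + 1, a, ρ => ∑ r ∈ star ρ, X B r (T B j fun l => a (l ++ [r])) ρ

lemma T_succ (j : ℕ) (a : List (Ray m g) → V) (ρ : Finset (Ray m g)) :
    T B (j + 1) a ρ = ∑ r ∈ star ρ, X B r (T B j fun l => a (l ++ [r])) ρ := rfl

lemma bal_T (hB : Hyp B) (j : ℕ) (a : List (Ray m g) → V) : Balanced B (T B j a) := by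
  induction j generalizing a with
  | zero => exact bal_c0 hB _
  | succ j ih => exact bal_corner hB fun r => ih _

lemma map_X (φ : V →ₗ[ℚ] V') (r : Ray m g) (z : Finset (Ray m g) → V) :
    φ (X B r z ρ) = X B r (fun σ => φ (z σ)) ρ := by
  unfold X; split_ifs <;> simp [map_sum]

lemma map_T (φ : V →ₗ[ℚ] V') (j : ℕ) (a : List (Ray m g) → V) (ρ : Finset (Ray m g)) :
    φ (T B j a ρ) = T B j (fun l => φ (a l)) ρ := by
  induction j generalizing a ρ with
  | zero => simp [T]
  | succ j ih =>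
    simp only [T_succ, map_sum, map_X]
    exact sum_congr rfl fun r _ => by simp only [ih]

lemma X_sum {β : Type*} (s : Finset β) (c : β → ℚ) (r : Ray m g) (z : β → Finset (Ray m g) → V) :
    X B r (fun σ => ∑ b ∈ s, c b • z b σ) ρ = ∑ b ∈ s, c b • X B r (z b) ρ := by
  unfold X
  split_ifs
  · simp only [smul_sum, smul_neg, sum_neg_distrib]
    rw [sum_comm]
    exact congrArg _ (sum_congr rfl fun _ _ => sum_congr rfl fun _ _ => smul_comm _ _ _)
  · rfl

lemma T_sum {β : Type*} (s : Finset β) (c : β → ℚ) (j : ℕ) (a : β → List (Ray m g) → V)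
    (ρ : Finset (Ray m g)) :
    T B j (fun l => ∑ b ∈ s, c b • a b l) ρ = ∑ b ∈ s, c b • T B j (a b) ρ := by
  induction j generalizing a ρ with
  | zero => simp only [T, smul_sum]; exact sum_congr rfl fun _ _ => smul_comm _ _ _
  | succ j ih =>
    simp only [T_succ, smul_sum]
    rw [sum_comm]
    refine sum_congr rfl fun r _ => ?_
    rw [← X_sum]
    congr 1
    funext σ
    exact ih _ _

lemma T_add (c : ℚ) (j : ℕ) (a a' : List (Ray m g) → V) (ρ : Finset (Ray m g)) :
    T B j (fun l => a l + c • a' l) ρ = T B j a ρ + c • T B j a' ρ := by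
  have := T_sum (B := B) (univ : Finset (Fin 2)) ![1, c] j ![a, a'] ρ
  simpa [Fin.sum_univ_two] using this

lemma T_congr {j : ℕ} {a a' : List (Ray m g) → V} (h : ∀ l, l.length = j → a l = a' l) :
    T B j a = T B j a' := by
  induction j generalizing a a' with
  | zero => funext ρ; simp only [T, h [] rfl]
  | succ j ih =>
    funext ρ
    simp only [T_succ]
    refine sum_congr rfl fun r _ => ?_
    rw [ih fun l hl => h _ (by simp [hl])]

lemma T_alt {α : Type*} (j : ℕ) (L : List α) (a : List α → List (Ray m g) → V)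
    (ρ : Finset (Ray m g)) :
    alt L (fun _ L' => T B j (a L') ρ) = T B j (fun l => alt L fun _ L' => a L' l) ρ := by
  induction L generalizing a with
  | nil =>
    have := T_sum (B := B) (∅ : Finset Unit) (fun _ => 0) j (fun _ _ => (0 : V)) ρ
    simpa using this.symm
  | cons b L ih =>
    simp only [alt_cons]
    rw [ih fun L' => a (b :: L')]
    have := T_add (B := B) (-1) j (a L) (fun l => alt L fun _ L' => a (b :: L') l) ρ
    simpa [sub_eq_add_neg] using this.symm

lemma X_congr (hρ : Good ρ) {r : Ray m g} (hr : r ∈ star ρ) {z z' : Finset (Ray m g) → V}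
    (h : ∀ σ, Good σ → z σ = z' σ) : X B r z ρ = X B r z' ρ := by
  unfold X
  split_ifs with hrρ
  · exact congrArg _ (sum_congr rfl fun s hs => by rw [h _ (hρ.insert hs)])
  · exact h _ (hρ.insert (mem_sdiff.2 ⟨hr, hrρ⟩))

lemma T_alt_zero (hB : Hyp B) (j : ℕ) (Φ : List (Ray m g) → List (Nv m g) → V)
    (hΦ : ∀ L as bs, as.length < j → IsLinearMap ℚ fun n => Φ L (as ++ n :: bs))
    (ρ : Finset (Ray m g)) (hρ : Good ρ) :
    T B j (fun rs => alt rs fun _ L => Φ L (rs.map (vec B))) ρ = 0 := by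
  induction j generalizing Φ ρ with
  | zero => simp [T]
  | succ j ih =>
    rw [T_succ]
    have h1 : ∀ r ∈ star ρ, X B r (T B j fun l => alt (l ++ [r]) fun _ L =>
        Φ L ((l ++ [r]).map (vec B))) ρ = ∑ b, (dbas b (vec B r) * (-1) ^ j) •
          X B r (T B j fun l => Φ l (l.map (vec B) ++ [bas b])) ρ := by
      intro r hr
      rw [← X_sum]
      refine X_congr hρ hr fun σ hσ => ?_
      rw [← T_sum]
      have h2 := ih (fun L ns => Φ (L ++ [r]) (ns ++ [vec B r])) (fun L as bs h => by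
        simpa using hΦ (L ++ [r]) as (bs ++ [vec B r]) (by omega)) σ hσ
      have h3 := T_add (B := B) 1 j (fun rs => alt rs fun _ L =>
        Φ (L ++ [r]) (rs.map (vec B) ++ [vec B r]))
        (fun l => ∑ b, (dbas b (vec B r) * (-1) ^ j) • Φ l (l.map (vec B) ++ [bas b])) σ
      rw [h2, zero_add, one_smul] at h3
      rw [← h3]
      refine congrFun (T_congr fun l hl => ?_) σ
      rw [alt_append]
      simp only [List.map_append, List.map_cons, List.map_nil, alt_cons, alt_nil, sub_zero,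
        List.append_nil, one_smul, hl]
      congr 1
      have h4 := hΦ l (l.map (vec B)) [] (by simp [hl])
      conv_lhs => rw [← sum_dbas_smul_bas (vec B r)]
      rw [show Φ l (l.map (vec B) ++ [∑ b, dbas b (vec B r) • bas b]) =
        h4.mk' _ (∑ b, dbas b (vec B r) • bas b) from rfl, map_sum, smul_sum]
      refine sum_congr rfl fun b _ => ?_
      rw [map_smul, smul_smul, mul_comm]
      rfl
    rw [sum_congr rfl h1, sum_comm]
    refine sum_eq_zero fun b _ => ?_
    have := lin_X hB hρ.1 (bal_T hB j (fun l => Φ l (l.map (vec B) ++ [bas b])) ρ hρ)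
      (((-1 : ℚ) ^ j) • dbas b)
    simpa [mul_comm] using this

lemma T_shift (hB : Hyp B) (γ : Fin g → ℤ) (j : ℕ) (a : List (Ray m g) → V)
    (ρ : Finset (Ray m g)) (hρ : Good ρ) :
    T B j a (shift γ ρ) = T B j (fun l => a (l.map (sh γ))) ρ := by
  induction j generalizing a ρ with
  | zero => simp [T, c0, nbar_shift]
  | succ j ih =>
    rw [T_succ, T_succ, star_shift γ hρ.nonempty, sum_shift]
    refine sum_congr rfl fun r hr => ?_
    simp only [List.map_append, List.map_cons, List.map_nil]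
    by_cases hrρ : r ∈ ρ
    · have := X_eq hB hρ.1 (bal_T hB j (fun l => a (l.map (sh γ) ++ [sh γ r])) ρ hρ) hrρ 1
        (coord B (shift γ ρ) (sh γ r) ∘ₗ shear B γ) (fun s hs => by
          rw [LinearMap.comp_apply, ← vec_sh, coord_vec hB (simp_shift.2 hρ.1)
            (sh_mem_shift.2 hrρ) (sh_mem_shift.2 hs)]
          simp [(sh_injective γ).eq_iff])
      rw [one_smul] at this
      rw [this, X_of_mem (sh_mem_shift.2 hrρ), link_shift γ hρ.nonempty, sum_shift]
      refine congrArg _ (sum_congr rfl fun s hs => ?_)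
      rw [← shift_insert, ih _ _ (hρ.insert hs), LinearMap.comp_apply, vec_sh]
    · have hl : r ∈ link ρ := mem_sdiff.2 ⟨hr, hrρ⟩
      rw [X_of_link hl, X, if_neg (mt sh_mem_shift.1 hrρ), ← shift_insert, ih _ _ (hρ.insert hl)]

end H57T
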