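import Pool.Agent.Lib.MP_e9c0f3_ag.H57T.Base

open ExteriorAlgebra Finset Matrix
open scoped Pointwise

namespace H57T

variable {m g : ℕ}

lemma cx1_lab_le {r s : Ray m g} (h : r ≤ s) : r.lab ≤ s.lab := by
  rcases Ray.le_iff.1 h with h | h
  · exact h.le
  · exact h.1.le

lemma cx1_lt_of_ple {r s : Ray m g} (h : ple r s) (hne : r ≠ s) : r < s :=
  lt_of_le_of_ne h.le hne

lemma cx1_pos {r s : Ray m g} (h : ple r s) (j : Fin g) : r.pos j ≤ s.pos j := h.2 j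

lemma cx1_ple {r s : Ray m g} (h1 : r.lab ≤ s.lab) (h2 : ∀ j, r.pos j ≤ s.pos j) : ple r s :=
  ⟨h1, h2⟩

/-- The rays of one label are affinely independent. -/
lemma cx1_fibre (i : Fin (m + 1)) (c : Ray m g → ℝ) (σ : Finset (Ray m g)) (hσ : Simp σ)
    (hl : ∀ r ∈ σ, r.lab = i) (h1 : ∑ r ∈ σ, c r = 0)
    (h2 : ∀ j, ∑ r ∈ σ, c r * (r.pos j : ℝ) = 0) : ∀ r ∈ σ, c r = 0 := by
  induction σ using Finset.induction_on_max with
  | empty => simp
  | insert a τ hlt ih =>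
    have ha : a ∉ τ := fun ha => lt_irrefl _ (hlt a ha)
    rw [sum_insert ha] at h1
    have hca : c a = 0 := by
      rcases τ.eq_empty_or_nonempty with rfl | hne
      · simpa using h1
      · have hb := τ.max'_mem hne
        set b := τ.max' hne with hbdef
        have hba : ple b a :=
          (hσ b (mem_insert_of_mem hb) a (mem_insert_self _ _)).ple_of_le (hlt b hb).le
        have hne' : b.pos ≠ a.pos := fun e =>
          (hlt b hb).ne (Ray.ext' ((hl b (mem_insert_of_mem hb)).trans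
            (hl a (mem_insert_self _ _)).symm) e)
        obtain ⟨j, hj⟩ := Function.ne_iff.1 hne'
        have hj' : b.pos j < a.pos j := lt_of_le_of_ne (cx1_pos hba j) hj
        have hall : ∀ r ∈ τ, (r.pos j : ℝ) = (a.pos j : ℝ) - 1 := by
          intro r hr
          have e1 : ple r b :=
            (hσ r (mem_insert_of_mem hr) b (mem_insert_of_mem hb)).ple_of_le (τ.le_max' r hr)
          have e2 := cx1_pos e1 j
          have e3 := ((hσ r (mem_insert_of_mem hr) a (mem_insert_self _ _)).2 j).2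
          have e4 : r.pos j = a.pos j - 1 := by omega
          rw [e4]; push_cast; ring
        have h3 := h2 j
        rw [sum_insert ha, sum_congr rfl (fun r hr => by rw [hall r hr]), ← sum_mul] at h3
        have h4 : ∑ r ∈ τ, c r = -c a := by linarith
        rw [h4] at h3
        linarith
    intro r hr
    rcases mem_insert.1 hr with rfl | hr
    · exact hca
    · refine ih (hσ.mono (subset_insert _ _)) (fun r hr => hl r (mem_insert_of_mem hr))
        (by linarith) (fun j => ?_) r hr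
      have h3 := h2 j
      rw [sum_insert ha, hca, zero_mul, zero_add] at h3
      exact h3

lemma cx1_two {σ : Finset (Ray m g)} {c : Ray m g → ℝ} (j : Fin g) (h1 : ∑ r ∈ σ, c r = 0)
    (h2 : ∑ r ∈ σ, c r * (r.pos j : ℝ) ≠ 0) : ∃ r ∈ σ, ∃ s ∈ σ, r.pos j < s.pos j := by
  by_contra hcon
  push Not at hcon
  apply h2
  rcases σ.eq_empty_or_nonempty with rfl | ⟨a, ha⟩
  · simp
  · have hall : ∀ r ∈ σ, (r.pos j : ℝ) = (a.pos j : ℝ) := fun r hr => by
      rw [le_antisymm (hcon a ha r hr) (hcon r hr a ha)]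
    rw [sum_congr rfl (fun r hr => by rw [hall r hr]), ← sum_mul, h1, zero_mul]

lemma cx1_zv_mulVec (A : Matrix (Fin g) (Fin g) ℤ) (v : Fin g → ℤ) :
    zv (A *ᵥ v) = A.map (Int.cast : ℤ → ℝ) *ᵥ zv v := by
  ext i; simp [zv, mulVec, dotProduct]

lemma indepR {B : Mats m g} (hB : Hyp B) {ρ : Finset (Ray m g)} (hρ : Simp ρ) (c : Ray m g → ℝ)
    (h1 : ∀ i, ∑ r ∈ ρ.filter (·.lab = i), c r = 0)
    (h2 : ∑ r ∈ ρ, c r • zv (B r.lab *ᵥ r.pos) = 0) : ∀ r ∈ ρ, c r = 0 := by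
  classical
  set D : Fin (m + 1) → Fin g → ℝ := fun i => ∑ r ∈ ρ.filter (·.lab = i), c r • zv r.pos with hD
  have hDj : ∀ i j, D i j = ∑ r ∈ ρ.filter (·.lab = i), c r * (r.pos j : ℝ) := by
    intro i j
    simp [hD, Finset.sum_apply, zv]
  have hone : ∀ j i i', i < i' → D i j ≠ 0 → D i' j ≠ 0 → False := by
    intro j i i' hlt hi hi'
    rw [hDj] at hi hi'
    obtain ⟨r, hr, r', hr', hrr⟩ := cx1_two j (h1 i) hi
    obtain ⟨s, hs, s', hs', hss⟩ := cx1_two j (h1 i') hi'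
    rw [mem_filter] at hr hr' hs hs'
    have e1 := cx1_pos ((hρ r' hr'.1 s hs.1).ple_of_lab_lt (by rw [hr'.2, hs.2]; exact hlt)) j
    have e2 := ((hρ r hr.1 s' hs'.1).2 j).2
    omega
  have hsign : ∀ j, (∀ i, 0 ≤ D i j) ∨ (∀ i, D i j ≤ 0) := by
    intro j
    by_contra hcon
    push Not at hcon
    obtain ⟨⟨i, hi⟩, ⟨i', hi'⟩⟩ := hcon
    rcases lt_trichotomy i i' with h | h | h
    · exact hone j i i' h hi.ne hi'.ne'
    · rw [h] at hi; exact lt_asymm hi hi'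
    · exact hone j i' i h hi'.ne' hi.ne
  have hsum : ∑ i, (B i).map (Int.cast : ℤ → ℝ) *ᵥ D i = 0 := by
    rw [← h2, ← sum_fiberwise ρ (fun r => r.lab)]
    refine sum_congr rfl fun i _ => ?_
    rw [hD]
    simp only
    rw [mulVec_sum]
    refine sum_congr rfl fun r hr => ?_
    rw [mulVec_smul, cx1_zv_mulVec, (mem_filter.1 hr).2]
  have hD0 := hB D hsign hsum
  intro r hr
  refine cx1_fibre r.lab c (ρ.filter (·.lab = r.lab)) (hρ.mono (filter_subset _ _))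
    (fun s hs => (mem_filter.1 hs).2) (h1 _) (fun j => ?_) r (mem_filter.2 ⟨hr, rfl⟩)
  rw [← hDj, hD0]; rfl

lemma cx1_indepQ {B : Mats m g} (hB : Hyp B) {ρ : Finset (Ray m g)} (hρ : Simp ρ)
    (c : Ray m g → ℚ) (h : ∑ r ∈ ρ, c r • vec B r = 0) : ∀ r ∈ ρ, c r = 0 := by
  classical
  have := indepR hB hρ (fun r => (c r : ℝ)) (fun i => ?_) ?_
  · intro r hr
    exact_mod_cast this r hr
  · have h1 := congrArg (dl i) h
    rw [map_sum, map_zero] at h1
    simp only [map_smul, dl_vec, smul_eq_mul, mul_ite, mul_one, mul_zero] at h1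
    rw [← sum_filter] at h1
    exact_mod_cast h1
  · ext j
    have h1 := congrArg (fun n : Nv m g => n.2 j) h
    simp only [Prod.snd_sum, Finset.sum_apply, vec, Prod.smul_mk, Pi.smul_apply, qv, smul_eq_mul,
      Prod.snd_zero, Pi.zero_apply] at h1
    simp only [Finset.sum_apply, Pi.smul_apply, zv, smul_eq_mul, Pi.zero_apply]
    exact_mod_cast h1

lemma coord_exists {B : Mats m g} (hB : Hyp B) {ρ : Finset (Ray m g)} (hρ : Simp ρ)
    {r : Ray m g} (hr : r ∈ ρ) :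
    ∃ φ : Module.Dual ℚ (Nv m g), φ (vec B r) = 1 ∧ ∀ s ∈ ρ, s ≠ r → φ (vec B s) = 0 := by
  classical
  have hli : LinearIndependent ℚ (fun s : ρ => vec B (s : Ray m g)) := by
    rw [Fintype.linearIndependent_iff]
    intro c hc s
    have := cx1_indepQ hB hρ (fun t => if h : t ∈ ρ then c ⟨t, h⟩ else 0) (by
      rw [← sum_coe_sort ρ, ← hc]
      refine sum_congr rfl fun t _ => ?_
      rw [dif_pos t.2]) s s.2
    simpa using this
  obtain ⟨φ, hφ⟩ := LinearMap.exists_extend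
    ((Finsupp.lapply (⟨r, hr⟩ : ρ) : (ρ →₀ ℚ) →ₗ[ℚ] ℚ) ∘ₗ hli.repr)
  have key : ∀ s : ρ, φ (vec B s) = if s = ⟨r, hr⟩ then 1 else 0 := by
    intro s
    have h1 := LinearMap.congr_fun hφ ⟨vec B s, Submodule.subset_span ⟨s, rfl⟩⟩
    simp only [LinearMap.comp_apply, Submodule.subtype_apply, Finsupp.lapply_apply] at h1
    rw [h1, hli.repr_eq_single s _ rfl, Finsupp.single_apply]
  refine ⟨φ, ?_, fun s hs hne => ?_⟩
  · simpa using key ⟨r, hr⟩
  · rw [key ⟨s, hs⟩, if_neg (fun e => hne (congrArg Subtype.val e))]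

/-- The pairing on the link of an interior simplex. -/
def cx1_R (ρ : Finset (Ray m g)) (s t : Ray m g) : Prop :=
  ∃ a ∈ ρ, ∃ b ∈ ρ, s.pos + t.pos = a.pos + b.pos ∧
    ((a < s ∧ s < b ∧ a < t ∧ t < b ∧ (∀ r ∈ ρ, r ≤ a ∨ b ≤ r) ∧
        ((s.lab = a.lab ∧ t.lab = b.lab) ∨ (s.lab = b.lab ∧ t.lab = a.lab))) ∨
      ((∀ r ∈ ρ, a ≤ r ∧ r ≤ b) ∧
        ((s < a ∧ b < t ∧ s.lab = a.lab ∧ t.lab = b.lab) ∨
          (t < a ∧ b < s ∧ t.lab = a.lab ∧ s.lab = b.lab))))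

lemma cx1_R_symm {ρ : Finset (Ray m g)} {s t : Ray m g} (h : cx1_R ρ s t) : cx1_R ρ t s := by
  obtain ⟨a, ha, b, hb, hp, h⟩ := h
  refine ⟨a, ha, b, hb, by rw [← hp, add_comm], ?_⟩
  rcases h with ⟨h1, h2, h3, h4, h5, h6⟩ | ⟨h1, h2⟩
  · exact Or.inl ⟨h3, h4, h1, h2, h5, h6.symm.imp And.symm And.symm⟩
  · exact Or.inr ⟨h1, h2.symm⟩

lemma cx1_R_unique {ρ : Finset (Ray m g)} {s t t' : Ray m g} (h : cx1_R ρ s t)
    (h' : cx1_R ρ s t') : t = t' := by
  obtain ⟨a, ha, b, hb, hp, h⟩ := h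
  obtain ⟨a', ha', b', hb', hp', h'⟩ := h'
  have hpos : a = a' → b = b' → t.pos = t'.pos := by
    rintro rfl rfl
    exact add_left_cancel (hp.trans hp'.symm)
  rcases h with ⟨h1, h2, -, -, h5, h6⟩ | ⟨h1, h2⟩ <;>
    rcases h' with ⟨k1, k2, -, -, k5, k6⟩ | ⟨k1, k2⟩
  · have e1 : a = a' := le_antisymm
      ((k5 a ha).resolve_right fun e => lt_irrefl _ ((h1.trans k2).trans_le e))
      ((h5 a' ha').resolve_right fun e => lt_irrefl _ ((k1.trans h2).trans_le e))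
    have e2 : b = b' := le_antisymm
      ((h5 b' hb').resolve_left fun e => lt_irrefl _ ((h1.trans k2).trans_le e))
      ((k5 b hb).resolve_left fun e => lt_irrefl _ ((k1.trans h2).trans_le e))
    refine Ray.ext' ?_ (hpos e1 e2)
    subst e1 e2
    rcases h6 with ⟨u1, u2⟩ | ⟨u1, u2⟩ <;> rcases k6 with ⟨v1, v2⟩ | ⟨v1, v2⟩
    · rw [u2, v2]
    · rw [u2, v2, ← u1, ← v1]
    · rw [u2, v2, ← u1, ← v1]
    · rw [u2, v2]
  · exfalso
    rcases k2 with ⟨u, -⟩ | ⟨-, u, -⟩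
    · exact lt_irrefl _ ((h1.trans u).trans_le (k1 a ha).1)
    · exact lt_irrefl _ ((u.trans h2).trans_le (k1 b hb).2)
  · exfalso
    rcases h2 with ⟨u, -⟩ | ⟨-, u, -⟩
    · exact lt_irrefl _ ((k1.trans u).trans_le (h1 a' ha').1)
    · exact lt_irrefl _ ((u.trans k2).trans_le (h1 b' hb').2)
  · have e1 : a = a' := le_antisymm (h1 a' ha').1 (k1 a ha).1
    have e2 : b = b' := le_antisymm (k1 b hb).2 (h1 b' hb').2
    refine Ray.ext' ?_ (hpos e1 e2)
    subst e1 e2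
    rcases h2 with ⟨u1, -, -, u2⟩ | ⟨-, u1, u2, -⟩ <;>
      rcases k2 with ⟨v1, -, -, v2⟩ | ⟨-, v1, v2, -⟩
    · rw [u2, v2]
    · exact absurd ((v1.trans u1).trans_le (h1 b hb).1) (lt_irrefl _)
    · exact absurd ((u1.trans v1).trans_le (h1 b hb).1) (lt_irrefl _)
    · rw [u2, v2]

lemma cx1_R_vec {ρ : Finset (Ray m g)} {s t : Ray m g} (h : cx1_R ρ s t) :
    ∃ a ∈ ρ, ∃ b ∈ ρ, vec (fun _ => 1) s + vec (fun _ => 1) t =
      vec (fun _ => 1) a + vec (fun _ => 1) b := by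
  obtain ⟨a, ha, b, hb, hp, h⟩ := h
  refine ⟨a, ha, b, hb, ?_⟩
  have hl : (s.lab = a.lab ∧ t.lab = b.lab) ∨ (s.lab = b.lab ∧ t.lab = a.lab) := by
    rcases h with ⟨-, -, -, -, -, h6⟩ | ⟨-, ⟨-, -, h⟩ | ⟨-, -, h⟩⟩
    · exact h6
    · exact Or.inl h
    · exact Or.inr h.symm
  simp only [vec, one_mulVec, Prod.mk_add_mk, ← qv_add, hp]
  rcases hl with ⟨u1, u2⟩ | ⟨u1, u2⟩
  · rw [u1, u2]
  · rw [u1, u2, add_comm (Pi.single b.lab _)]

lemma cx1_mid {ρ : Finset (Ray m g)} (hρ : Good ρ) {s : Ray m g} (hs : s ∈ link ρ)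
    {a b : Ray m g} (ha : a ∈ ρ) (hb : b ∈ ρ) (has : a < s) (hsb : s < b)
    (hgap : ∀ r ∈ ρ, r ≤ a ∨ b ≤ r) : ∃ t ∈ link ρ, cx1_R ρ s t := by
  obtain ⟨hc, hns⟩ := (mem_link hρ.nonempty).1 hs
  have pas : ple a s := (hc a ha).symm.ple_of_le has.le
  have psb : ple s b := (hc b hb).ple_of_le hsb.le
  have hlab : s.lab = a.lab ∨ s.lab = b.lab := by
    obtain ⟨r, hr, hrl⟩ := hρ.2 s.lab
    rcases hgap r hr with h | h
    · exact Or.inl (le_antisymm (hrl ▸ cx1_lab_le h) pas.1)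
    · exact Or.inr (le_antisymm psb.1 (hrl ▸ cx1_lab_le h))
  obtain ⟨l, hl⟩ : ∃ l : Fin (m + 1), (s.lab = a.lab ∧ l = b.lab) ∨ (s.lab = b.lab ∧ l = a.lab) :=
    hlab.elim (fun h => ⟨_, Or.inl ⟨h, rfl⟩⟩) (fun h => ⟨_, Or.inr ⟨h, rfl⟩⟩)
  have pab : a.lab ≤ b.lab := pas.1.trans psb.1
  set t : Ray m g := mk l (a.pos + b.pos - s.pos) with ht
  have tl : t.lab = l := rfl
  have tp : ∀ j, t.pos j = a.pos j + b.pos j - s.pos j := fun j => rfl
  have hal : a.lab ≤ l ∧ l ≤ b.lab := by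
    rcases hl with ⟨-, e⟩ | ⟨-, e⟩
    · exact ⟨e ▸ pab, e.le⟩
    · exact ⟨e.ge, e ▸ pab⟩
  have pat : ple a t := cx1_ple hal.1
    fun j => by have := cx1_pos psb j; rw [tp]; omega
  have ptb : ple t b := cx1_ple hal.2
    fun j => by have := cx1_pos pas j; rw [tp]; omega
  have hat : a < t := cx1_lt_of_ple pat fun e => hsb.ne (Ray.ext' (by
      rcases hl with ⟨u, v⟩ | ⟨u, v⟩
      · rw [u, ← v, ← tl, ← e]
      · exact u) (funext fun j => by have := tp j; rw [← e] at this; omega))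
  have htb : t < b := cx1_lt_of_ple ptb fun e => has.ne (Ray.ext' (by
      rcases hl with ⟨u, v⟩ | ⟨u, v⟩
      · exact u.symm
      · rw [u, ← v, ← tl, e]) (funext fun j => by have := tp j; rw [e] at this; omega))
  refine ⟨t, (mem_link hρ.nonempty).2 ⟨fun r hr => ?_, fun htρ => ?_⟩, a, ha, b, hb, ?_,
    Or.inl ⟨has, hsb, hat, htb, hgap, hl⟩⟩
  · rcases hgap r hr with h | h
    · have pra : ple r a := (hρ.1 r hr a ha).ple_of_le h
      refine ⟨Or.inr (pra.trans pat), fun j => ?_⟩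
      have e1 := cx1_pos pra j
      have e2 := cx1_pos pat j
      have e3 := cx1_pos ptb j
      have e4 := ((hρ.1 r hr b hb).2 j).2
      omega
    · have pbr : ple b r := (hρ.1 b hb r hr).ple_of_le h
      refine ⟨Or.inl (ptb.trans pbr), fun j => ?_⟩
      have e1 := cx1_pos pbr j
      have e2 := cx1_pos pat j
      have e3 := cx1_pos ptb j
      have e4 := ((hρ.1 r hr a ha).2 j).1
      omega
  · rcases hgap t htρ with h | h
    · exact lt_irrefl _ (hat.trans_le h)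
    · exact lt_irrefl _ (htb.trans_le h)
  · funext j
    simp only [Pi.add_apply, tp]
    omega

lemma cx1_low {ρ : Finset (Ray m g)} (hρ : Good ρ) {s : Ray m g} (hs : s ∈ link ρ)
    {a b : Ray m g} (ha : a ∈ ρ) (hb : b ∈ ρ) (hsa : s < a)
    (hab : ∀ r ∈ ρ, a ≤ r ∧ r ≤ b) : ∃ t ∈ link ρ, cx1_R ρ s t := by
  obtain ⟨hc, hns⟩ := (mem_link hρ.nonempty).1 hs
  have psa : ple s a := (hc a ha).ple_of_le hsa.le
  have hlab : s.lab = a.lab := by
    obtain ⟨r, hr, hrl⟩ := hρ.2 s.lab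
    exact le_antisymm psa.1 (hrl ▸ cx1_lab_le (hab r hr).1)
  set t : Ray m g := mk b.lab (a.pos + b.pos - s.pos) with ht
  have tl : t.lab = b.lab := rfl
  have tp : ∀ j, t.pos j = a.pos j + b.pos j - s.pos j := fun j => rfl
  have pbt : ple b t := cx1_ple tl.ge fun j => by have := cx1_pos psa j; rw [tp]; omega
  have hbt : b < t := cx1_lt_of_ple pbt fun e => hsa.ne (Ray.ext' hlab
    (funext fun j => by have := tp j; rw [← e] at this; omega))
  refine ⟨t, (mem_link hρ.nonempty).2 ⟨fun r hr => ?_, fun htρ => ?_⟩, a, ha, b, hb, ?_,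
    Or.inr ⟨hab, Or.inl ⟨hsa, hbt, hlab, tl⟩⟩⟩
  · have prb : ple r b := (hρ.1 r hr b hb).ple_of_le (hab r hr).2
    have par : ple a r := (hρ.1 a ha r hr).ple_of_le (hab r hr).1
    refine ⟨Or.inr (prb.trans pbt), fun j => ?_⟩
    have e1 := cx1_pos prb j
    have e2 := cx1_pos par j
    have e3 := cx1_pos pbt j
    have e4 := ((hc b hb).2 j).2
    have e5 := tp j
    omega
  · exact lt_irrefl _ (hbt.trans_le (hab t htρ).2)
  · funext j
    simp only [Pi.add_apply, tp]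
    omega

lemma cx1_high {ρ : Finset (Ray m g)} (hρ : Good ρ) {s : Ray m g} (hs : s ∈ link ρ)
    {a b : Ray m g} (ha : a ∈ ρ) (hb : b ∈ ρ) (hbs : b < s)
    (hab : ∀ r ∈ ρ, a ≤ r ∧ r ≤ b) : ∃ t ∈ link ρ, cx1_R ρ s t := by
  obtain ⟨hc, hns⟩ := (mem_link hρ.nonempty).1 hs
  have pbs : ple b s := (hc b hb).symm.ple_of_le hbs.le
  have hlab : s.lab = b.lab := by
    obtain ⟨r, hr, hrl⟩ := hρ.2 s.lab
    exact le_antisymm (hrl ▸ cx1_lab_le (hab r hr).2) pbs.1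
  set t : Ray m g := mk a.lab (a.pos + b.pos - s.pos) with ht
  have tl : t.lab = a.lab := rfl
  have tp : ∀ j, t.pos j = a.pos j + b.pos j - s.pos j := fun j => rfl
  have pta : ple t a := cx1_ple tl.le fun j => by have := cx1_pos pbs j; rw [tp]; omega
  have hta : t < a := cx1_lt_of_ple pta fun e => hbs.ne (Ray.ext' hlab.symm
    (funext fun j => by have := tp j; rw [e] at this; omega))
  refine ⟨t, (mem_link hρ.nonempty).2 ⟨fun r hr => ?_, fun htρ => ?_⟩, a, ha, b, hb, ?_,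
    Or.inr ⟨hab, Or.inr ⟨hta, hbs, tl, hlab⟩⟩⟩
  · have prb : ple r b := (hρ.1 r hr b hb).ple_of_le (hab r hr).2
    have par : ple a r := (hρ.1 a ha r hr).ple_of_le (hab r hr).1
    refine ⟨Or.inl (pta.trans par), fun j => ?_⟩
    have e1 := cx1_pos prb j
    have e2 := cx1_pos par j
    have e3 := cx1_pos pta j
    have e4 := ((hc a ha).2 j).1
    have e5 := tp j
    omega
  · exact lt_irrefl _ (hta.trans_le (hab t htρ).1)
  · funext j
    simp only [Pi.add_apply, tp]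
    omega

lemma cx1_R_exists {ρ : Finset (Ray m g)} (hρ : Good ρ) {s : Ray m g} (hs : s ∈ link ρ) :
    ∃ t ∈ link ρ, cx1_R ρ s t := by
  classical
  have hne := hρ.nonempty
  have hns := ((mem_link hne).1 hs).2
  have hab : ∀ r ∈ ρ, ρ.min' hne ≤ r ∧ r ≤ ρ.max' hne :=
    fun r hr => ⟨min'_le _ _ hr, le_max' _ _ hr⟩
  have h1 : s ≠ ρ.min' hne := fun e => hns (e ▸ min'_mem _ _)
  have h2 : s ≠ ρ.max' hne := fun e => hns (e ▸ max'_mem _ _)
  rcases lt_or_gt_of_ne h1 with h1 | h1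
  · exact cx1_low hρ hs (min'_mem _ _) (max'_mem _ _) h1 hab
  rcases lt_or_gt_of_ne h2 with h2 | h2
  swap
  · exact cx1_high hρ hs (min'_mem _ _) (max'_mem _ _) h2 hab
  have hL : (ρ.filter (· < s)).Nonempty := ⟨_, mem_filter.2 ⟨min'_mem _ hne, h1⟩⟩
  have hU : (ρ.filter (s < ·)).Nonempty := ⟨_, mem_filter.2 ⟨max'_mem _ hne, h2⟩⟩
  have ha := mem_filter.1 (max'_mem _ hL)
  have hb := mem_filter.1 (min'_mem _ hU)
  refine cx1_mid hρ hs ha.1 hb.1 ha.2 hb.2 fun r hr => ?_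
  have hrs : r ≠ s := fun e => hns (e ▸ hr)
  rcases lt_or_gt_of_ne hrs with h | h
  · exact Or.inl (le_max' _ _ (mem_filter.2 ⟨hr, h⟩))
  · exact Or.inr (min'_le _ _ (mem_filter.2 ⟨hr, h⟩))

lemma link_sum {ρ : Finset (Ray m g)} (hρ : Good ρ) (ℓ : Module.Dual ℚ (Nv m g))
    (h : ∀ r ∈ ρ, ℓ (vec (fun _ => 1) r) = 0) :
    ∑ s ∈ link ρ, ℓ (vec (fun _ => 1) s) = 0 := by
  choose f hf hR using fun (s : Ray m g) (hs : s ∈ link ρ) => cx1_R_exists hρ hs
  have hsum : ∀ s (hs : s ∈ link ρ),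
      ℓ (vec (fun _ => 1) s) + ℓ (vec (fun _ => 1) (f s hs)) = 0 := by
    intro s hs
    obtain ⟨a, ha, b, hb, e⟩ := cx1_R_vec (hR s hs)
    rw [← map_add, e, map_add, h a ha, h b hb, add_zero]
  refine Finset.sum_involution f hsum (fun s hs hne e => hne ?_) hf (fun s hs => ?_)
  · have := hsum s hs
    rw [e] at this
    linarith
  · exact cx1_R_unique (hR _ (hf s hs)) (cx1_R_symm (hR s hs))

end H57T
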