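import Pool.Agent.Lib.MP_e9c0f3_ag.H57T.Base

open ExteriorAlgebra Finset Matrix
open scoped Pointwise

namespace H57T

variable {m g : ℕ}

lemma cx2_DL_cons (i : Fin (m + 1)) (L : List (Fin (m + 1))) (ξ : Ex (Nv m g)) :
    DL (i :: L) ξ = DL L (ctr (dl i) ξ) := rfl

lemma cx2_DL_ctr (L : List (Fin (m + 1))) (φ : Module.Dual ℚ (Nv m g)) (ξ : Ex (Nv m g)) :
    DL L (ctr φ ξ) = (-1 : ℚ) ^ L.length • ctr φ (DL L ξ) := by
  induction L generalizing ξ with
  | nil => simp [DL]
  | cons i L ih =>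
    rw [cx2_DL_cons, cx2_DL_cons, ctr_comm, map_neg, ih, List.length_cons, pow_succ, mul_neg_one,
      neg_smul]

lemma cx2_DL_ctr_mem {L : List (Fin (m + 1))} {i : Fin (m + 1)} (h : i ∈ L) (ξ : Ex (Nv m g)) :
    DL L (ctr (dl i) ξ) = 0 := by
  induction L generalizing ξ with
  | nil => simp at h
  | cons j L ih =>
    rw [cx2_DL_cons]
    rcases List.mem_cons.1 h with rfl | h
    · rw [ctr_ctr, map_zero]
    · rw [ctr_comm, map_neg, ih h, neg_zero]

lemma cx2_ctr_DL_mem {L : List (Fin (m + 1))} {i : Fin (m + 1)} (h : i ∈ L) (ξ : Ex (Nv m g)) :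
    ctr (dl i) (DL L ξ) = 0 := by
  have := cx2_DL_ctr L (dl i) ξ
  rw [cx2_DL_ctr_mem h] at this
  exact (smul_eq_zero.1 this.symm).resolve_left (pow_ne_zero _ (by norm_num))

lemma cx2_DL_inr_mul (L : List (Fin (m + 1))) (x : Fin g → ℚ) (ξ : Ex (Nv m g)) :
    DL L (ι ℚ ((0, x) : Nv m g) * ξ) = (-1 : ℚ) ^ L.length • (ι ℚ ((0, x) : Nv m g) * DL L ξ) := by
  induction L generalizing ξ with
  | nil => simp [DL]
  | cons i L ih =>
    have h0 : dl i ((0, x) : Nv m g) = 0 := rfl
    rw [cx2_DL_cons, cx2_DL_cons, ctr_ι_mul, h0, zero_smul, zero_sub, map_neg, ih,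
      List.length_cons, pow_succ, mul_neg_one, neg_smul]

lemma cx2_Dbar (ξ : Ex (Nv m g)) :
    Dbar ξ = ExteriorAlgebra.map (LinearMap.snd ℚ _ _) (DL (List.finRange (m + 1)) ξ) := rfl

lemma cx2_map_add {M M' : Type*} [AddCommGroup M] [Module ℚ M] [AddCommGroup M'] [Module ℚ M']
    (f : M →ₗ[ℚ] M') (φ : Module.Dual ℚ M) (v : M') (x : Ex M) :
    ExteriorAlgebra.map (f + φ.smulRight v) x =
      ExteriorAlgebra.map f x + ι ℚ v * ExteriorAlgebra.map f (ctr φ x) := by
  induction x using CliffordAlgebra.left_induction with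
  | algebraMap r =>
    rw [Algebra.algebraMap_eq_smul_one]; simp
  | add x y hx hy => simp only [map_add, hx, hy, mul_add]; abel
  | ι_mul x a hx =>
    change ExteriorAlgebra.map (f + φ.smulRight v) (ι ℚ a * x) =
      ExteriorAlgebra.map f (ι ℚ a * x) + ι ℚ v * ExteriorAlgebra.map f (ctr φ (ι ℚ a * x))
    rw [ctr_ι_mul, map_mul, map_mul, map_apply_ι, map_apply_ι, hx, map_sub, map_smul, map_mul,
      map_apply_ι, LinearMap.add_apply, LinearMap.smulRight_apply, map_add, map_smul, add_mul,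
      mul_add, mul_sub, smul_mul_assoc, mul_add, ι_mul_ι_mul_self, add_zero, mul_smul_comm,
      ι_mul_ι_mul_swap v]
    abel

lemma cx2_map_sum {M M' β : Type*} [AddCommGroup M] [Module ℚ M] [AddCommGroup M'] [Module ℚ M']
    (f : M →ₗ[ℚ] M') (φ : β → Module.Dual ℚ M) (v : β → M') {x : Ex M}
    (h : ∀ i, ctr (φ i) x = 0) (s : Finset β) :
    ExteriorAlgebra.map (f + ∑ i ∈ s, (φ i).smulRight (v i)) x = ExteriorAlgebra.map f x := by
  classical
  induction s using Finset.induction_on with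
  | empty => simp
  | insert i s hi ih =>
    rw [sum_insert hi, add_comm ((φ i).smulRight (v i)), ← add_assoc, cx2_map_add, h, map_zero,
      mul_zero, add_zero, ih]

lemma cx2_DL_shear (B : Mats m g) (γ : Fin g → ℤ) (L : List (Fin (m + 1))) (ξ : Ex (Nv m g)) :
    DL L (ExteriorAlgebra.map (shear B γ) ξ) = ExteriorAlgebra.map (shear B γ) (DL L ξ) := by
  induction L generalizing ξ with
  | nil => rfl
  | cons i L ih =>
    have h : dl i ∘ₗ shear B γ = dl i := by
      refine LinearMap.ext fun n => ?_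
      rw [LinearMap.comp_apply, shear_apply]
      rfl
    rw [cx2_DL_cons, cx2_DL_cons, ← map_ctr, h, ih]

lemma cx2_wl_shift (B : Mats m g) (γ : Fin g → ℤ) (L : List (Ray m g)) :
    wl ((L.map (sh γ)).map (vec B)) = ExteriorAlgebra.map (shear B γ) (wl (L.map (vec B))) := by
  rw [map_wl, List.map_map, List.map_map]
  congr 2
  funext r
  exact vec_sh B γ r

lemma cx2_DL_base (B : Mats m g) {bs : Fin (m + 1) → Ray m g} (hb : ∀ i, (bs i).lab = i)
    {L : List (Fin (m + 1))} (h : L.Nodup) : DL L (wl ((L.map bs).map (vec B))) = 1 := by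
  induction L with
  | nil => rfl
  | cons i L ih =>
    rw [List.nodup_cons] at h
    rw [cx2_DL_cons, List.map_cons, List.map_cons, wl_cons, ctr_ι_mul, dl_vec, if_pos (hb i),
      one_smul, ctr_wl_eq_zero, mul_zero, sub_zero, ih h.2]
    intro a ha
    simp only [List.mem_map] at ha
    obtain ⟨_, ⟨j, hj, rfl⟩, rfl⟩ := ha
    rw [dl_vec, hb, if_neg]
    rintro rfl
    exact h.1 hj

/- Hint. ctr (dl i) (DL L ξ) = ± DL L (ctr (dl i) ξ) by ctr_comm; both vanish if i ∈ L. -/
lemma Dbar_ctr_dl (i : Fin (m + 1)) (ξ : Ex (Nv m g)) : Dbar (ctr (dl i) ξ) = 0 := by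
  rw [cx2_Dbar, cx2_DL_ctr_mem (List.mem_finRange i), map_zero]

lemma Dbar_inr_mul (x : Fin g → ℚ) (ξ : Ex (Nv m g)) :
    Dbar (ι ℚ ((0, x) : Nv m g) * ξ) = (-1 : ℚ) ^ (m + 1) • (ι ℚ x * Dbar ξ) := by
  rw [cx2_Dbar, cx2_Dbar, cx2_DL_inr_mul, List.length_finRange, map_smul, map_mul, map_apply_ι]
  rfl

/- Hint. ctr_comm and map_ctr. -/
lemma Dbar_ctr_inr (j : Fin g) (ξ : Ex (Nv m g)) :
    Dbar (ctr (dbas (.inr j)) ξ) = (-1 : ℚ) ^ (m + 1) • ctr (LinearMap.proj j) (Dbar ξ) := by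
  rw [cx2_Dbar, cx2_Dbar, cx2_DL_ctr, List.length_finRange, map_smul, ← map_ctr]
  rfl

/- Hint. dl i ∘ shear = dl i, so DL commutes with map shear (map_ctr). Then
map (f + φ.smulRight v) x = map f x + ι v * map f (ctr φ x) (CliffordAlgebra.left_induction), and
DL (finRange) ξ is killed by every ctr (dl i); induct over the sum defining bm. -/
lemma Dbar_shear (B : Mats m g) (γ : Fin g → ℤ) (ξ : Ex (Nv m g)) :
    Dbar (ExteriorAlgebra.map (shear B γ) ξ) = Dbar ξ := by
  have h : LinearMap.snd ℚ _ _ ∘ₗ shear B γ =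
      LinearMap.snd ℚ _ _ + ∑ i, (dl i).smulRight (qv (B i *ᵥ γ)) := by
    refine LinearMap.ext fun n => ?_
    rw [LinearMap.comp_apply, shear_apply]
    rfl
  rw [cx2_Dbar, cx2_Dbar, cx2_DL_shear, ← AlgHom.comp_apply, map_comp_map, h,
    cx2_map_sum _ _ _ fun i => cx2_ctr_DL_mem (List.mem_finRange i) ξ]

lemma nu_shift (B : Mats m g) (γ : Fin g → ℤ) (ρ : Finset (Ray m g)) :
    nu (vec B) (shift γ ρ) = ExteriorAlgebra.map (shear B γ) (nu (vec B) ρ) := by
  rw [nu, nu, sort_shift, cx2_wl_shift]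

lemma nbar_shift (B : Mats m g) (γ : Fin g → ℤ) (ρ : Finset (Ray m g)) :
    nbar B (shift γ ρ) = nbar B ρ := by
  rw [nbar, nbar, nu_shift, Dbar_shear]

lemma VolL_shift (B : Mats m g) (lam : Fin (m + 1) → ℚ) (θ : Module.Dual ℚ (Ex (Fin g → ℚ)))
    (γ : Fin g → ℤ) (L : List (Ray m g)) : VolL B lam θ (L.map (sh γ)) = VolL B lam θ L := by
  have h1 : (∀ i, ∃ r ∈ L.map (sh γ), r.lab = i) ↔ ∀ i, ∃ r ∈ L, r.lab = i := by
    refine forall_congr' fun i => ⟨?_, ?_⟩
    · rintro ⟨_, hr, hi⟩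
      obtain ⟨r, hr', rfl⟩ := List.mem_map.1 hr
      exact ⟨r, hr', hi⟩
    · rintro ⟨r, hr, hi⟩
      exact ⟨_, List.mem_map_of_mem hr, hi⟩
  have h2 : vf lam (L.map (sh γ)) = vf lam L := by
    unfold vf
    simp only [List.countP_map]
    rfl
  unfold VolL
  rw [h2, cx2_wl_shift, Dbar_shear]
  exact if_congr h1 rfl rfl

/- Hint. If a label is missing in L every term is 0. Otherwise, for an erased ray a of label i with
n = L.countP (lab = i): the term is 0 if n = 1, and vf lam L' = C i := lam i ^ (n-2) / (n-2)! times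
the factors of the other labels if n ≥ 2. So the term is (sum over i of C i * dl i (vec B a)) *
θ (Dbar (wl ..)) with C i := 0 for n = 1 (alt_congr gives the permutation (a :: L') ~ L), and
alt of it is the sum over i of C i * θ (Dbar (ctr (dl i) (wl (L.map (vec B))))) = 0 (ctr_wl, alt_map,
map_alt, Dbar_ctr_dl). -/
lemma VolL_cocycle (B : Mats m g) (lam : Fin (m + 1) → ℚ) (θ : Module.Dual ℚ (Ex (Fin g → ℚ)))
    (L : List (Ray m g)) : alt L (fun _ L' => VolL B lam θ L') = 0 := by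
  by_cases hL : ∀ i, ∃ r ∈ L, r.lab = i
  swap
  · rw [← alt_zero (N := ℚ) L]
    refine alt_congr fun a _ L' _ hs _ => ?_
    refine if_neg fun h => hL fun i => ?_
    obtain ⟨r, hr, hi⟩ := h i
    exact ⟨r, hs.subset hr, hi⟩
  let C : Fin (m + 1) → ℚ := fun i => if L.countP (·.lab = i) = 1 then 0 else
    ∏ j, lam j ^ (L.countP (·.lab = j) - (if i = j then 1 else 0) - 1) /
      ((L.countP (·.lab = j) - (if i = j then 1 else 0) - 1).factorial : ℚ)
  have h1 : alt L (fun _ L' => VolL B lam θ L') = alt L (fun a L' =>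
      ∑ i, (C i • (θ ∘ₗ Dbar)) (dl i (vec B a) • wl (L'.map (vec B)))) := by
    refine alt_congr fun a _ L' _ _ hp => ?_
    have hc : ∀ j, L.countP (·.lab = j) =
        L'.countP (·.lab = j) + if a.lab = j then 1 else 0 := by
      intro j
      rw [← hp.countP_eq, List.countP_cons]
      simp
    rw [sum_eq_single a.lab (fun i _ hi => by rw [dl_vec, if_neg hi.symm, zero_smul, map_zero])
      (by simp), dl_vec, if_pos rfl, one_smul, LinearMap.smul_apply, LinearMap.comp_apply,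
      smul_eq_mul]
    have ha := hc a.lab
    rw [if_pos rfl] at ha
    unfold VolL
    by_cases h0 : L.countP (·.lab = a.lab) = 1
    · rw [show C a.lab = 0 from if_pos h0, zero_mul, if_neg]
      intro h
      obtain ⟨r, hr, hi⟩ := h a.lab
      have : 0 < L'.countP (·.lab = a.lab) := List.countP_pos_iff.2 ⟨r, hr, by simpa using hi⟩
      omega
    · rw [if_pos]
      · congr 1
        refine Eq.trans ?_ (if_neg h0).symm
        unfold vf
        refine prod_congr rfl fun j _ => ?_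
        rw [hc j, Nat.add_sub_cancel]
      · intro i
        by_cases hi : a.lab = i
        · subst hi
          have : 0 < L'.countP (·.lab = a.lab) := by omega
          obtain ⟨r, hr, hi⟩ := List.countP_pos_iff.1 this
          exact ⟨r, hr, by simpa using hi⟩
        · obtain ⟨r, hr, hri⟩ := hL i
          rcases List.mem_cons.1 (hp.symm.subset hr) with rfl | hr
          · exact absurd hri hi
          · exact ⟨r, hr, hri⟩
  rw [h1, alt_sum]
  refine sum_eq_zero fun i _ => ?_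
  have h2 := map_alt (C i • (θ ∘ₗ Dbar)) L fun a L' => dl i (vec B a) • wl (L'.map (vec B))
  have h3 := alt_map (vec B) L fun a L' => dl i a • wl L'
  rw [← h2, ← h3, ← ctr_wl, LinearMap.smul_apply, LinearMap.comp_apply, Dbar_ctr_dl, map_zero,
    smul_zero]

/- Hint. nu_insert, ι (vec s) * nu = ι (vec s - vec r) * nu (ι_mul_nu_of_mem), Dbar_inr_mul. -/
lemma nbar_insert (B : Mats m g) {ρ : Finset (Ray m g)} {r s : Ray m g} (hr : r ∈ ρ) (hs : s ∉ ρ)
    (hl : r.lab = s.lab) :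
    nbar B (insert s ρ) =
      (sg s ρ * (-1) ^ (m + 1)) • (ι ℚ (qv (B s.lab *ᵥ (s.pos - r.pos))) * nbar B ρ) := by
  have h : vec B s = ((0, qv (B s.lab *ᵥ (s.pos - r.pos))) : Nv m g) + vec B r := by
    simp [vec, hl, mulVec_sub, qv_sub]
  rw [nbar, nu_insert _ hs, h, map_add, add_mul, ι_mul_nu_of_mem _ hr, add_zero, map_smul,
    Dbar_inr_mul, smul_smul, nbar]

/- Hint. Fix bs by choice, induct on q (erase a ray outside the range of bs, nbar_insert,
Fin.cons). For q = 0, ρ is the image of bs, its sorted list is (finRange).map bs, and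
DL L (wl (L.map (vec B ∘ bs))) = 1 for L without duplicates. Only the label condition of Good is
used. -/
lemma exists_edges {q : ℕ} {ρ : Finset (Ray m g)} (hρ : ∀ i, ∃ r ∈ ρ, r.lab = i)
    (hc : ρ.card = m + 1 + q) :
    ∃ (bs : Fin (m + 1) → Ray m g) (e : Fin q → Ray m g) (ε : ℚ), (ε = 1 ∨ ε = -1) ∧
      (∀ i, (bs i).lab = i) ∧ Function.Injective e ∧ (∀ l i, e l ≠ bs i) ∧
      (∀ r, r ∈ ρ ↔ (∃ i, r = bs i) ∨ ∃ l, r = e l) ∧
      ∀ B : Mats m g, nbar B ρ =
        ε • ιMulti ℚ q fun l => qv (B (e l).lab *ᵥ ((e l).pos - (bs (e l).lab).pos)) := by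
  choose bs hb1 hb2 using hρ
  have hinj : Function.Injective bs := fun i j h => by rw [← hb2 i, h, hb2]
  have hcard : (univ.map ⟨bs, hinj⟩).card = m + 1 := by simp
  refine ⟨bs, ?_⟩
  induction q generalizing ρ with
  | zero =>
    have h1 : univ.map ⟨bs, hinj⟩ = ρ := by
      refine eq_of_subset_of_card_le (fun r hr => ?_) (by omega)
      obtain ⟨i, -, rfl⟩ := mem_map.1 hr
      exact hb1 i
    have hm : StrictMono bs := fun i j h =>
      lt_of_le_of_ne (Ray.le_iff.2 (Or.inl (by rwa [hb2, hb2]))) (hinj.ne h.ne)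
    refine ⟨Fin.elim0, 1, Or.inl rfl, hb2, fun l => l.elim0, fun l => l.elim0, fun r => ?_,
      fun B => ?_⟩
    · rw [← h1]
      simp [eq_comm]
    · have h2 : ρ.sort (· ≤ ·) = (List.finRange (m + 1)).map bs := by
        rw [← h1, ← Fin.sort_univ]
        exact (StrictMonoOn.map_finsetSort ⟨bs, hinj⟩ univ (hm.strictMonoOn _)).symm
      rw [nbar, nu, h2, cx2_Dbar, cx2_DL_base B hb2 (List.nodup_finRange _), map_one, one_smul,
        ιMulti_zero_apply]
  | succ q ih =>
    obtain ⟨s, hs, hs'⟩ := exists_mem_notMem_of_card_lt_card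
      (show (univ.map ⟨bs, hinj⟩).card < ρ.card by omega)
    have hne : ∀ i, s ≠ bs i := fun i h => hs' (mem_map.2 ⟨i, mem_univ _, h.symm⟩)
    have hb1' : ∀ i, bs i ∈ ρ.erase s := fun i => mem_erase.2 ⟨(hne i).symm, hb1 i⟩
    obtain ⟨e, ε, hε, -, he1, he2, he3, he4⟩ :=
      ih (ρ := ρ.erase s) (by rw [card_erase_of_mem hs]; omega) hb1'
    refine ⟨Fin.cons s e, sg s (ρ.erase s) * (-1) ^ (m + 1) * ε, ?_, hb2, ?_, ?_, fun r => ?_,
      fun B => ?_⟩
    · rw [← mul_self_eq_one_iff] at hε ⊢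
      rw [mul_mul_mul_comm, hε, mul_one, mul_mul_mul_comm, sg_mul_self, ← mul_pow]
      simp
    · rw [Fin.cons_injective_iff]
      refine ⟨?_, he1⟩
      rintro ⟨l, hl⟩
      exact notMem_erase s ρ ((he3 s).2 (Or.inr ⟨l, hl.symm⟩))
    · intro l i
      induction l using Fin.cases with
      | zero => exact hne i
      | succ l => exact he2 l i
    · rw [← insert_erase hs, mem_insert, he3]
      refine or_left_comm.trans (or_congr Iff.rfl ?_)
      rw [Fin.exists_fin_succ]
      rfl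
    · have h := nbar_insert B (hb1' s.lab) (notMem_erase s ρ) (hb2 s.lab)
      rw [insert_erase hs] at h
      rw [h, he4, ιMulti_succ_apply, mul_smul_comm, smul_smul]
      rfl

end H57T
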