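import Mathlib

/-! Tropical cycles on a tropical torus `ℝ^g / A ℤ^g` with integral structure `ℤ^g`
(Mikhalkin and Zharkov): periodic weighted balanced polyhedral complexes with rational slopes. -/

open Matrix MeasureTheory
open scoped Pointwise

namespace H57T

variable {g : ℕ}

/-- An integer vector as a real vector. -/
def zv (v : Fin g → ℤ) : Fin g → ℝ := fun i => (v i : ℝ)

/-- Dimension of a polyhedron: the dimension of its direction space. -/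
noncomputable def dim (P : Set (Fin g → ℝ)) : ℕ := Module.finrank ℝ (vectorSpan ℝ P)

/-- `b` is a basis of the real subspace `L` and a `ℤ`-basis of the lattice `L ∩ ℤ^g`. -/
def IsLatBasis {k : ℕ} (L : Submodule ℝ (Fin g → ℝ)) (b : Fin k → Fin g → ℤ) : Prop :=
  LinearIndependent ℝ (fun l => zv (b l)) ∧
    Submodule.span ℝ (Set.range fun l => zv (b l)) = L ∧
    ∀ v : Fin g → ℤ, zv v ∈ L → v ∈ Submodule.span ℤ (Set.range b)

/-- `n` is a primitive normal vector of the cell `P` along its facet `T`: it points from `T`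
into `P` and generates the lattice of `P` modulo the direction space of `T`. -/
def IsNormal (T P : Set (Fin g → ℝ)) (n : Fin g → ℤ) : Prop :=
  (∃ x ∈ T, ∃ y ∈ P, ∃ c : ℝ, 0 < c ∧ zv n - c • (y - x) ∈ vectorSpan ℝ T) ∧
    ∀ v : Fin g → ℤ, zv v ∈ vectorSpan ℝ P → ∃ a : ℤ, zv v - (a : ℝ) • zv n ∈ vectorSpan ℝ T

/-- A tropical cycle of dimension `q` with rational weights on the torus `ℝ^g / A ℤ^g`. -/
structure TropCycle (A : Matrix (Fin g) (Fin g) ℝ) (q : ℕ) where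
  cells : Set (Set (Fin g → ℝ))
  weight : Set (Fin g → ℝ) → ℚ
  polytope : ∀ P ∈ cells, ∃ V : Finset (Fin g → ℝ), V.Nonempty ∧ P = convexHull ℝ (V : Set _)
  rational : ∀ P ∈ cells, ∃ S : Set (Fin g → ℤ), vectorSpan ℝ P = Submodule.span ℝ (zv '' S)
  face_mem : ∀ P ∈ cells, ∀ F, IsExposed ℝ P F → F.Nonempty → F ∈ cells
  inter_face : ∀ P ∈ cells, ∀ Q ∈ cells, IsExposed ℝ P (P ∩ Q)
  periodic : ∀ P ∈ cells, ∀ γ : Fin g → ℤ,
    (A *ᵥ zv γ) +ᵥ P ∈ cells ∧ weight ((A *ᵥ zv γ) +ᵥ P) = weight P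
  finite : ∃ R : Finset (Set (Fin g → ℝ)), ∀ P ∈ cells, ∃ Q ∈ R, ∃ γ : Fin g → ℤ,
    P = (A *ᵥ zv γ) +ᵥ Q
  balanced : ∀ T ∈ cells, dim T + 1 = q →
    ∃ (S : Finset (Set (Fin g → ℝ))) (n : Set (Fin g → ℝ) → Fin g → ℤ),
      (∀ P, P ∈ S ↔ P ∈ cells ∧ dim P = q ∧ T ⊆ P) ∧ (∀ P ∈ S, IsNormal T P (n P)) ∧
      ∑ P ∈ S, (weight P : ℝ) • zv (n P) ∈ vectorSpan ℝ T

/-- Lattice volume of `P`: its Lebesgue measure in the coordinates `x + ∑ t l • b l`. -/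
noncomputable def latVol {q : ℕ} (P : Set (Fin g → ℝ)) (x : Fin g → ℝ)
    (b : Fin q → Fin g → ℤ) : ℝ :=
  (volume {t : Fin q → ℝ | x + ∑ l, t l • zv (b l) ∈ P}).toReal

/-- The coordinate with index `I` of the multivector `b 0 ∧ ⋯ ∧ b (q-1)`. -/
def minor {q : ℕ} (b : Fin q → Fin g → ℤ) (I : Fin q → Fin g) : ℤ :=
  (Matrix.of fun l k => b l (I k)).det

/-- The class of `Z` in `⋀^q ℝ^g ⊗ ⋀^q ℝ^g` has coordinates `c`: the sum over the
`q`-dimensional cells `P` modulo periods of `weight P * vol P * β ⊗ β`, where `β` is the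
primitive multivector of `P`. -/
def TropCycle.HasClass {A : Matrix (Fin g) (Fin g) ℝ} {q : ℕ} (Z : TropCycle A q)
    (c : (Fin q → Fin g) → (Fin q → Fin g) → ℝ) : Prop :=
  ∃ (R : Finset (Set (Fin g → ℝ))) (x : Set (Fin g → ℝ) → Fin g → ℝ)
    (b : Set (Fin g → ℝ) → Fin q → Fin g → ℤ),
    (∀ P ∈ R, P ∈ Z.cells ∧ dim P = q ∧ x P ∈ P ∧ IsLatBasis (vectorSpan ℝ P) (b P)) ∧
    (∀ P ∈ Z.cells, dim P = q → ∃! Q, Q ∈ R ∧ ∃ γ : Fin g → ℤ, P = (A *ᵥ zv γ) +ᵥ Q) ∧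
    ∀ I J, ∑ P ∈ R, (Z.weight P : ℝ) * latVol P (x P) (b P) * minor (b P) I * minor (b P) J
      = c I J

/-- `u` is the coordinate array of an element of `⋀^q (A ℚ^g) ⊗ ⋀^q ℚ^g`, in the bases
`A e_j` and `e_j`: it is alternating in each of its two multi-indices. -/
def Alternating {q : ℕ} (u : (Fin q → Fin g) → (Fin q → Fin g) → ℚ) : Prop :=
  ∀ (σ : Equiv.Perm (Fin q)) (I J : Fin q → Fin g),
    u (I ∘ σ) J = (Equiv.Perm.sign σ : ℤ) * u I J ∧ u I (J ∘ σ) = (Equiv.Perm.sign σ : ℤ) * u I J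

/-- `u` is killed by the eigenwave map
`γ₀ ∧ ⋯ ∧ γₙ ⊗ w ↦ ∑ (-1)^l γ₀ ∧ ⋯ γ_l omitted ⋯ ∧ γₙ ⊗ (γ_l ∧ w)`, in coordinates. -/
def EigenwaveZero {n : ℕ} (A : Matrix (Fin g) (Fin g) ℝ)
    (u : (Fin (n + 1) → Fin g) → (Fin (n + 1) → Fin g) → ℚ) : Prop :=
  ∀ (I : Fin n → Fin g) (K : Fin (n + 2) → Fin g),
    ∑ l : Fin (n + 2), (-1 : ℝ) ^ (l : ℕ) *
      ∑ j, A (K l) j * (u (Fin.cons j I) (K ∘ l.succAbove) : ℝ) = 0

/-- The coordinates of `u` in `⋀^q ℝ^g ⊗ ⋀^q ℝ^g` in the standard bases. -/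
noncomputable def realClass {q : ℕ} (A : Matrix (Fin g) (Fin g) ℝ)
    (u : (Fin q → Fin g) → (Fin q → Fin g) → ℚ) (I J : Fin q → Fin g) : ℝ :=
  ∑ K : Fin q → Fin g, (∏ l, A (I l) (K l)) * (u K J : ℝ)

end H57T
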