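import Pool.Agent.Lib.MP_e9c0f3_ag.H57T.Base

open ExteriorAlgebra Finset Matrix
open scoped Pointwise

namespace H57T

variable {m g : ℕ}

variable {q : ℕ}

/-- A lattice point in homogeneous coordinates. -/
def dw_hat (c : Fin g → ℤ) : ℚ × (Fin g → ℚ) := (1, qv c)

lemma dw_eq_hat : ∀ cs : List (Fin g → ℤ), dw cs =
    ExteriorAlgebra.map (LinearMap.snd ℚ _ _) (ctr (LinearMap.fst ℚ _ _) (wl (cs.map dw_hat)))
  | [] => by simp [dw]
  | [a] => by
    rw [List.map_singleton, wl_cons, ctr_ι_mul]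
    simp [dw, dw_hat]
  | a :: b :: L => by
    have h : wl ((a :: b :: L).map dw_hat) =
        ι ℚ (dw_hat a - dw_hat b) * wl ((b :: L).map dw_hat) := by
      rw [map_sub, sub_mul, List.map_cons (l := L), wl_cons (dw_hat b), ι_mul_ι_mul_self, sub_zero,
        List.map_cons, List.map_cons, wl_cons, wl_cons]
    rw [h, ctr_ι_mul, dw, dw_eq_hat (b :: L), map_sub (ExteriorAlgebra.map _), map_smul, map_mul,
      map_apply_ι, qv_sub, ← neg_sub (qv a), map_neg, neg_mul]
    simp [dw_hat]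

lemma dw_alt (ψ : Module.Dual ℚ (ℚ × (Fin g → ℚ))) (cs : List (Fin g → ℤ)) :
    alt cs (fun c cs' => ψ (dw_hat c) • dw cs') = ExteriorAlgebra.map (LinearMap.snd ℚ _ _)
      (ctr (LinearMap.fst ℚ _ _) (ctr ψ (wl (cs.map dw_hat)))) := by
  rw [ctr_wl ψ, alt_map, map_alt, map_alt]
  simp only [map_smul, dw_eq_hat]

lemma dw_cocycle (cs : List (Fin g → ℤ)) : alt cs (fun _ cs' => dw cs') = 0 := by
  have h := dw_alt (LinearMap.fst ℚ _ _) cs
  rw [ctr_ctr, map_zero] at h
  simpa [dw_hat] using h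

lemma dw_coord (cs : List (Fin g → ℤ)) (j : Fin g) :
    alt cs (fun c cs' => (c j : ℚ) • dw cs') = -ctr (LinearMap.proj j) (dw cs) := by
  have h := dw_alt (LinearMap.proj j ∘ₗ LinearMap.snd ℚ _ _) cs
  rw [ctr_comm, map_neg, map_ctr, ← dw_eq_hat] at h
  exact h

lemma dw_eq_wl (cs : List (Fin g → ℤ)) (h : cs ≠ []) :
    ∃ L : List (Fin g → ℚ), L.length + 1 = cs.length ∧ dw cs = wl L := by
  induction cs with
  | nil => exact absurd rfl h
  | cons a cs ih =>
    cases cs with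
    | nil => exact ⟨[], rfl, rfl⟩
    | cons b L =>
      obtain ⟨L', h1, h2⟩ := ih (by simp)
      exact ⟨qv (b - a) :: L', by simp [h1], by rw [dw, h2, wl_cons]⟩

lemma dw_shift (γ : Fin g → ℤ) (cs : List (Fin g → ℤ)) : dw (cs.map (· + γ)) = dw cs := by
  induction cs with
  | nil => rfl
  | cons a cs ih =>
    cases cs with
    | nil => rfl
    | cons b L =>
      rw [List.map_cons] at ih
      rw [List.map_cons, List.map_cons, dw, dw, ih, add_sub_add_right_eq_sub]

lemma dw_ι_mul_wl (x : Fin g → ℚ) (L : List (Fin g → ℚ)) :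
    ι ℚ x * wl L = ((-1 : ℚ) ^ L.length • wl L) * ι ℚ x := by
  induction L with
  | nil => simp
  | cons a L ih =>
    rw [wl_cons, ι_mul_ι_mul_swap, ih]
    simp [pow_succ, mul_assoc]

lemma dw_slot {p : ℕ} (n : Fin p → Fin g → ℚ) (s : Fin p) :
    ∃ η, ∀ x, ιMulti ℚ p (Function.update n s x) = η * ι ℚ x := by
  induction p with
  | zero => exact s.elim0
  | succ p ih =>
    cases s using Fin.cases with
    | zero =>
      refine ⟨(-1 : ℚ) ^ (List.ofFn (Fin.tail n)).length • wl (List.ofFn (Fin.tail n)), fun x => ?_⟩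
      rw [← dw_ι_mul_wl, wl_ofFn, ιMulti_succ_apply, Function.update_self]
      exact congrArg (fun v => ι ℚ x * ιMulti ℚ p v) (Fin.tail_update_zero n x)
    | succ s =>
      obtain ⟨η, hη⟩ := ih (Fin.tail n) s
      refine ⟨ι ℚ (n 0) * η, fun x => ?_⟩
      rw [mul_assoc, ← hη, ιMulti_succ_apply, Function.update_of_ne (Fin.succ_ne_zero s).symm]
      exact congrArg (fun v => ι ℚ (n 0) * ιMulti ℚ p v) (Fin.tail_update_succ n s x)

lemma dw_qv_mulVec (A : Matrix (Fin g) (Fin g) ℤ) (c : Fin g → ℤ) :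
    qv (A *ᵥ c) = ∑ j, (c j : ℚ) • qv (A *ᵥ Pi.single j 1) := by
  ext k
  simp [qv, mulVec, dotProduct, Finset.sum_apply, mul_comm]

lemma wf_hodge {B : Mats m g} {u : Arr g q} (hu : HodgeE B u) {p : ℕ} (hpq : p + q = g)
    (cs : List (Fin g → ℤ)) (hc : cs.length = p + 2) (n : Fin p → Fin g → ℚ) (s : Fin p)
    (i : Fin (m + 1)) :
    alt cs (fun c cs' => wf u (dw cs')
      (ιMulti ℚ p (Function.update n s (qv (B i *ᵥ c))))) = 0 := by
  obtain ⟨η, hη⟩ := dw_slot n s
  obtain ⟨L, hL, hd⟩ := dw_eq_wl cs (by rintro rfl; simp at hc)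
  have e1 : ∀ (c : Fin g → ℤ) (ξ : Ex (Fin g → ℚ)),
      wf u ξ (ιMulti ℚ p (Function.update n s (qv (B i *ᵥ c)))) = ∑ I, ∑ J, ∑ j,
        ((u I J * vol (η * (ι ℚ (qv (B i *ᵥ Pi.single j 1)) * eI J))) •
          (vol ∘ₗ LinearMap.mulRight ℚ (eI I))) ((c j : ℚ) • ξ) := fun c ξ => by
    rw [hη, wf, dw_qv_mulVec]
    refine sum_congr rfl fun I _ => sum_congr rfl fun J _ => ?_
    rw [map_sum, mul_sum, sum_mul, map_sum, mul_sum]
    refine sum_congr rfl fun j _ => ?_
    simp only [map_smul, mul_smul_comm, smul_mul_assoc, LinearMap.smul_apply, LinearMap.comp_apply,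
      LinearMap.mulRight_apply, smul_eq_mul, mul_assoc]
    ring
  have e2 : ∀ (I : Fin q → Fin g) (j : Fin g), -ctr (LinearMap.proj j) (wl L) * eI I =
      (-1 : ℚ) ^ L.length • (wl L * ctr (LinearMap.proj j) (eI I)) := fun I j => by
    have h0 : wl L * eI I = 0 := by
      rw [eI, ← wl_ofFn, ← wl_append]
      refine wl_eq_zero_of_lt ?_
      simp only [Module.finrank_fin_fun, List.length_append, List.length_ofFn]
      omega
    have h1 := ctr_wl_mul (LinearMap.proj j) L (eI I)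
    rw [h0, map_zero] at h1
    rw [neg_mul]
    exact neg_eq_of_add_eq_zero_right h1.symm
  have h := hu i ((-1 : ℚ) ^ L.length • (vol ∘ₗ LinearMap.mulLeft ℚ (wl L)))
    (vol ∘ₗ LinearMap.mulLeft ℚ η)
  simp only [e1, alt_sum, ← map_alt, dw_coord]
  rw [← h]
  refine sum_congr rfl fun I _ => sum_congr rfl fun J _ => ?_
  rw [mul_sum]
  refine sum_congr rfl fun j _ => ?_
  simp only [hd, LinearMap.smul_apply, LinearMap.comp_apply, LinearMap.mulRight_apply,
    LinearMap.mulLeft_apply, e2, map_smul, smul_eq_mul]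
  ring

end H57T
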