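import Pool.Agent.Lib.MP_e9c0f3_ag.H57T.Base

open ExteriorAlgebra Finset Matrix
open scoped Pointwise

namespace H57T

variable {m g : ℕ}

/-- A real solution of a rational homogeneous system is a combination of rational solutions. -/
theorem par_span {κ : Type*} (c : κ → Fin g → Fin g → ℚ) (A : Matrix (Fin g) (Fin g) ℝ)
    (h : ∀ k, ∑ a, ∑ b, (c k a b : ℝ) * A a b = 0) :
    ∃ (d : ℕ) (x : Fin d → ℝ) (C : Fin d → Fin g → Fin g → ℚ),
      (∀ l k, ∑ a, ∑ b, c k a b * C l a b = 0) ∧ ∀ a b, A a b = ∑ l, x l * (C l a b : ℝ) := by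
  let V : Submodule ℚ ℝ := Submodule.span ℚ (Set.range fun p : Fin g × Fin g => A p.1 p.2)
  have : Module.Finite ℚ V := Module.Finite.span_of_finite ℚ (Set.finite_range _)
  let e := Module.finBasis ℚ V
  let v : Fin g → Fin g → V := fun a b => ⟨A a b, Submodule.subset_span ⟨(a, b), rfl⟩⟩
  refine ⟨_, fun l => (e l : ℝ), fun l a b => e.repr (v a b) l, fun l k => ?_, fun a b => ?_⟩
  · have h0 : ∑ a, ∑ b, c k a b • v a b = 0 := by
      apply Subtype.ext
      rw [ZeroMemClass.coe_zero, ← h k, AddSubmonoidClass.coe_finsetSum]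
      refine sum_congr rfl fun a _ => ?_
      rw [AddSubmonoidClass.coe_finsetSum]
      refine sum_congr rfl fun b _ => ?_
      rw [Submodule.coe_smul, Rat.smul_def]
    have h1 := congrArg (fun w => e.repr w l) h0
    simpa [map_sum, Finsupp.finsetSum_apply] using h1
  · have h1 := congrArg (fun w : V => (w : ℝ)) (e.sum_repr (v a b))
    simp only [AddSubmonoidClass.coe_finsetSum, Submodule.coe_smul, Rat.smul_def] at h1
    rw [show A a b = (v a b : ℝ) from rfl, ← h1]
    exact sum_congr rfl fun l _ => mul_comm _ _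

/-- A real point is a positive combination of rational points close to it. -/
theorem par_coef {d : ℕ} (x : Fin d → ℝ) {r : ℝ} (hr : 0 < r) :
    ∃ (y : Fin (d + 1) → Fin d → ℚ) (lam : Fin (d + 1) → ℝ), (∀ i, 0 < lam i) ∧
      (∀ i l, |(y i l : ℝ) - x l| ≤ r) ∧ ∀ l, x l = ∑ i, lam i * (y i l : ℝ) := by
  obtain ⟨ε, h0, h1⟩ := exists_rat_btwn hr
  have hd : (0 : ℝ) < d + 1 := by positivity
  have hη : 0 < (ε : ℝ) / (d + 1) := div_pos h0 hd
  have hη1 : (ε : ℝ) / (d + 1) ≤ ε := div_le_self h0.le (by linarith [Nat.cast_nonneg (α := ℝ) d])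
  choose z hz1 hz2 using fun l => exists_rat_btwn (sub_lt_self (x l) hη)
  refine ⟨Fin.cons z fun k l => z l + if k = l then ε else 0,
    Fin.cons (1 - ∑ k, (x k - z k) / ε) fun k => (x k - z k) / ε, ?_, ?_, ?_⟩
  · refine Fin.cases ?_ fun k => ?_
    · rw [Fin.cons_zero, sub_pos]
      calc ∑ k, (x k - z k) / ε ≤ ∑ _k : Fin d, 1 / ((d : ℝ) + 1) := by
            refine sum_le_sum fun k _ => ?_
            rw [div_le_iff₀ h0, one_div, inv_mul_eq_div]
            linarith [hz1 k]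
        _ < 1 := by
            rw [sum_const, card_univ, Fintype.card_fin, nsmul_eq_mul, mul_one_div, div_lt_one hd]
            linarith
    · rw [Fin.cons_succ]
      exact div_pos (sub_pos.2 (hz2 k)) h0
  · refine Fin.cases (fun l => ?_) fun k l => ?_
    · rw [Fin.cons_zero, abs_le]
      constructor <;> linarith [hz1 l, hz2 l]
    · rw [Fin.cons_succ, abs_le]
      split_ifs <;> push_cast <;> constructor <;> linarith [hz1 l, hz2 l]
  · intro l
    rw [Fin.sum_univ_succ]
    simp only [Fin.cons_zero, Fin.cons_succ]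
    have e1 : ∀ k : Fin d, (x k - z k) / ε * ((z l + if k = l then ε else 0 : ℚ) : ℝ) =
        (x k - z k) / ε * z l + if k = l then x k - z k else 0 := by
      intro k
      split_ifs
      · push_cast
        field_simp
      · simp
    simp only [e1, sum_add_distrib, sum_ite_eq', mem_univ, if_true, ← sum_mul]
    ring

/-- Clearing denominators. -/
theorem par_den (M : Fin g → Fin g → ℚ) :
    ∃ (N : ℕ) (B : Matrix (Fin g) (Fin g) ℤ), 0 < N ∧ ∀ a b, (B a b : ℚ) = N * M a b := by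
  have h : ∀ a b, ∃ z : ℤ, (z : ℚ) = (∏ p : Fin g × Fin g, (M p.1 p.2).den : ℕ) * M a b := by
    intro a b
    obtain ⟨t, ht⟩ := dvd_prod_of_mem (fun p : Fin g × Fin g => (M p.1 p.2).den) (mem_univ (a, b))
    refine ⟨(M a b).num * t, ?_⟩
    rw [ht]
    push_cast
    rw [← Rat.mul_den_eq_num]
    ring
  choose B hB using h
  exact ⟨_, Matrix.of B, prod_pos fun p _ => (M p.1 p.2).den_pos, hB⟩

/-- Positive multiples of matrices close to one invertible matrix. -/
theorem par_hyp (B : Mats m g) (Q : Matrix (Fin g) (Fin g) ℝ) (N : Fin (m + 1) → ℝ)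
    (hN : ∀ i, 0 < N i) (E : Fin (m + 1) → Matrix (Fin g) (Fin g) ℝ)
    (hE : ∀ i a b, |E i a b| ≤ 1 / (2 * (g + 1)))
    (h : ∀ i, Q * (B i).map (Int.cast : ℤ → ℝ) = N i • (1 + E i)) : Hyp B := by
  intro D hD h0
  have h1 : ∀ j, ∑ i, N i * D i j = -∑ i, N i * ∑ l, E i j l * D i l := by
    intro j
    have h2 := congrArg (fun v => (Q *ᵥ v) j) h0
    simp only [mulVec_sum, mulVec_mulVec, h, mulVec_zero, smul_mulVec, add_mulVec, one_mulVec,
      Finset.sum_apply, Pi.smul_apply, Pi.add_apply, smul_eq_mul, Pi.zero_apply, mul_add,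
      sum_add_distrib] at h2
    exact eq_neg_of_add_eq_zero_left h2
  have h2 : ∀ j, ∑ i, N i * |D i j| = |∑ i, N i * D i j| := by
    intro j
    rcases hD j with hj | hj
    · rw [abs_of_nonneg (sum_nonneg fun i _ => mul_nonneg (hN i).le (hj i))]
      exact sum_congr rfl fun i _ => by rw [abs_of_nonneg (hj i)]
    · rw [abs_of_nonpos (sum_nonpos fun i _ => mul_nonpos_of_nonneg_of_nonpos (hN i).le (hj i)),
        ← sum_neg_distrib]
      exact sum_congr rfl fun i _ => by rw [abs_of_nonpos (hj i), mul_neg]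
  obtain ⟨S, hS⟩ : ∃ S, S = ∑ i, ∑ l, N i * |D i l| := ⟨_, rfl⟩
  have hS0 : 0 ≤ S := hS ▸ sum_nonneg fun i _ => sum_nonneg fun l _ =>
    mul_nonneg (hN i).le (abs_nonneg _)
  have h3 : ∀ j, ∑ i, N i * |D i j| ≤ 1 / (2 * (g + 1)) * S := by
    intro j
    rw [h2, h1, abs_neg, hS, mul_sum]
    refine (abs_sum_le_sum_abs _ _).trans (sum_le_sum fun i _ => ?_)
    rw [abs_mul, abs_of_pos (hN i), ← mul_sum, mul_left_comm]
    refine mul_le_mul_of_nonneg_left ?_ (hN i).le
    rw [mul_sum]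
    refine (abs_sum_le_sum_abs _ _).trans (sum_le_sum fun l _ => ?_)
    rw [abs_mul]
    exact mul_le_mul_of_nonneg_right (hE i j l) (abs_nonneg _)
  have h4 : S ≤ g * (1 / (2 * (g + 1)) * S) := by
    calc S = ∑ j, ∑ i, N i * |D i j| := by rw [hS, sum_comm]
      _ ≤ ∑ _j : Fin g, 1 / (2 * ((g : ℝ) + 1)) * S := sum_le_sum fun j _ => h3 j
      _ = _ := by rw [sum_const, card_univ, Fintype.card_fin, nsmul_eq_mul]
  have hg : (0 : ℝ) ≤ g := Nat.cast_nonneg g
  have h5 : S = 0 := by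
    have h6 : (g : ℝ) * (1 / (2 * (g + 1))) ≤ 1 / 2 := by
      rw [mul_one_div, div_le_div_iff₀ (by positivity) (by norm_num)]
      linarith
    rw [← mul_assoc] at h4
    have := mul_le_mul_of_nonneg_right h6 hS0
    linarith
  funext i l
  rw [hS, sum_eq_zero_iff_of_nonneg fun i _ => sum_nonneg fun l _ =>
    mul_nonneg (hN i).le (abs_nonneg _)] at h5
  have h7 := h5 i (mem_univ i)
  rw [sum_eq_zero_iff_of_nonneg fun l _ => mul_nonneg (hN i).le (abs_nonneg _)] at h7
  have h8 := (mul_eq_zero.1 (h7 l (mem_univ l))).resolve_left (hN i).ne'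
  exact abs_eq_zero.1 h8

theorem exists_param {κ : Type*} [Fintype κ] (c : κ → Fin g → Fin g → ℚ)
    (A : Matrix (Fin g) (Fin g) ℝ) (hA : A.det ≠ 0)
    (h : ∀ k, ∑ a, ∑ b, (c k a b : ℝ) * A a b = 0) :
    ∃ (m : ℕ) (B : Mats m g) (lam : Fin (m + 1) → ℝ), (∀ i, 0 < lam i) ∧ Hyp B ∧
      (∀ i k, ∑ a, ∑ b, c k a b * (B i a b : ℚ) = 0) ∧
      A = ∑ i, lam i • (B i).map (Int.cast : ℤ → ℝ) := by
  obtain ⟨d, x, C, hC, hx⟩ := par_span c A h
  obtain ⟨T, hT⟩ : ∃ T : Fin d → Fin g → Fin g → ℝ,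
      ∀ l a b, T l a b = ∑ j, A⁻¹ a j * (C l j b : ℝ) := ⟨_, fun _ _ _ => rfl⟩
  obtain ⟨K, hK⟩ : ∃ K : ℝ, K = 1 + ∑ a, ∑ b, ∑ l, |T l a b| := ⟨_, rfl⟩
  have hK1 : ∀ a b, ∑ l, |T l a b| ≤ K := by
    intro a b
    have h1 : ∑ l, |T l a b| ≤ ∑ b, ∑ l, |T l a b| :=
      single_le_sum (f := fun b => ∑ l, |T l a b|)
        (fun _ _ => sum_nonneg fun _ _ => abs_nonneg _) (mem_univ b)
    have h2 : ∑ b, ∑ l, |T l a b| ≤ ∑ a, ∑ b, ∑ l, |T l a b| :=
      single_le_sum (f := fun a => ∑ b, ∑ l, |T l a b|)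
        (fun _ _ => sum_nonneg fun _ _ => sum_nonneg fun _ _ => abs_nonneg _) (mem_univ a)
    linarith
  have hK0 : 0 < K := by
    rw [hK]
    positivity
  obtain ⟨y, lam, hl, hy, hxy⟩ := par_coef x (r := 1 / (2 * (g + 1)) / K) (by positivity)
  choose N B hN hB using fun i => par_den fun a b => ∑ l, y i l * C l a b
  have hBr : ∀ i a b, (B i a b : ℝ) = N i * ∑ l, (y i l : ℝ) * (C l a b : ℝ) := by
    intro i a b
    have := congrArg (Rat.cast : ℚ → ℝ) (hB i a b)
    push_cast at this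
    exact this
  have hNr : ∀ i, (0 : ℝ) < N i := fun i => by exact_mod_cast hN i
  refine ⟨d, B, fun i => lam i / N i, fun i => div_pos (hl i) (hNr i), ?_, fun i k => ?_, ?_⟩
  · refine par_hyp B A⁻¹ (fun i => N i) hNr
      (fun i => Matrix.of fun a b => ∑ l, ((y i l : ℝ) - x l) * T l a b) (fun i a b => ?_)
      fun i => ?_
    · rw [Matrix.of_apply]
      refine (abs_sum_le_sum_abs _ _).trans ?_
      calc ∑ l, |((y i l : ℝ) - x l) * T l a b|
          ≤ ∑ l, 1 / (2 * ((g : ℝ) + 1)) / K * |T l a b| := by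
            refine sum_le_sum fun l _ => ?_
            rw [abs_mul]
            exact mul_le_mul_of_nonneg_right (hy i l) (abs_nonneg _)
        _ ≤ 1 / (2 * ((g : ℝ) + 1)) / K * K := by
            rw [← mul_sum]
            exact mul_le_mul_of_nonneg_left (hK1 a b) (by positivity)
        _ = _ := div_mul_cancel₀ _ hK0.ne'
    · ext a b
      have key : ∀ w : Fin d → ℝ, ∑ j, A⁻¹ a j * ∑ l, w l * (C l j b : ℝ) =
          ∑ l, w l * T l a b := by
        intro w
        simp only [hT, mul_sum]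
        rw [sum_comm]
        exact sum_congr rfl fun l _ => sum_congr rfl fun j _ => by ring
      have h1 : (1 : Matrix (Fin g) (Fin g) ℝ) a b = ∑ l, x l * T l a b := by
        rw [← nonsing_inv_mul A (Ne.isUnit hA), mul_apply, ← key]
        exact sum_congr rfl fun j _ => by rw [hx j b]
      rw [mul_apply, Matrix.smul_apply, Matrix.add_apply, h1, Matrix.of_apply, ← sum_add_distrib, smul_eq_mul]
      have h2 : ∑ l, (x l * T l a b + ((y i l : ℝ) - x l) * T l a b) =
          ∑ l, (y i l : ℝ) * T l a b := sum_congr rfl fun l _ => by ring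
      rw [h2, ← key, mul_sum]
      refine sum_congr rfl fun j _ => ?_
      rw [map_apply, hBr]
      ring
  · have e1 : ∀ a b, c k a b * (B i a b : ℚ) = ∑ l, N i * y i l * (c k a b * C l a b) := by
      intro a b
      rw [hB, mul_sum, mul_sum]
      exact sum_congr rfl fun l _ => by ring
    simp only [e1]
    have e2 : ∀ a, ∑ b, ∑ l, (N i : ℚ) * y i l * (c k a b * C l a b) =
        ∑ l, ∑ b, (N i : ℚ) * y i l * (c k a b * C l a b) := fun a => sum_comm
    simp only [e2]
    rw [sum_comm]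
    refine sum_eq_zero fun l _ => ?_
    simp only [← mul_sum]
    rw [hC l k, mul_zero]
  · ext a b
    rw [Matrix.sum_apply, hx a b]
    have e1 : ∀ i, ((lam i / N i) • (B i).map (Int.cast : ℤ → ℝ)) a b =
        ∑ l, lam i * (y i l : ℝ) * (C l a b : ℝ) := by
      intro i
      rw [Matrix.smul_apply, map_apply, hBr, smul_eq_mul, ← mul_assoc, div_mul_cancel₀ _ (hNr i).ne',
        mul_sum]
      exact sum_congr rfl fun l _ => by ring
    simp only [e1]
    rw [sum_comm]
    refine sum_congr rfl fun l _ => ?_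
    rw [hxy l, sum_mul]

end H57T
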