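import Pool.Agent.Lib.MP_e9c0f3_ag.H57T.Core
import Pool.Agent.Lib.MP_e9c0f3_ag.H57T.Asm
import Pool.Agent.Lib.MP_e9c0f3_ag.H57T.Par
import Pool.Agent.Lib.MP_e9c0f3_ag.H57T.Bridge

/-! The tropical Hodge conjecture for tropical tori. -/

open ExteriorAlgebra Finset Matrix

namespace H57T

theorem tropical_hodge {g n : ℕ} (hn : n + 1 ≤ g) (A : Matrix (Fin g) (Fin g) ℝ) (hA : A.det ≠ 0)
    (u : Arr g (n + 1)) (hu : Alternating u) (hw : EigenwaveZero A u) :
    ∃ Z : TropCycle A (n + 1), Z.HasClass (realClass A u) := by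
  have hc : ∀ {K : Type} [Field K] [CharZero K] (M : Matrix (Fin g) (Fin g) K)
      (I : Fin n → Fin g) (J : Fin (n + 2) → Fin g),
      ∑ a, ∑ b, ((∑ l : Fin (n + 2), if J l = a then
        (-1) ^ (l : ℕ) * u (Fin.cons b I) (J ∘ l.succAbove) else 0 : ℚ) : K) * M a b =
      ∑ l : Fin (n + 2), (-1 : K) ^ (l : ℕ) *
        ∑ j, M (J l) j * (u (Fin.cons j I) (J ∘ l.succAbove) : K) := by
    intro K _ _ M I J
    simp only [Rat.cast_sum, sum_mul, mul_sum]
    rw [sum_comm]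
    conv_rhs => rw [sum_comm]
    refine sum_congr rfl fun b _ => ?_
    rw [sum_comm]
    refine sum_congr rfl fun l _ => ?_
    rw [sum_eq_single (J l)]
    · rw [if_pos rfl]; push_cast; ring
    · intro a _ ha; rw [if_neg ha.symm]; simp
    · simp
  obtain ⟨m, B, lam, hl, hB, hBu, rfl⟩ := exists_param
    (fun (k : (Fin n → Fin g) × (Fin (n + 2) → Fin g)) a b => ∑ l : Fin (n + 2), if k.2 l = a then
      (-1) ^ (l : ℕ) * u (Fin.cons b k.1) (k.2 ∘ l.succAbove) else 0) A hA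
    (fun k => by rw [hc]; exact hw k.1 k.2)
  have hE : HodgeE B u := hodgeE_of_coord hu fun i I K => by
    have := hc ((B i).map (Int.cast : ℤ → ℚ)) I K
    simp only [Rat.cast_id, Matrix.map_apply] at this
    rw [← this]
    exact hBu i (I, K)
  obtain ⟨z, hz1, hz2, hz3⟩ := core hB hE hn
  have hf : (((n + 1).factorial : ℚ) ^ 2) ≠ 0 := by positivity
  obtain ⟨Z, hZ⟩ := exists_cycle (q := n + 1) hB hl
    (fun ρ => (((n + 1).factorial : ℚ) ^ 2)⁻¹ * z ρ)
    (fun γ ρ hρ => by rw [hz1 γ ρ hρ])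
    (fun ρ hρ ℓ hℓ => by
      simp only [mul_left_comm _ (((n + 1).factorial : ℚ) ^ 2)⁻¹, ← mul_sum, hz2 ρ hρ ℓ hℓ,
        mul_zero])
  refine ⟨Z, ?_⟩
  have : realClass (∑ i, lam i • (B i).map (Int.cast : ℤ → ℝ)) u = fun I J =>
      ∑ ρ ∈ fund m g (m + 1 + (n + 1)), (((((n + 1).factorial : ℚ) ^ 2)⁻¹ * z ρ *
        thJ I (nbar B ρ) * thJ J (nbar B ρ) : ℚ) : ℝ) * vf lam (ρ.sort (· ≤ ·)) := by
    funext I J
    rw [real_of_rat _ _ _ B (fun K => u K J) I]
    · simp [realClass, Matrix.sum_apply]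
    · intro lam'
      refine mul_left_cancel₀ hf ?_
      rw [← sum_thJ B lam' hu, ← hz3, mul_sum]
      refine sum_congr rfl fun ρ _ => ?_
      field_simp
  rw [this]
  exact hZ

end H57T
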