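import Pool.Agent.Lib.MP_e9c0f3_ag.H57T.Dw

open ExteriorAlgebra Finset Matrix
open scoped Pointwise

namespace H57T

variable {m g : ℕ}

variable {q : ℕ}

/-- The form `wf u` as a bilinear map. -/
noncomputable def wm_wf (u : Arr g q) : Ex (Fin g → ℚ) →ₗ[ℚ] Ex (Fin g → ℚ) →ₗ[ℚ] ℚ :=
  LinearMap.mk₂ ℚ (wf u)
    (fun x y z => by simp only [wf, add_mul, map_add, mul_add, sum_add_distrib])
    (fun c x z => by
      simp only [wf, smul_mul_assoc, map_smul, smul_eq_mul, mul_sum]
      exact sum_congr rfl fun I _ => sum_congr rfl fun J _ => by ring)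
    (fun x y z => by simp only [wf, add_mul, map_add, mul_add, sum_add_distrib])
    (fun c x z => by
      simp only [wf, smul_mul_assoc, map_smul, smul_eq_mul, mul_sum]
      exact sum_congr rfl fun I _ => sum_congr rfl fun J _ => by ring)

lemma wm_wf_apply (u : Arr g q) (x y : Ex (Fin g → ℚ)) : wm_wf u x y = wf u x y := rfl

/-- The wedge product as a linear map in one slot. -/
noncomputable def wm_slot {p : ℕ} (v : Fin p → Fin g → ℚ) (s : Fin p) :
    (Fin g → ℚ) →ₗ[ℚ] Ex (Fin g → ℚ) :=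
  (ιMulti ℚ p (M := Fin g → ℚ)).toMultilinearMap.toLinearMap v s

lemma wm_slot_apply {p : ℕ} (v : Fin p → Fin g → ℚ) (s : Fin p) (x : Fin g → ℚ) :
    wm_slot v s x = ιMulti ℚ p (Function.update v s x) := rfl

lemma wm_W_cast (B : Mats m g) (u : Arr g q) (p : ℕ) (cs : List (Fin g → ℤ))
    (ns : List (Nv m g)) {n : ℕ} (h : n = cs.length) :
    W B u p cs ns = ∑ f : Fin p → Fin n, mu f *
      wf u (dw cs) (ιMulti ℚ p fun s => Tr B (cs.get ((f s).cast h)) (ns.getD s 0)) := by
  subst h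
  rfl

lemma wm_W_ofFn (B : Mats m g) (u : Arr g q) (p : ℕ) {n : ℕ} (c : Fin n → Fin g → ℤ)
    (ns : List (Nv m g)) :
    W B u p (List.ofFn c) ns = ∑ f : Fin p → Fin n, mu f *
      wf u (dw (List.ofFn c)) (ιMulti ℚ p fun s => Tr B (c (f s)) (ns.getD s 0)) := by
  rw [wm_W_cast B u p _ ns (List.length_ofFn (f := c)).symm]
  simp

lemma wm_Tr_apply (B : Mats m g) (c : Fin g → ℤ) (n : Nv m g) :
    Tr B c n = n.2 - ∑ i, n.1 i • qv (B i *ᵥ c) := by
  rw [← bm_apply]; rfl

lemma wm_mu_succAbove {p n : ℕ} (l : Fin (n + 1)) (f : Fin p → Fin n) :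
    mu (l.succAbove ∘ f) = mu f := by
  unfold mu
  rw [Fin.prod_univ_succAbove _ l]
  simp

lemma wm_sum_avoid {p n : ℕ} (l : Fin (n + 1)) (G : (Fin p → Fin (n + 1)) → ℚ) :
    ∑ f : Fin p → Fin n, mu f * G (l.succAbove ∘ f) =
      ∑ f : Fin p → Fin (n + 1), (if ∀ s, f s ≠ l then mu f else 0) * G f := by
  refine sum_of_injOn (fun f => l.succAbove ∘ f) ?_ (fun _ _ => mem_univ _) ?_ ?_
  · intro f _ f' _ h
    funext s
    exact Fin.succAbove_right_injective (congrFun h s)
  · intro f _ hf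
    rw [if_neg, zero_mul]
    intro h
    choose f' hf' using fun s => Fin.exists_succAbove_eq (h s)
    exact hf ⟨f', by simp, funext hf'⟩
  · intro f _
    rw [if_pos (show ∀ s, (l.succAbove ∘ f) s ≠ l from fun s => Fin.succAbove_ne l (f s)),
      wm_mu_succAbove]

/-- The product of the factorials of the fibre sizes, the point `s` left out. -/
def wm_mu {p n : ℕ} (f : Fin p → Fin n) (s : Fin p) : ℚ :=
  ∏ k, ((((univ.erase s).filter fun t => f t = k).card.factorial : ℕ) : ℚ)

lemma wm_mu_update {p n : ℕ} (f : Fin p → Fin n) (s : Fin p) (l : Fin n) :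
    wm_mu (Function.update f s l) s = wm_mu f s := by
  unfold wm_mu
  refine prod_congr rfl fun k _ => ?_
  rw [filter_congr fun t ht => by rw [Function.update_of_ne (ne_of_mem_erase ht)]]

lemma wm_mu_eq {p n : ℕ} (f : Fin p → Fin n) (s : Fin p) :
    mu f = ((univ.filter fun t => f t = f s).card : ℚ) * wm_mu f s := by
  unfold mu wm_mu
  rw [← mul_prod_erase _ _ (mem_univ (f s)), ← mul_prod_erase _ _ (mem_univ (f s)), ← mul_assoc]
  congr 1
  · have h : (univ.filter fun t => f t = f s).card =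
        ((univ.erase s).filter fun t => f t = f s).card + 1 := by
      rw [filter_erase, card_erase_add_one (by simp)]
    rw [h, Nat.factorial_succ, Nat.cast_mul]
  · refine prod_congr rfl fun k hk => ?_
    rw [filter_erase, erase_eq_of_notMem]
    simpa using (ne_of_mem_erase hk).symm

lemma wm_mu_split {p n : ℕ} (f : Fin p → Fin n) (l : Fin n) :
    (if ∀ s, f s ≠ l then mu f else 0) = mu f - ∑ s, if f s = l then wm_mu f s else 0 := by
  split_ifs with h
  · rw [sum_eq_zero fun s _ => if_neg (h s), sub_zero]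
  · push Not at h
    obtain ⟨s, hs⟩ := h
    have hN : ((univ.filter fun t => f t = l).card : ℚ) ≠ 0 := by
      exact_mod_cast (card_pos.2 ⟨s, by simp [hs]⟩).ne'
    rw [eq_comm, sub_eq_zero, ← sum_filter]
    apply mul_left_cancel₀ hN
    rw [mul_sum, sum_congr rfl (g := fun _ => mu f), sum_const, nsmul_eq_mul]
    intro t ht
    rw [wm_mu_eq f t, (mem_filter.1 ht).2]

lemma wm_sum_update {p n : ℕ} (s : Fin p) (G : (Fin p → Fin (n + 1)) → ℚ)
    (h : ∀ f, ∑ l, G (Function.update f s l) = 0) : ∑ f, G f = 0 := by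
  have hi : Function.Involutive fun x : (Fin p → Fin (n + 1)) × Fin (n + 1) =>
      (Function.update x.1 s x.2, x.1 s) := fun x => by simp
  have e := Equiv.sum_comp hi.toPerm fun x => G x.1
  simp only [Function.Involutive.coe_toPerm, Fintype.sum_prod_type, h, sum_const_zero, sum_const,
    card_univ, Fintype.card_fin, nsmul_eq_mul, ← mul_sum] at e
  exact (mul_eq_zero.1 e.symm).resolve_left (by positivity)

lemma wm_dw (u : Arr g q) {n : ℕ} (c : Fin (n + 1) → Fin g → ℤ) (η : Ex (Fin g → ℚ)) :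
    ∑ l : Fin (n + 1), (-1 : ℚ) ^ (l : ℕ) * wf u (dw (List.ofFn (c ∘ l.succAbove))) η = 0 := by
  have h := congrArg (fun x => wm_wf u x η) (dw_cocycle (List.ofFn c))
  rw [alt_ofFn] at h
  simpa only [map_sum, map_smul, LinearMap.sum_apply, LinearMap.smul_apply, smul_eq_mul,
    wm_wf_apply, map_zero, LinearMap.zero_apply] using h

lemma wm_slot_zero {B : Mats m g} {u : Arr g q} (hu : HodgeE B u) {p : ℕ} (hpq : p + q = g)
    (c : Fin (p + 2) → Fin g → ℤ) (v : Fin p → Fin g → ℚ) (s : Fin p) (n : Nv m g) :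
    ∑ l : Fin (p + 2), (-1 : ℚ) ^ (l : ℕ) * wf u (dw (List.ofFn (c ∘ l.succAbove)))
      (ιMulti ℚ p (Function.update v s (Tr B (c l) n))) = 0 := by
  have h : ∀ i, ∑ l : Fin (p + 2), (-1 : ℚ) ^ (l : ℕ) * wf u (dw (List.ofFn (c ∘ l.succAbove)))
      (ιMulti ℚ p (Function.update v s (qv (B i *ᵥ c l)))) = 0 := fun i => by
    have := wf_hodge hu hpq (List.ofFn c) (by simp) v s i
    rwa [alt_ofFn] at this
  have e : ∀ l : Fin (p + 2), (-1 : ℚ) ^ (l : ℕ) * wf u (dw (List.ofFn (c ∘ l.succAbove)))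
      (ιMulti ℚ p (Function.update v s (Tr B (c l) n))) =
      (-1 : ℚ) ^ (l : ℕ) * wf u (dw (List.ofFn (c ∘ l.succAbove)))
        (ιMulti ℚ p (Function.update v s n.2)) -
      ∑ i, n.1 i * ((-1 : ℚ) ^ (l : ℕ) * wf u (dw (List.ofFn (c ∘ l.succAbove)))
        (ιMulti ℚ p (Function.update v s (qv (B i *ᵥ c l))))) := fun l => by
    simp only [← wm_slot_apply, ← wm_wf_apply, wm_Tr_apply, map_sub, map_sum, map_smul,
      smul_eq_mul, mul_sub, mul_sum]
    congr 1
    exact sum_congr rfl fun i _ => by ring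
  rw [sum_congr rfl fun l _ => e l, sum_sub_distrib, wm_dw, sum_comm, zero_sub, neg_eq_zero]
  exact sum_eq_zero fun i _ => by rw [← mul_sum, h, mul_zero]

theorem W_cocycle {B : Mats m g} {u : Arr g q} (hu : HodgeE B u) {p : ℕ} (hpq : p + q = g)
    (cs : List (Fin g → ℤ)) (hc : cs.length = p + 2) (ns : List (Nv m g)) :
    alt cs (fun _ cs' => W B u p cs' ns) = 0 := by
  obtain ⟨c, rfl⟩ : ∃ c : Fin (p + 2) → Fin g → ℤ, cs = List.ofFn c :=
    ⟨fun i => cs.get (i.cast hc.symm), by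
      rw [← List.ofFn_congr hc cs.get, List.ofFn_get]⟩
  rw [alt_ofFn]
  obtain ⟨w, hw⟩ : ∃ w : Fin (p + 2) → (Fin p → Fin (p + 2)) → ℚ, ∀ l f, w l f =
      (-1 : ℚ) ^ (l : ℕ) * wf u (dw (List.ofFn (c ∘ l.succAbove)))
        (ιMulti ℚ p fun s => Tr B (c (f s)) (ns.getD s 0)) := ⟨_, fun _ _ => rfl⟩
  have e : ∀ l : Fin (p + 2), (-1 : ℚ) ^ (l : ℕ) • W B u p (List.ofFn (c ∘ l.succAbove)) ns =
      ∑ f, mu f * w l f - ∑ f, ∑ s, if f s = l then wm_mu f s * w l f else 0 := fun l => by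
    have h1 := wm_sum_avoid l (w l)
    simp only [wm_mu_split, sub_mul, sum_sub_distrib, sum_mul, ite_mul, zero_mul] at h1
    rw [← h1, wm_W_ofFn, smul_eq_mul, mul_sum]
    refine sum_congr rfl fun f _ => ?_
    rw [hw, mul_left_comm]
    rfl
  rw [sum_congr rfl fun l _ => e l, sum_sub_distrib, sum_comm, sum_eq_zero, zero_sub, neg_eq_zero,
    sum_comm]
  · have e2 : ∀ f : Fin p → Fin (p + 2), (∑ l, ∑ s, if f s = l then wm_mu f s * w l f else 0) =
        ∑ s, wm_mu f s * w (f s) f := fun f => by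
      rw [sum_comm]
      simp
    rw [sum_congr rfl fun f _ => e2 f, sum_comm]
    refine sum_eq_zero fun s _ => wm_sum_update s _ fun f => ?_
    simp only [wm_mu_update, Function.update_self, ← mul_sum, hw]
    rw [← mul_zero (wm_mu f s), ← wm_slot_zero hu hpq c
      (fun t => Tr B (c (f t)) (ns.getD t 0)) s (ns.getD s 0)]
    refine congrArg (wm_mu f s * ·) (sum_congr rfl fun l _ => ?_)
    refine congrArg (fun v => (-1 : ℚ) ^ (l : ℕ) * wf u (dw (List.ofFn (c ∘ l.succAbove)))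
      (ιMulti ℚ p v)) (funext fun t => ?_)
    by_cases ht : t = s
    · rw [ht, Function.update_self, Function.update_self]
    · rw [Function.update_of_ne ht, Function.update_of_ne ht]
  · intro f _
    simp only [← mul_sum, hw]
    rw [wm_dw, mul_zero]

theorem W_lin (B : Mats m g) (u : Arr g q) {p : ℕ} (cs : List (Fin g → ℤ))
    (as bs : List (Nv m g)) (h : as.length < p) :
    IsLinearMap ℚ fun n => W B u p cs (as ++ n :: bs) := by
  have e : (fun n => W B u p cs (as ++ n :: bs)) = ⇑(∑ f : Fin p → Fin cs.length, mu f •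
      (wm_wf u (dw cs) ∘ₗ
        wm_slot (fun s => Tr B (cs.get (f s)) ((as ++ 0 :: bs).getD s 0)) ⟨as.length, h⟩ ∘ₗ
        Tr B (cs.get (f ⟨as.length, h⟩)))) := by
    funext n
    simp only [W, LinearMap.sum_apply, LinearMap.smul_apply, LinearMap.comp_apply, smul_eq_mul,
      wm_wf_apply, wm_slot_apply]
    refine sum_congr rfl fun f _ => ?_
    congr 3
    funext s
    by_cases hs : s = ⟨as.length, h⟩
    · subst hs; simp
    · rw [Function.update_of_ne hs]
      congr 1
      have hs' : (s : ℕ) ≠ as.length := fun e => hs (Fin.ext e)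
      rcases lt_or_gt_of_ne hs' with h1 | h1
      · rw [List.getD_append _ _ _ _ h1, List.getD_append _ _ _ _ h1]
      · rw [List.getD_append_right _ _ _ _ h1.le, List.getD_append_right _ _ _ _ h1.le]
        obtain ⟨k, hk⟩ : ∃ k, (s : ℕ) - as.length = k + 1 := ⟨s - as.length - 1, by omega⟩
        rw [hk, List.getD_cons_succ, List.getD_cons_succ]
  rw [e]
  exact LinearMap.isLinear _

lemma wm_Tr_shift (B : Mats m g) (c γ : Fin g → ℤ) (n : Nv m g) :
    Tr B (c + γ) (shear B γ n) = Tr B c n := by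
  rw [wm_Tr_apply, wm_Tr_apply, shear_apply, bm_apply]
  simp only [mulVec_add, qv_add, smul_add, sum_add_distrib]
  abel

theorem W_shift (B : Mats m g) (u : Arr g q) (p : ℕ) (γ : Fin g → ℤ) (cs : List (Fin g → ℤ))
    (ns : List (Nv m g)) :
    W B u p (cs.map (· + γ)) (ns.map (shear B γ)) = W B u p cs ns := by
  rw [wm_W_cast B u p _ _ (List.length_map (as := cs) (· + γ)).symm, dw_shift, W]
  refine sum_congr rfl fun f _ => ?_
  congr 3
  funext s
  have e := List.getD_map (l := ns) (n := s) (d := 0) (shear B γ)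
  rw [map_zero] at e
  rw [e, ← wm_Tr_shift B (cs.get (f s)) γ]
  simp

theorem W_flat (p : ℕ) : ∃ κ : ℚ, κ ≠ 0 ∧ ∀ (B : Mats m g) (u : Arr g q)
    (cs : List (Fin g → ℤ)) (ns : List (Fin g → ℚ)), cs.length = p + 1 → ns.length = p →
    W B u p cs (ns.map fun x => ((0, x) : Nv m g)) = κ * wf u (dw cs) (wl ns) := by
  refine ⟨∑ f : Fin p → Fin (p + 1), mu f, ne_of_gt (sum_pos (fun f _ => ?_) univ_nonempty),
    fun B u cs ns hc hn => ?_⟩
  · exact prod_pos fun k _ => by exact_mod_cast Nat.factorial_pos _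
  · rw [wm_W_cast B u p _ _ hc.symm, sum_mul]
    refine sum_congr rfl fun f _ => ?_
    subst hn
    have e := wl_ofFn ns.get
    rw [List.ofFn_get] at e
    rw [e]
    refine congrArg (fun v => mu f * wf u (dw cs) (ιMulti ℚ ns.length v)) (funext fun s => ?_)
    simp [wm_Tr_apply]

end H57T
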