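import Pool.Agent.Lib.MP_e9c0f3_ag.H57T.Corner
import Pool.Agent.Lib.MP_e9c0f3_ag.H57T.WM

/-! The zigzag computing the class of the cycle. -/

open ExteriorAlgebra Finset Matrix

namespace H57T

variable {m g q : ℕ} {B : Mats m g} {u : Arr g q} {θ : Module.Dual ℚ (Ex (Fin g → ℚ))}
  {ρ : Finset (Ray m g)}

lemma EE_sum {β : Type*} (k : ℕ) (s : Finset β) (c : β → ℚ) (ω : β → List (Nv m g) → ℚ) :
    EE θ k (fun l => ∑ b ∈ s, c b * ω b l) = ∑ b ∈ s, c b • EE θ k (ω b) := by
  induction k generalizing ω with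
  | zero => simp [EE, sum_smul, mul_smul]
  | succ k ih =>
    simp only [EE, smul_sum]
    rw [sum_comm]
    refine sum_congr rfl fun b _ => ?_
    rw [ih]
    exact LinearMap.ext fun x => by simp [LinearMap.sum_apply]

lemma EE_add (k : ℕ) (c : ℚ) (ω ω' : List (Nv m g) → ℚ) :
    EE θ k (fun l => ω l + c * ω' l) = EE θ k ω + c • EE θ k ω' := by
  have := EE_sum (θ := θ) k (univ : Finset (Fin 2)) ![1, c] ![ω, ω']
  simpa [Fin.sum_univ_two] using this

lemma EE_alt {α : Type*} (k : ℕ) (L : List α) (ω : List α → List (Nv m g) → ℚ) :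
    alt L (fun _ L' => EE θ k (ω L')) = EE θ k fun l => alt L fun _ L' => ω L' l := by
  induction L generalizing ω with
  | nil =>
    have := EE_sum (m := m) (θ := θ) k (∅ : Finset Unit) (fun _ => 0) (fun _ _ => 0)
    simpa using this.symm
  | cons b L ih =>
    simp only [alt_cons]
    rw [ih fun L' => ω (b :: L')]
    have := EE_add (θ := θ) k (-1) (ω L) (fun l => alt L fun _ L' => ω (b :: L') l)
    simpa [sub_eq_add_neg] using this.symm

lemma EE_lin (k : ℕ) {ω : Nv m g → List (Nv m g) → ℚ} (h : ∀ l, IsLinearMap ℚ fun n => ω n l) :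
    IsLinearMap ℚ fun n => EE θ k (ω n) := by
  constructor
  · intro x y
    have := EE_add (θ := θ) k 1 (ω x) (ω y)
    simp only [one_mul, one_smul] at this
    rw [← this]
    congr 1
    funext l
    exact (h l).map_add x y
  · intro c x
    have := EE_sum (θ := θ) k (univ : Finset Unit) (fun _ => c) (fun _ => ω x)
    simp only [univ_unique, sum_singleton] at this
    rw [← this]
    congr 1
    funext l
    exact (h l).map_smul c x

lemma lin_expand {V : Type*} [AddCommGroup V] [Module ℚ V] {f : Nv m g → V}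
    (h : IsLinearMap ℚ f) (n : Nv m g) : ∑ b, dbas b n • f (bas b) = f n := by
  conv_rhs => rw [← sum_dbas_smul_bas n]
  rw [show f (∑ b, dbas b n • bas b) = h.mk' f (∑ b, dbas b n • bas b) from rfl, map_sum]
  exact sum_congr rfl fun b _ => by rw [map_smul]; rfl

lemma EE_succ_nu (k : ℕ) {ω : List (Nv m g) → ℚ} (h : ∀ l, IsLinearMap ℚ fun n => ω (n :: l))
    (f : Ray m g → Nv m g) (ρ : Finset (Ray m g)) :
    EE θ (k + 1) ω (nu f ρ) =
      ∑ r ∈ ρ, sg r ρ * EE θ k (fun l => ω (f r :: l)) (nu f (ρ.erase r)) := by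
  simp only [EE, LinearMap.sum_apply, LinearMap.comp_apply, ctr_nu, map_sum, map_smul]
  rw [sum_comm]
  refine sum_congr rfl fun r _ => ?_
  rw [← lin_expand (EE_lin (θ := θ) k (ω := fun n l => ω (n :: l)) h) (f r)]
  simp only [LinearMap.sum_apply, LinearMap.smul_apply, smul_eq_mul, mul_sum, mul_assoc]

lemma EE_shift (k : ℕ) (γ : Fin g → ℤ) {ω : List (Nv m g) → ℚ}
    (h : ∀ as bs, as.length < k → IsLinearMap ℚ fun n => ω (as ++ n :: bs))
    (ρ : Finset (Ray m g)) :
    EE θ k ω (nu (vec B) (shift γ ρ)) =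
      EE θ k (fun l => ω (l.map (shear B γ))) (nu (vec B) ρ) := by
  induction k generalizing ω ρ with
  | zero =>
    simp only [EE, LinearMap.smul_apply, LinearMap.comp_apply, List.map_nil]
    rw [nu_shift, Dbar_shear]
  | succ k ih =>
    rw [EE_succ_nu k (fun l => h [] l (by simp)), EE_succ_nu k, sum_shift]
    · refine sum_congr rfl fun r _ => ?_
      rw [sg_shift, ← shift_erase, ih, vec_sh]
      · rfl
      · intro as bs hl
        exact h (_ :: as) bs (by simpa using hl)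
    · intro l
      have := h [] (l.map (shear B γ)) (by simp)
      exact ⟨fun x y => by simpa using this.map_add _ _, fun c x => by
        simpa using this.map_smul c _⟩

variable (B u θ)

/-- The coefficient form at a stage of the zigzag. -/
noncomputable def co (p k : ℕ) (cs : List (Fin g → ℤ)) (ns : List (Nv m g))
    (rs : List (Ray m g)) : Module.Dual ℚ (Ex (Nv m g)) :=
  EE θ k fun ws => W B u p (rs.map Ray.pos ++ cs) (rs.map (vec B) ++ (ns ++ ws))

noncomputable def FF (p j k : ℕ) (cs : List (Fin g → ℤ)) (ρ : Finset (Ray m g)) : ℚ :=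
  T B j (co B u θ p k cs []) ρ (nu (vec B) ρ)

noncomputable def GG (p j k : ℕ) (cs : List (Fin g → ℤ)) (ρ : Finset (Ray m g)) : ℚ :=
  ∑ r ∈ ρ, sg r ρ * T B j (co B u θ p k (r.pos :: cs) [vec B r]) ρ (nu (vec B) (ρ.erase r))

variable {B u θ}

lemma sg_three {κ : Type*} [LinearOrder κ] {r s : κ} {ρ : Finset κ} (hr : r ∈ ρ) (hs : s ∉ ρ) :
    sg s ρ * sg r (insert s ρ) * sg s (ρ.erase r) = -sg r ρ := by
  have hne : r ≠ s := fun e => hs (e ▸ hr)
  have key : ∀ (a b : κ) (σ : Finset κ), a ∉ σ →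
      sg b (insert a σ) = if a < b then -sg b σ else sg b σ := by
    intro a b σ ha
    unfold sg
    rw [filter_insert]
    split_ifs
    · rw [card_insert_of_notMem (by simp [ha]), pow_succ]; ring
    · rfl
  have h1 := key r s (ρ.erase r) (notMem_erase r ρ)
  rw [insert_erase hr] at h1
  rw [key s r ρ hs, h1]
  have h2 := sg_mul_self s (ρ.erase r)
  rcases lt_or_gt_of_ne hne with h | h
  · rw [if_pos h, if_neg h.le.not_gt]; linear_combination (-sg r ρ) * h2
  · rw [if_neg h.le.not_gt, if_pos h]; linear_combination (-sg r ρ) * h2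

lemma bd_GG (hB : Hyp B) (hρ : Good ρ) (p j k : ℕ) (cs : List (Fin g → ℤ)) :
    ∑ s ∈ link ρ, sg s ρ * GG B u θ p j k cs (insert s ρ) = FF B u θ p (j + 1) k cs ρ := by
  have hco : ∀ r : Ray m g, (fun l => co B u θ p k cs [] (l ++ [r])) =
      co B u θ p k (r.pos :: cs) [vec B r] := by
    intro r; funext l; simp [co]
  rw [FF, T_succ, sum_star hρ.1]
  simp only [hco, LinearMap.add_apply, LinearMap.sum_apply]
  have h1 : ∀ s ∈ link ρ, sg s ρ * GG B u θ p j k cs (insert s ρ) =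
      X B s (T B j (co B u θ p k (s.pos :: cs) [vec B s])) ρ (nu (vec B) ρ) +
      ∑ r ∈ ρ, -sg r ρ * T B j (co B u θ p k (r.pos :: cs) [vec B r]) (insert s ρ)
        (ι ℚ (vec B s) * nu (vec B) (ρ.erase r)) := by
    intro s hs
    have hn := notMem_of_link hs
    rw [GG, sum_insert hn, erase_insert hn, sg_insert_self, mul_add, ← mul_assoc, sg_mul_self,
      one_mul, X_of_link hs, mul_sum]
    congr 1
    refine sum_congr rfl fun r hr => ?_
    rw [erase_insert_of_ne (fun e : s = r => hn (e ▸ hr)),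
      nu_insert _ (fun h => hn (mem_of_mem_erase h)), map_smul, smul_eq_mul, ← sg_three hr hn]
    ring
  rw [sum_congr rfl h1, sum_add_distrib, sum_comm]
  congr 1
  refine sum_congr rfl fun r hr => ?_
  have h2 := bal_expand hB hρ.1 (bal_T hB j (co B u θ p k (r.pos :: cs) [vec B r]) ρ hρ)
    (Module.Dual.eval ℚ _ ∘ₗ LinearMap.mulRight ℚ (nu (vec B) (ρ.erase r)) ∘ₗ ι ℚ)
  simp only [LinearMap.comp_apply, LinearMap.mulRight_apply, Module.Dual.eval_apply] at h2
  rw [← mul_sum, h2, sum_eq_single r]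
  · conv_rhs => rw [← insert_erase hr, nu_insert _ (notMem_erase r ρ), insert_erase hr]
    rw [map_smul, sg_erase_self, smul_eq_mul]
    ring
  · intro t ht hne
    rw [ι_mul_nu_of_mem _ (mem_erase.2 ⟨hne, ht⟩), map_zero]
  · intro h; exact absurd hr h

lemma T_apply (j : ℕ) (a : List (Ray m g) → Module.Dual ℚ (Ex (Nv m g))) (ξ : Ex (Nv m g)) :
    T B j a ρ ξ = T B j (fun l => a l ξ) ρ :=
  map_T (Module.Dual.eval ℚ _ ξ) j a ρ

lemma cobd_GG (hB : Hyp B) (hu : HodgeE B u) {p j k : ℕ} (hpq : p + q = g) (hjk : j + 1 + k = p)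
    (hρ : Good ρ) {cs : List (Fin g → ℤ)} (hc : cs.length = k + 2) :
    alt cs (fun _ cs' => GG B u θ p j k cs' ρ) = FF B u θ p j (k + 1) cs ρ := by
  unfold GG
  rw [alt_sum, FF, T_apply]
  have h1 : T B j (fun l => co B u θ p (k + 1) cs [] l (nu (vec B) ρ)) =
      T B j fun l => ∑ r ∈ ρ, sg r ρ • co B u θ p k cs [vec B r] l (nu (vec B) (ρ.erase r)) := by
    refine T_congr fun l hl => ?_
    rw [co, EE_succ_nu]
    · rfl
    · intro l'
      exact W_lin B u _ _ _ (by simp [hl]; omega)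
  rw [h1, T_sum]
  refine sum_congr rfl fun r hr => ?_
  have h2 := map_alt ((sg r ρ) • Module.Dual.eval ℚ _ (nu (vec B) (ρ.erase r))) cs
    (fun _ cs' => T B j (co B u θ p k (r.pos :: cs') [vec B r]) ρ)
  simp only [LinearMap.smul_apply, Module.Dual.eval_apply, smul_eq_mul] at h2
  rw [← h2, T_alt, ← T_apply, smul_eq_mul]
  congr 2
  have h3 := T_alt_zero hB j (fun L ns => EE θ k fun ws =>
    W B u p (L.map Ray.pos ++ r.pos :: cs) (ns ++ ([vec B r] ++ ws))) (fun L as bs h =>
      EE_lin k fun l => by simpa using W_lin B u _ as _ (by omega)) ρ hρ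
  have h4 := T_add (B := B) ((-1) ^ j) j (co B u θ p k cs [vec B r])
    (fun rs => alt rs fun _ L => EE θ k fun ws =>
      W B u p (L.map Ray.pos ++ r.pos :: cs) (rs.map (vec B) ++ ([vec B r] ++ ws))) ρ
  rw [h3, smul_zero, add_zero] at h4
  rw [← h4]
  refine congrFun (T_congr fun l hl => ?_) ρ
  unfold co
  rw [EE_alt, EE_alt, ← EE_add]
  congr 1
  funext ws
  have h5 := W_cocycle hu hpq (l.map Ray.pos ++ r.pos :: cs) (by simp [hl, hc]; omega)
    (l.map (vec B) ++ ([vec B r] ++ ws))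
  rw [alt_append, alt_map, alt_cons, List.length_map, hl, smul_eq_mul] at h5
  have h6 : ((-1 : ℚ) ^ j) * (-1) ^ j = 1 := by rw [← mul_pow]; simp
  linear_combination (-(-1 : ℚ) ^ j) * h5 + (W B u p (l.map Ray.pos ++ cs)
    (l.map (vec B) ++ ([vec B r] ++ ws)) - alt cs fun _ cs' => W B u p
      (l.map Ray.pos ++ r.pos :: cs') (l.map (vec B) ++ ([vec B r] ++ ws))) * h6

lemma GG_shift (hB : Hyp B) {p j k : ℕ} (hjk : j + 1 + k = p) (hρ : Good ρ) (γ : Fin g → ℤ)
    (cs : List (Fin g → ℤ)) :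
    GG B u θ p j k (cs.map (· + γ)) (shift γ ρ) = GG B u θ p j k cs ρ := by
  unfold GG
  rw [sum_shift]
  refine sum_congr rfl fun r _ => ?_
  rw [sg_shift, T_shift hB γ _ _ _ hρ, T_apply, T_apply, ← shift_erase]
  congr 1
  refine congrFun (T_congr fun l hl => ?_) ρ
  unfold co
  rw [EE_shift]
  · congr 2
    funext ws
    rw [← W_shift B u p γ (l.map Ray.pos ++ r.pos :: cs)]
    simp [vec_sh, Function.comp_def]
  · intro as bs h
    have := W_lin B u (p := p) ((l.map (sh γ)).map Ray.pos ++ (sh γ r).pos :: cs.map (· + γ))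
      ((l.map (sh γ)).map (vec B) ++ ([vec B (sh γ r)] ++ as)) bs (by simp [hl]; omega)
    simpa using this

lemma sum_fund_link {n : ℕ} (f : Ray m g → Finset (Ray m g) → ℚ)
    (hf : ∀ γ s σ, Good σ → s ∈ link σ → f (sh γ s) (shift γ σ) = f s σ)
    (h0 : ∀ s σ, ¬Good σ → Simp σ → f s σ = 0) :
    ∑ σ ∈ fund m g n, ∑ s ∈ link σ, f s σ =
      ∑ ρ ∈ fund m g (n + 1), ∑ s ∈ ρ, f s (ρ.erase s) := by
  classical
  have h1 : ∀ ρ ∈ fund m g (n + 1), ∑ s ∈ ρ, f s (ρ.erase s) =
      ∑ s ∈ ρ.filter fun s => Good (ρ.erase s), f s (ρ.erase s) := by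
    intro ρ hρ
    refine (sum_filter_of_ne fun s _ hne => ?_).symm
    by_contra h
    exact hne (h0 _ _ h ((mem_fund.1 hρ).1.1.mono (erase_subset _ _)))
  rw [sum_congr rfl h1, sum_sigma', sum_sigma']
  refine sum_nbij'
    (fun x => ⟨shift (-base (insert x.2 x.1)) (insert x.2 x.1), sh (-base (insert x.2 x.1)) x.2⟩)
    (fun x => ⟨shift (-base (x.1.erase x.2)) (x.1.erase x.2), sh (-base (x.1.erase x.2)) x.2⟩)
    ?_ ?_ ?_ ?_ ?_
  · rintro ⟨σ, s⟩ hx
    simp only [mem_sigma, mem_fund, mem_filter] at hx ⊢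
    obtain ⟨⟨hg, -, hc⟩, hs⟩ := hx
    refine ⟨⟨good_shift.2 (hg.insert hs), ?_, ?_⟩, sh_mem_shift.2 (mem_insert_self _ _), ?_⟩
    · rw [base_shift _ (insert_nonempty _ _), add_neg_cancel]
    · rw [card_shift, card_insert_of_notMem (notMem_of_link hs), hc]
    · rw [← shift_erase, erase_insert (notMem_of_link hs)]; exact good_shift.2 hg
  · rintro ⟨ρ, s⟩ hx
    simp only [mem_sigma, mem_fund, mem_filter] at hx ⊢
    obtain ⟨⟨hg, -, hc⟩, hs, hg'⟩ := hx
    refine ⟨⟨good_shift.2 hg', ?_, ?_⟩, ?_⟩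
    · rw [base_shift _ hg'.nonempty, add_neg_cancel]
    · rw [card_shift, card_erase_of_mem hs, hc]; rfl
    · rw [link_shift _ hg'.nonempty, sh_mem_shift, mem_link hg'.nonempty]
      exact ⟨fun r hr => hg.1 s hs r (mem_of_mem_erase hr), notMem_erase _ _⟩
  · rintro ⟨σ, s⟩ hx
    simp only [mem_sigma, mem_fund] at hx
    obtain ⟨⟨hg, hb, -⟩, hs⟩ := hx
    simp only [← shift_erase, erase_insert (notMem_of_link hs), base_shift _ hg.nonempty, hb,
      shift_shift, sh_sh, zero_add, add_neg_cancel, shift_zero, sh_zero]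
  · rintro ⟨ρ, s⟩ hx
    simp only [mem_sigma, mem_fund, mem_filter] at hx
    obtain ⟨⟨hg, hb, -⟩, hs, -⟩ := hx
    simp only [← shift_insert, insert_erase hs, base_shift _ hg.nonempty, hb,
      shift_shift, sh_sh, zero_add, add_neg_cancel, shift_zero, sh_zero]
  · rintro ⟨σ, s⟩ hx
    simp only [mem_sigma, mem_fund] at hx
    obtain ⟨⟨hg, -, -⟩, hs⟩ := hx
    simp only [← shift_erase, erase_insert (notMem_of_link hs)]
    exact (hf _ _ _ hg hs).symm

lemma alt_cup {α : Type*} (k : ℕ) (L : List α) (hL : k + 2 ≤ L.length) (f h : List α → ℚ) :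
    alt L (fun _ L' => f (L'.take (k + 1)) * h (L'.drop k)) =
      alt (L.take (k + 2)) (fun _ L' => f L') * h (L.drop (k + 1)) +
        (-1) ^ k * f (L.take (k + 1)) * alt (L.drop k) fun _ L' => h L' := by
  induction k generalizing L f with
  | zero =>
    match L, hL with
    | a :: b :: L, _ =>
      have := map_alt (LinearMap.mulLeft ℚ (f [a])) L (fun _ L' => h (a :: b :: L'))
      simp only [LinearMap.mulLeft_apply] at this
      simp [← this]
      ring
  | succ k ih =>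
    match L, hL with
    | a :: L, hL =>
      have hL' : k + 2 ≤ L.length := by simpa using hL
      have e : alt L (fun _ L' => f ((a :: L').take (k + 1 + 1)) * h ((a :: L').drop (k + 1))) =
          alt L (fun _ L' => f (a :: L'.take (k + 1)) * h (L'.drop k)) := by simp
      rw [alt_cons, e, ih L hL' (fun L' => f (a :: L'))]
      simp only [List.take_succ_cons, List.drop_succ_cons, alt_cons, pow_succ]
      ring

/-- The Alexander-Whitney pairing with the volume cochain. -/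
noncomputable def PP (B : Mats m g) (lam : Fin (m + 1) → ℚ)
    (θa : Module.Dual ℚ (Ex (Fin g → ℚ))) (n k : ℕ)
    (U : List (Fin g → ℤ) → Finset (Ray m g) → ℚ) : ℚ :=
  ∑ ρ ∈ fund m g n, U (((ρ.sort (· ≤ ·)).take (k + 1)).map Ray.pos) ρ *
    VolL B lam θa ((ρ.sort (· ≤ ·)).drop k)

lemma PP_step (hB : Hyp B) (hu : HodgeE B u) {p j k n : ℕ} (hpq : p + q = g)
    (hjk : j + 1 + k = p) (hn : k + 1 ≤ n) (lam : Fin (m + 1) → ℚ)
    (θa : Module.Dual ℚ (Ex (Fin g → ℚ))) :
    PP B lam θa n k (FF B u θ p (j + 1) k) = PP B lam θa (n + 1) (k + 1) (FF B u θ p j (k + 1)) := by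
  have h1 := sum_fund_link (n := n) (fun s σ => sg s σ *
      GG B u θ p j k (((σ.sort (· ≤ ·)).take (k + 1)).map Ray.pos) (insert s σ) *
      VolL B lam θa ((σ.sort (· ≤ ·)).drop k)) (fun γ s σ hσ hs => by
        rw [sg_shift, sort_shift, ← shift_insert, ← List.map_drop, VolL_shift, ← List.map_take,
          ← GG_shift hB hjk (hσ.insert hs) γ (((σ.sort (· ≤ ·)).take (k + 1)).map Ray.pos)]
        simp [Function.comp_def])
    (fun s σ hσ hs => by
      rw [VolL, if_neg, mul_zero]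
      intro h
      refine hσ ⟨hs, fun i => ?_⟩
      obtain ⟨r, hr, hi⟩ := h i
      exact ⟨r, by simpa using List.mem_of_mem_drop hr, hi⟩)
  unfold PP
  calc _ = _ := sum_congr rfl fun σ hσ => by
          rw [← bd_GG hB (mem_fund.1 hσ).1, sum_mul]
    _ = _ := h1
    _ = _ := sum_congr rfl fun ρ hρ => ?_
  obtain ⟨hg, -, hc⟩ := mem_fund.1 hρ
  have h2 := alt_sort ρ (fun _ L' => GG B u θ p j k ((L'.take (k + 1)).map Ray.pos) ρ *
    VolL B lam θa (L'.drop k))
  rw [alt_cup k _ (by simp [hc]; omega) (fun L' => GG B u θ p j k (L'.map Ray.pos) ρ),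
    VolL_cocycle, mul_zero, add_zero] at h2
  rw [← cobd_GG hB hu hpq hjk hg (by simp [hc]; omega), alt_map, h2]
  refine sum_congr rfl fun s hs => ?_
  rw [insert_erase hs, sg_erase_self, smul_eq_mul, mul_assoc]

lemma PP_chain (hB : Hyp B) (hu : HodgeE B u) {p n : ℕ} (hpq : p + q = g) (hn : 1 ≤ n)
    (lam : Fin (m + 1) → ℚ) (θa : Module.Dual ℚ (Ex (Fin g → ℚ))) (k j : ℕ) (h : j + k = p) :
    PP B lam θa n 0 (FF B u θ p p 0) = PP B lam θa (n + k) k (FF B u θ p j k) := by
  induction k generalizing j with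
  | zero => rw [← h]; rfl
  | succ k ih =>
    rw [ih (j + 1) (by omega), PP_step hB hu hpq (by omega) (by omega)]
    rfl

end H57T
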